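import Pool.Agent.Lib.LPX.Upper
import Pool.Agent.Lib.KL.PackMain

/-!
LPX project, row R3: the density of packings of balls and the linear programming bound.
-/

set_option autoImplicit false

namespace Pool.Agent.LPX

open MeasureTheory Filter Topology Metric
open Pool.Agent.Lib.KL.Pack (Delta IsPacking density)
open scoped Real

/-- The density of a packing and an admissible pair. -/
theorem density_le_val {n : ℕ} (hn : 0 < n) {F : EuclideanSpace ℝ (Fin n) → ℝ} {r : ℝ}
    (h : Adm n F r) {ρ : ℝ} {C : Set (EuclideanSpace ℝ (Fin n))} (hC : IsPacking ρ C) :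
    density ρ C ≤ volume.real (ball (0 : EuclideanSpace ℝ (Fin n)) 1) *
      (val n F r / 4) ^ ((n : ℝ) / 2) := by
  obtain ⟨hr, hi, ⟨ν, hν, hF⟩, hneg, hpos⟩ := h
  have h1 := Pool.Agent.Lib.KL.Pack.density_le (d := n) (k := 0) (N := n) rfl ν
    (F := F) (fun z => by
      rw [hF]
      exact integral_congr_ae (ae_of_all _ fun w => by simp only [real_inner_comm])) hi hpos hr
    hneg hC
  refine h1.trans (le_of_eq ?_)
  have hn0 : (n : ℝ) ≠ 0 := by exact_mod_cast hn.ne'
  have hF0 : 0 ≤ F 0 := by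
    rw [hF]
    exact integral_nonneg fun w => by simp
  have hq : 0 ≤ F 0 / ∫ z, F z := by positivity
  have h2 : (val n F r / 4) ^ ((n : ℝ) / 2) = (1 / 2) ^ n * (r ^ n * (F 0 / ∫ z, F z)) := by
    rw [val, mul_div_right_comm, Real.mul_rpow (by positivity) (Real.rpow_nonneg hq _),
      ← Real.rpow_mul hq, show (2 : ℝ) / n * (n / 2) = 1 by field_simp, Real.rpow_one,
      show r ^ 2 / 4 = (r / 2) ^ (2 : ℝ) by
        rw [show (2 : ℝ) = ((2 : ℕ) : ℝ) by norm_num, Real.rpow_natCast]; ring,
      ← Real.rpow_mul (by positivity), show (2 : ℝ) * (n / 2) = n by ring, Real.rpow_natCast,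
      div_pow, one_div, inv_pow]
    ring
  rw [h2]
  ring

/-- **Row R3 (a)**: the density of packings and the linear programming bound. -/
theorem Delta_le_lp {n : ℕ} (hn : 0 < n) : Delta n ≤
    volume.real (ball (0 : EuclideanSpace ℝ (Fin n)) 1) * (lp n / 4) ^ ((n : ℝ) / 2) := by
  have hn0 : (0 : ℝ) < n := by exact_mod_cast hn
  have hv : 0 < volume.real (ball (0 : EuclideanSpace ℝ (Fin n)) 1) := by
    rw [measureReal_def]
    exact ENNReal.toReal_pos (measure_ball_pos _ _ one_pos).ne' measure_ball_lt_top.ne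
  have hne : ∀ ρ : ℝ, ∀ C : Set (EuclideanSpace ℝ (Fin n)), 0 ≤ density ρ C := fun ρ C => by
    refine le_limsup_of_frequently_le (Frequently.of_forall fun R => by positivity) ?_
    refine isBoundedUnder_of_eventually_le (a := 1) ?_
    filter_upwards [eventually_gt_atTop 0] with R hR
    have h0 : 0 < volume.real (ball (0 : EuclideanSpace ℝ (Fin n)) R) := by
      rw [measureReal_def]
      exact ENNReal.toReal_pos (measure_ball_pos _ _ hR).ne' measure_ball_lt_top.ne
    rw [div_le_one h0]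
    exact measureReal_mono Set.inter_subset_left measure_ball_lt_top.ne
  refine csSup_le ⟨density 1 (∅ : Set (EuclideanSpace ℝ (Fin n))), 1, ∅,
    ⟨one_pos, Set.pairwiseDisjoint_empty⟩, rfl⟩ ?_
  rintro _ ⟨ρ, X, hX, rfl⟩
  set D : ℝ := density ρ X with hD
  have hD0 : 0 ≤ D := hne ρ X
  set v : ℝ := volume.real (ball (0 : EuclideanSpace ℝ (Fin n)) 1) with hvd
  have h1 : 4 * (D / v) ^ ((2 : ℝ) / n) ≤ lp n := by
    refine le_lp fun F r hF => ?_
    have h2 := density_le_val hn hF hX
    have hval := hF.val_nonneg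
    have h3 : D / v ≤ (val n F r / 4) ^ ((n : ℝ) / 2) := by
      rw [div_le_iff₀ hv]; linarith
    have h4 := Real.rpow_le_rpow (by positivity) h3 (show (0 : ℝ) ≤ 2 / n by positivity)
    rw [← Real.rpow_mul (by positivity), show (n : ℝ) / 2 * (2 / n) = 1 by field_simp,
      Real.rpow_one] at h4
    linarith
  have h2 : (D / v) ^ ((2 : ℝ) / n) ≤ lp n / 4 := by linarith
  have h3 := Real.rpow_le_rpow (by positivity) h2 (show (0 : ℝ) ≤ n / 2 by positivity)
  rw [← Real.rpow_mul (by positivity), show (2 : ℝ) / n * (n / 2) = 1 by field_simp,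
    Real.rpow_one, div_le_iff₀ hv] at h3
  linarith

/-- **Row R3 (a)**, in the form of the combination. -/
theorem rate_dens : ∀ n : ℕ, 2 ≤ n → Delta n ≤
    volume.real (ball (0 : EuclideanSpace ℝ (Fin n)) 1) * (lp n / 4) ^ ((n : ℝ) / 2) :=
  fun _ hn => Delta_le_lp (by omega)

/-- **Row R3 (b)**: the volume of the unit ball. -/
theorem vol_le {n : ℕ} (hn : 0 < n) : volume.real (ball (0 : EuclideanSpace ℝ (Fin n)) 1) ≤
    (2 * π * Real.exp 1 / n) ^ ((n : ℝ) / 2) := by
  have hn0 : (0 : ℝ) < n := by exact_mod_cast hn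
  have hv : 0 < volume.real (ball (0 : EuclideanSpace ℝ (Fin n)) 1) := by
    rw [measureReal_def]
    exact ENNReal.toReal_pos (measure_ball_pos _ _ one_pos).ne' measure_ball_lt_top.ne
  have h1 := Pool.Agent.Lib.KL.Pack.log_vol_le hn
  rw [← Real.log_div (by positivity) hn0.ne', ← Real.log_rpow (by positivity)] at h1
  exact (Real.log_le_log_iff hv (by positivity)).1 h1

/-- **Row R3 (b)**, in the form of the combination. -/
theorem rate_vol : ∀ n : ℕ, 2 ≤ n → volume.real (ball (0 : EuclideanSpace ℝ (Fin n)) 1) ≤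
    (2 * π * Real.exp 1 / n) ^ ((n : ℝ) / 2) :=
  fun _ hn => vol_le (by omega)

end Pool.Agent.LPX
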