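import Pool.Agent.Lib.LPX.Row4

/-!
LPX project, row LPX3 (helper76): Phragmen-Lindelof in the right half plane against the Butterworth
polynomial.
-/

open Complex Finset Filter Topology Set Bornology
open scoped Real

namespace Pool.Agent.LPX

open KL

theorem r3_norm_add {z : ℂ} (hz : 0 ≤ z.re) {eps : ℝ} (he : 0 < eps) : ‖z‖ ≤ ‖z + eps‖ := by
  rw [← sq_le_sq₀ (norm_nonneg _) (norm_nonneg _), ← Complex.normSq_eq_norm_sq,
    ← Complex.normSq_eq_norm_sq, Complex.normSq_apply, Complex.normSq_apply]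
  simp only [Complex.add_re, Complex.ofReal_re, Complex.add_im, Complex.ofReal_im, add_zero]
  nlinarith [mul_nonneg hz he.le, mul_pos he he]

theorem r3_B_le (m : ℕ) (z : ℂ) : ‖∏ j ∈ range m, (1 - zt m j * z)‖ ≤ (1 + ‖z‖) ^ m := by
  rw [norm_prod]
  calc ∏ j ∈ range m, ‖1 - zt m j * z‖ ≤ ∏ _j ∈ range m, (1 + ‖z‖) := by
        refine Finset.prod_le_prod (fun _ _ => norm_nonneg _) fun j _ => ?_
        refine (norm_sub_le _ _).trans ?_
        rw [norm_one, norm_mul, norm_zt, one_mul]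
    _ = (1 + ‖z‖) ^ m := by rw [Finset.prod_const, Finset.card_range]

/-- The two bounds give `‖L1 (z + eps)‖ * ‖z‖ ^ m ≤ 1`. -/
theorem r3_pow {N m : ℕ} (hN : (m : ℝ) ≤ (N : ℝ) / 2) {L1 : ℂ → ℂ}
    (h1 : ∀ σ : ℂ, 0 < σ.re → ‖L1 σ‖ ≤ 1)
    (h2 : ∀ σ : ℂ, 0 < σ.re → ‖L1 σ‖ ≤ ‖σ‖ ^ (-((N : ℝ) / 2)))
    {eps : ℝ} (heps : 0 < eps) {z : ℂ} (hz : 0 ≤ z.re) : ‖L1 (z + eps)‖ * ‖z‖ ^ m ≤ 1 := by
  have hp : 0 < (z + eps : ℂ).re := by
    rw [Complex.add_re, Complex.ofReal_re]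
    linarith
  rcases le_total ‖z‖ 1 with h | h
  · calc ‖L1 (z + eps)‖ * ‖z‖ ^ m ≤ 1 * 1 :=
          mul_le_mul (h1 _ hp) (pow_le_one₀ (norm_nonneg _) h) (by positivity) zero_le_one
      _ = 1 := one_mul 1
  · have hz0 : 0 < ‖z‖ := by linarith
    have h3 : ‖L1 (z + eps)‖ ≤ ‖z‖ ^ (-(m : ℝ)) := by
      refine (h2 _ hp).trans ?_
      refine (Real.rpow_le_rpow_of_nonpos hz0 (r3_norm_add hz heps) ?_).trans ?_
      · have : (0 : ℝ) ≤ (N : ℝ) / 2 := by positivity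
        linarith
      · exact Real.rpow_le_rpow_of_exponent_le h (by linarith)
    calc ‖L1 (z + eps)‖ * ‖z‖ ^ m ≤ ‖z‖ ^ (-(m : ℝ)) * ‖z‖ ^ m :=
          mul_le_mul_of_nonneg_right h3 (by positivity)
      _ = 1 := by
          rw [Real.rpow_neg hz0.le, Real.rpow_natCast, inv_mul_cancel₀ (by positivity)]

/-- **LPX3** (text B4). -/
theorem lpx3 {N m : ℕ} (hm : 2 ≤ m) (he : Even m) (hN : (m : ℝ) ≤ (N : ℝ) / 2) {L1 : ℂ → ℂ}
    (hd : DifferentiableOn ℂ L1 {z : ℂ | 0 < z.re})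
    (h1 : ∀ σ : ℂ, 0 < σ.re → ‖L1 σ‖ ≤ 1)
    (h2 : ∀ σ : ℂ, 0 < σ.re → ‖L1 σ‖ ≤ ‖σ‖ ^ (-((N : ℝ) / 2)))
    {eps : ℝ} (heps : 0 < eps) {σ : ℂ} (hσ : 0 ≤ σ.re) :
    ‖L1 (σ + eps)‖ * ‖∏ j ∈ range m, (1 - zt m j * σ)‖ ≤ √2 := by
  have hm0 : 0 < m := by omega
  have hopen : IsOpen {z : ℂ | 0 < z.re} := isOpen_lt continuous_const Complex.continuous_re
  have hp : ∀ z : ℂ, 0 ≤ z.re → 0 < (z + eps : ℂ).re := by
    intro z hz
    rw [Complex.add_re, Complex.ofReal_re]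
    linarith
  have hbd : ∀ z : ℂ, 0 ≤ z.re → ‖L1 (z + eps) * ∏ j ∈ range m, (1 - zt m j * z)‖ ≤ 2 ^ m := by
    intro z hz
    rw [norm_mul]
    rcases le_total ‖z‖ 1 with h | h
    · calc ‖L1 (z + eps)‖ * ‖∏ j ∈ range m, (1 - zt m j * z)‖ ≤ 1 * (1 + ‖z‖) ^ m :=
            mul_le_mul (h1 _ (hp z hz)) (r3_B_le m z) (norm_nonneg _) zero_le_one
        _ ≤ 1 * 2 ^ m := by
            gcongr
            linarith
        _ = 2 ^ m := one_mul _
    · calc ‖L1 (z + eps)‖ * ‖∏ j ∈ range m, (1 - zt m j * z)‖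
            ≤ ‖L1 (z + eps)‖ * (2 * ‖z‖) ^ m := by
            refine mul_le_mul_of_nonneg_left ((r3_B_le m z).trans ?_) (norm_nonneg _)
            gcongr
            linarith
        _ = 2 ^ m * (‖L1 (z + eps)‖ * ‖z‖ ^ m) := by ring
        _ ≤ 2 ^ m * 1 := by
            gcongr
            exact r3_pow hN h1 h2 heps hz
        _ = 2 ^ m := mul_one _
  rw [← norm_mul]
  refine PhragmenLindelof.right_half_plane_of_bounded_on_real
    (f := fun z => L1 (z + eps) * ∏ j ∈ range m, (1 - zt m j * z)) ?_ ?_ ?_ ?_ hσ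
  · apply DifferentiableOn.diffContOnCl
    rw [Complex.closure_setOfPred_lt_re]
    intro z hz
    have hz' : 0 ≤ z.re := hz
    have d1 : DifferentiableAt ℂ (fun z : ℂ => L1 (z + eps)) z := by
      have h3 : DifferentiableAt ℂ L1 (z + eps) :=
        (hd _ (hp z hz')).differentiableAt (hopen.mem_nhds (hp z hz'))
      exact h3.comp z (differentiableAt_id.add_const _)
    have d2 : DifferentiableAt ℂ (fun z : ℂ => ∏ j ∈ range m, (1 - zt m j * z)) z := by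
      refine DifferentiableAt.fun_finsetProd fun j _ => ?_
      exact (differentiableAt_const _).sub ((differentiableAt_const _).mul differentiableAt_id)
    exact (d1.mul d2).differentiableWithinAt
  · refine ⟨1, by norm_num, 0, ?_⟩
    refine Asymptotics.IsBigO.of_bound (2 ^ m) ?_
    rw [Filter.eventually_inf_principal]
    refine Filter.Eventually.of_forall fun z hz => ?_
    rw [zero_mul, Real.exp_zero, norm_one, mul_one]
    exact hbd z (le_of_lt hz)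
  · refine ⟨2 ^ m, ?_⟩
    rw [Filter.eventually_map]
    filter_upwards [eventually_ge_atTop (0 : ℝ)] with x hx
    exact hbd x (by simpa using hx)
  · intro y
    apply Real.le_sqrt_of_sq_le
    have hy0 : (0 : ℝ) ≤ ((y : ℂ) * I).re := by simp
    have e1 : ‖∏ j ∈ range m, (1 - zt m j * (y * I))‖ ^ 2 = 1 + y ^ (2 * m) := by
      rw [← r4phi_zero hm0 he, r4phi_eq]
      simp only [Complex.ofReal_zero, zero_add]
    have e2 := r3_pow hN h1 h2 heps hy0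
    have e3 := h1 _ (hp _ hy0)
    have e4 : ‖(y : ℂ) * I‖ = |y| := by
      rw [norm_mul, Complex.norm_I, mul_one, Complex.norm_real, Real.norm_eq_abs]
    rw [e4] at e2
    have e5 : y ^ (2 * m) = (|y| ^ m) ^ 2 := by
      rw [← pow_mul, mul_comm m 2, (even_two_mul m).pow_abs]
    show ‖L1 (y * I + eps) * ∏ j ∈ range m, (1 - zt m j * (y * I))‖ ^ 2 ≤ 2
    rw [norm_mul, mul_pow, e1, e5]
    have e6 : ‖L1 (y * I + eps)‖ ^ 2 ≤ 1 := pow_le_one₀ (norm_nonneg _) e3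
    have e7 : (‖L1 (y * I + eps)‖ * |y| ^ m) ^ 2 ≤ 1 := pow_le_one₀ (by positivity) e2
    nlinarith

end Pool.Agent.LPX
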