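import Pool.Agent.Lib.LPX.Defs
import Pool.Agent.Lib.KL.Roots
import Pool.Agent.Lib.KL.Formula

/-!
LPX project, row LPX4 (helper76): the Butterworth polynomial on vertical lines,
`exp (S x - m x^2) ≤ |B (x + i y)|` for `x ≥ 0`, by Phragmen-Lindelof in the quadrant.
-/

open Complex Finset Filter Topology Set Bornology
open scoped Real

namespace Pool.Agent.LPX

open KL

/-- A factor of `B` is bounded below in the closed right half plane. -/
theorem r4_cos_le_norm {m j : ℕ} {σ : ℂ} (hσ : 0 ≤ σ.re) :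
    Real.cos (psi m j) ≤ ‖1 - zt m j * σ‖ := by
  have h1 : (1 - zt m j * σ) = zt m j * ((starRingEnd ℂ) (zt m j) - σ) := by
    rw [mul_sub, Complex.mul_conj, Complex.normSq_eq_norm_sq, norm_zt]
    simp
  rw [h1, norm_mul, norm_zt, one_mul, norm_sub_rev]
  refine le_trans ?_ (Complex.re_le_norm _)
  rw [Complex.sub_re, Complex.conj_re, zt_re]
  linarith

theorem r4_ne_zero {m j : ℕ} (hj : j < m) {σ : ℂ} (hσ : 0 ≤ σ.re) : 1 - zt m j * σ ≠ 0 := by
  have h1 := r4_cos_le_norm (m := m) (j := j) hσ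
  have h2 := cos_psi_pos hj
  exact norm_pos_iff.1 (h2.trans_le h1)

/-- The logarithmic derivative of `B`. -/
noncomputable def r4D (m : ℕ) (σ : ℂ) : ℂ := ∑ j ∈ range m, (-zt m j) / (1 - zt m j * σ)

theorem r4D_norm_le (m : ℕ) {σ : ℂ} (hσ : 0 ≤ σ.re) :
    ‖r4D m σ‖ ≤ ∑ j ∈ range m, 1 / Real.cos (psi m j) := by
  refine (norm_sum_le _ _).trans (Finset.sum_le_sum fun j hj => ?_)
  rw [norm_div, norm_neg, norm_zt]
  exact one_div_le_one_div_of_le (cos_psi_pos (Finset.mem_range.1 hj)) (r4_cos_le_norm hσ)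

theorem r4D_diff (m : ℕ) {σ : ℂ} (hσ : 0 ≤ σ.re) : DifferentiableAt ℂ (r4D m) σ := by
  unfold r4D
  refine DifferentiableAt.fun_sum fun j hj => ?_
  refine DifferentiableAt.fun_div (differentiableAt_const _) ?_ (r4_ne_zero (Finset.mem_range.1 hj) hσ)
  exact (differentiableAt_const _).sub ((differentiableAt_const _).mul differentiableAt_id)

theorem r4D_conj (m : ℕ) (σ : ℂ) : r4D m ((starRingEnd ℂ) σ) = (starRingEnd ℂ) (r4D m σ) := by
  unfold r4D
  rw [map_sum, ← Finset.sum_range_reflect]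
  refine Finset.sum_congr rfl fun j hj => ?_
  rw [map_div₀, map_neg, map_sub, map_mul, map_one, zt_symm (Finset.mem_range.1 hj)]

theorem r4D_real_im (m : ℕ) (x : ℝ) : (r4D m x).im = 0 := by
  have h1 := r4D_conj m x
  rw [Complex.conj_ofReal] at h1
  have h2 := congrArg Complex.im h1
  rw [Complex.conj_im] at h2
  linarith

/-- The square of the norm of a factor on a vertical line. -/
noncomputable def r4q (m j : ℕ) (x y : ℝ) : ℝ :=
  (1 + Real.cos (psi m j) * x - Real.sin (psi m j) * y) ^ 2 +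
    (Real.cos (psi m j) * y + Real.sin (psi m j) * x) ^ 2

theorem r4q_eq (m j : ℕ) (x y : ℝ) : ‖1 - zt m j * (x + y * I)‖ ^ 2 = r4q m j x y := by
  rw [← Complex.normSq_eq_norm_sq, Complex.normSq_apply, r4q]
  have h1 : (1 - zt m j * (x + y * I)).re = 1 + Real.cos (psi m j) * x - Real.sin (psi m j) * y := by
    simp only [Complex.sub_re, Complex.one_re, Complex.mul_re, Complex.add_re, Complex.ofReal_re,
      Complex.I_re, mul_zero, Complex.ofReal_im, Complex.I_im, mul_one, sub_self, add_zero,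
      Complex.add_im, Complex.mul_im, zero_add, zt_re, zt_im]
    ring
  have h2 : (1 - zt m j * (x + y * I)).im = Real.cos (psi m j) * y + Real.sin (psi m j) * x := by
    simp only [Complex.sub_im, Complex.one_im, Complex.mul_re, Complex.add_re, Complex.ofReal_re,
      Complex.I_re, mul_zero, Complex.ofReal_im, Complex.I_im, mul_one, sub_self, add_zero,
      Complex.add_im, Complex.mul_im, zero_add, zt_re, zt_im]
    ring
  rw [h1, h2]
  ring

theorem r4q_pos {m j : ℕ} (hj : j < m) {x : ℝ} (hx : 0 ≤ x) (y : ℝ) : 0 < r4q m j x y := by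
  rw [← r4q_eq]
  have : (1 - zt m j * (x + y * I)) ≠ 0 := r4_ne_zero hj (by simpa using hx)
  positivity

theorem r4q_deriv (m j : ℕ) (x y : ℝ) :
    HasDerivAt (fun t => r4q m j x t) (2 * (y - Real.sin (psi m j))) y := by
  have h1 : HasDerivAt (fun t : ℝ => 1 + Real.cos (psi m j) * x - Real.sin (psi m j) * t)
      (-(Real.sin (psi m j) * 1)) y := ((hasDerivAt_id y).const_mul _).const_sub _
  have h2 : HasDerivAt (fun t : ℝ => Real.cos (psi m j) * t + Real.sin (psi m j) * x)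
      (Real.cos (psi m j) * 1) y := ((hasDerivAt_id y).const_mul _).add_const _
  have h3 := (h1.pow 2).add (h2.pow 2)
  have h4 : (fun t => r4q m j x t) = (fun t : ℝ => 1 + Real.cos (psi m j) * x - Real.sin (psi m j) * t) ^ 2
      + (fun t : ℝ => Real.cos (psi m j) * t + Real.sin (psi m j) * x) ^ 2 := by
    funext t
    simp only [r4q, Pi.add_apply, Pi.pow_apply]
  rw [h4]
  refine h3.congr_deriv ?_
  have h5 := Real.sin_sq_add_cos_sq (psi m j)
  push_cast
  linear_combination (2 * y) * h5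

/-- The imaginary part of a term of `D`. -/
theorem r4D_term_im {m j : ℕ} (hj : j < m) {x : ℝ} (hx : 0 ≤ x) (y : ℝ) :
    ((-zt m j) / (1 - zt m j * (x + y * I))).im = -(y - Real.sin (psi m j)) / r4q m j x y := by
  have hne : (1 - zt m j * (x + y * I)) ≠ 0 := r4_ne_zero hj (by simpa using hx)
  have hq := r4q_pos hj hx y
  have hz : zt m j * (starRingEnd ℂ) (zt m j) = 1 := by
    rw [Complex.mul_conj, Complex.normSq_eq_norm_sq, norm_zt]
    simp
  have h1 : (-zt m j) / (1 - zt m j * (x + y * I)) =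
      (-zt m j + (x - y * I)) / ((r4q m j x y : ℝ) : ℂ) := by
    have hq' : ((r4q m j x y : ℝ) : ℂ) ≠ 0 := by exact_mod_cast hq.ne'
    rw [div_eq_div_iff hne hq']
    have h2 : ((r4q m j x y : ℝ) : ℂ) =
        (1 - zt m j * (x + y * I)) * (starRingEnd ℂ) (1 - zt m j * (x + y * I)) := by
      rw [Complex.mul_conj, Complex.normSq_eq_norm_sq, r4q_eq]
    rw [h2, map_sub, map_mul, map_add, map_mul, map_one, Complex.conj_ofReal, Complex.conj_ofReal,
      Complex.conj_I]
    linear_combination ((1 - zt m j * (x + y * I)) * (x - y * I)) * hz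
  rw [h1, Complex.div_ofReal_im]
  congr 1
  simp [zt_im]
  ring

/-- The square of the norm of `B` on a vertical line. -/
noncomputable def r4phi (m : ℕ) (x y : ℝ) : ℝ := ∏ j ∈ range m, r4q m j x y

theorem r4phi_eq (m : ℕ) (x y : ℝ) :
    r4phi m x y = ‖∏ j ∈ range m, (1 - zt m j * (x + y * I))‖ ^ 2 := by
  rw [norm_prod, ← Finset.prod_pow, r4phi]
  exact Finset.prod_congr rfl fun j _ => (r4q_eq m j x y).symm

theorem r4phi_pos (m : ℕ) {x : ℝ} (hx : 0 ≤ x) (y : ℝ) : 0 < r4phi m x y :=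
  Finset.prod_pos fun _ hj => r4q_pos (Finset.mem_range.1 hj) hx y

theorem r4phi_deriv (m : ℕ) {x : ℝ} (hx : 0 ≤ x) (y : ℝ) :
    HasDerivAt (fun t => r4phi m x t) (-(2 * r4phi m x y * (r4D m (x + y * I)).im)) y := by
  have h1 : HasDerivAt (fun t => r4phi m x t)
      (∑ i ∈ range m, (∏ j ∈ (range m).erase i, r4q m j x y) • (2 * (y - Real.sin (psi m i)))) y :=
    HasDerivAt.fun_finsetProd fun i _ => r4q_deriv m i x y
  refine h1.congr_deriv ?_
  rw [r4D, Complex.im_sum, Finset.mul_sum, ← Finset.sum_neg_distrib]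
  refine Finset.sum_congr rfl fun i hi => ?_
  rw [r4D_term_im (Finset.mem_range.1 hi) hx, r4phi, ← Finset.mul_prod_erase _ _ hi, smul_eq_mul]
  have hq := (r4q_pos (Finset.mem_range.1 hi) hx y).ne'
  field_simp

theorem r4phi_zero {m : ℕ} (hm : 0 < m) (he : Even m) (y : ℝ) : r4phi m 0 y = 1 + y ^ (2 * m) := by
  have h1 := prod_hom hm he 1 (y * I)
  have h2 : ∏ j ∈ range m, (1 + zt m j * (y * I)) =
      (starRingEnd ℂ) (∏ j ∈ range m, (1 - zt m j * (y * I))) := by
    rw [map_prod, ← Finset.prod_range_reflect]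
    refine Finset.prod_congr rfl fun j hj => ?_
    rw [zt_symm (Finset.mem_range.1 hj), map_sub, map_mul, map_mul, map_one, Complex.conj_ofReal,
      Complex.conj_I]
    ring
  rw [Finset.prod_mul_distrib, h2, Complex.mul_conj, Complex.normSq_eq_norm_sq, one_pow, mul_pow,
    pow_mul I, Complex.I_sq, he.neg_one_pow, mul_one] at h1
  rw [r4phi_eq]
  simp only [Complex.ofReal_zero, zero_add]
  exact_mod_cast h1

theorem r4D_imag {m : ℕ} (hm : 0 < m) (he : Even m) {y : ℝ} (hy : 0 ≤ y) :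
    (r4D m (y * I)).im ≤ 0 := by
  have h1 := r4phi_deriv m le_rfl y
  have h2 : (fun t => r4phi m 0 t) = fun t : ℝ => 1 + t ^ (2 * m) := by
    funext t
    exact r4phi_zero hm he t
  rw [h2] at h1
  have h3 : HasDerivAt (fun t : ℝ => 1 + t ^ (2 * m)) (((2 * m : ℕ) : ℝ) * y ^ (2 * m - 1)) y :=
    (hasDerivAt_pow (2 * m) y).const_add 1
  have h4 := h1.unique h3
  have h5 := r4phi_pos m le_rfl y
  have h6 : 0 ≤ ((2 * m : ℕ) : ℝ) * y ^ (2 * m - 1) := by positivity
  rw [Complex.ofReal_zero, zero_add] at h4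
  by_contra h7
  push Not at h7
  have := mul_pos h5 h7
  nlinarith

/-- `Im D ≤ 0` in the closed quadrant. -/
theorem r4D_im_nonpos {m : ℕ} (hm : 0 < m) (he : Even m) {σ : ℂ} (hx : 0 ≤ σ.re) (hy : 0 ≤ σ.im) :
    (r4D m σ).im ≤ 0 := by
  have hn : ∀ z : ℂ, ‖Complex.exp (-I * r4D m z)‖ = Real.exp (r4D m z).im := by
    intro z
    rw [Complex.norm_exp]
    congr 1
    simp [Complex.mul_re]
  have key : ‖Complex.exp (-I * r4D m σ)‖ ≤ 1 := by
    refine PhragmenLindelof.quadrant_I (f := fun z => Complex.exp (-I * r4D m z)) ?_ ?_ ?_ ?_ hx hy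
    · apply DifferentiableOn.diffContOnCl
      rw [Complex.closure_reProdIm, closure_Ioi]
      intro z hz
      rw [Complex.mem_reProdIm] at hz
      exact ((r4D_diff m hz.1).const_mul _).cexp.differentiableWithinAt
    · refine ⟨1, by norm_num, 0, ?_⟩
      refine Asymptotics.IsBigO.of_bound (Real.exp (∑ j ∈ range m, 1 / Real.cos (psi m j))) ?_
      rw [Filter.eventually_inf_principal]
      refine Filter.Eventually.of_forall fun z hz => ?_
      rw [Complex.mem_reProdIm] at hz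
      rw [hn, zero_mul, Real.exp_zero, norm_one, mul_one, Real.exp_le_exp]
      exact ((le_abs_self _).trans (Complex.abs_im_le_norm _)).trans (r4D_norm_le m (le_of_lt hz.1))
    · intro x _
      rw [hn, r4D_real_im, Real.exp_zero]
    · intro y hy'
      rw [hn]
      exact Real.exp_le_one_iff.2 (r4D_imag hm he hy')
  rw [hn] at key
  exact Real.exp_le_one_iff.1 key

theorem r4phi_mono {m : ℕ} (hm : 0 < m) (he : Even m) {x : ℝ} (hx : 0 ≤ x) :
    MonotoneOn (fun y => r4phi m x y) (Ici 0) := by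
  refine monotoneOn_of_deriv_nonneg (convex_Ici 0)
    (fun y _ => (r4phi_deriv m hx y).continuousAt.continuousWithinAt)
    (fun y _ => (r4phi_deriv m hx y).differentiableAt.differentiableWithinAt) ?_
  intro y hy
  rw [interior_Ici] at hy
  rw [(r4phi_deriv m hx y).deriv]
  have h1 := r4phi_pos m hx y
  have h2 : (r4D m (x + y * I)).im ≤ 0 :=
    r4D_im_nonpos hm he (by simpa using hx) (by simpa using le_of_lt hy)
  nlinarith [mul_nonneg h1.le (neg_nonneg.2 h2)]

/-- **(5.1)** -/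
theorem norm_B_real_le {m : ℕ} (hm : 0 < m) (he : Even m) {x : ℝ} (hx : 0 ≤ x) (y : ℝ) :
    ‖∏ j ∈ range m, (1 - zt m j * x)‖ ≤ ‖∏ j ∈ range m, (1 - zt m j * (x + y * I))‖ := by
  have h0 : ∀ y : ℝ, 0 ≤ y → ‖∏ j ∈ range m, (1 - zt m j * x)‖ ≤
      ‖∏ j ∈ range m, (1 - zt m j * (x + y * I))‖ := by
    intro y hy
    have h1 := r4phi_mono hm he hx (Set.mem_Ici.2 le_rfl) (Set.mem_Ici.2 hy) hy
    have h2 : r4phi m x 0 ≤ r4phi m x y := h1
    rw [r4phi_eq, r4phi_eq] at h2
    simp only [Complex.ofReal_zero, zero_mul, add_zero] at h2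
    exact (sq_le_sq₀ (norm_nonneg _) (norm_nonneg _)).1 h2
  rcases le_total 0 y with hy | hy
  · exact h0 y hy
  · have h1 := h0 (-y) (by linarith)
    have h2 : ∏ j ∈ range m, (1 - zt m j * (x + ((-y : ℝ) : ℂ) * I)) =
        (starRingEnd ℂ) (∏ j ∈ range m, (1 - zt m j * (x + y * I))) := by
      rw [map_prod, ← Finset.prod_range_reflect]
      refine Finset.prod_congr rfl fun j hj => ?_
      rw [zt_symm (Finset.mem_range.1 hj), map_sub, map_mul, map_add, map_mul, map_one,
        Complex.conj_ofReal, Complex.conj_ofReal, Complex.conj_I]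
      push_cast
      ring
    rw [h2, Complex.norm_conj] at h1
    exact h1

theorem r4_log {t : ℝ} (ht : 0 ≤ t) : Real.exp (t - t ^ 2 / 2) ≤ 1 + t := by
  have h1 := Real.le_log_one_add_of_nonneg ht
  have h2 : t - t ^ 2 / 2 ≤ 2 * t / (t + 2) := by
    rw [le_div_iff₀ (by linarith)]
    nlinarith [pow_nonneg ht 3]
  calc Real.exp (t - t ^ 2 / 2) ≤ Real.exp (Real.log (1 + t)) := Real.exp_le_exp.2 (h2.trans h1)
    _ = 1 + t := Real.exp_log (by linarith)

/-- **(5.2)**, one factor. -/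
theorem r4_factor {m j : ℕ} (hj : j < m) {x : ℝ} (hx : 0 ≤ x) :
    Real.exp (Real.cos (psi m j) * x - x ^ 2) ≤ ‖1 - zt m j * x‖ := by
  have h1 := r4q_eq m j x 0
  simp only [Complex.ofReal_zero, zero_mul, add_zero] at h1
  have hc := (cos_psi_pos hj).le
  have hc1 := Real.cos_le_one (psi m j)
  have h2 : r4q m j x 0 = 1 + 2 * Real.cos (psi m j) * x + x ^ 2 := by
    rw [r4q]
    linear_combination x ^ 2 * Real.sin_sq_add_cos_sq (psi m j)
  have h3 := r4_log (t := 2 * Real.cos (psi m j) * x) (by positivity)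
  have h4 : Real.exp (Real.cos (psi m j) * x - x ^ 2) ^ 2 ≤
      Real.exp (2 * Real.cos (psi m j) * x - (2 * Real.cos (psi m j) * x) ^ 2 / 2) := by
    rw [← Real.exp_nat_mul, Real.exp_le_exp]
    have : (Real.cos (psi m j)) ^ 2 ≤ 1 := by nlinarith
    push_cast
    nlinarith [mul_nonneg (sub_nonneg.2 this) (sq_nonneg x)]
  have h5 : Real.exp (Real.cos (psi m j) * x - x ^ 2) ^ 2 ≤ ‖1 - zt m j * x‖ ^ 2 := by
    rw [h1, h2]
    nlinarith [sq_nonneg x]
  exact (sq_le_sq₀ (Real.exp_pos _).le (norm_nonneg _)).1 h5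

/-- **LPX4** (text B5). -/
theorem lpx4 {m : ℕ} (hm : 2 ≤ m) (he : Even m) {x : ℝ} (hx : 0 ≤ x) (y : ℝ) :
    Real.exp (x / Real.sin (π / (2 * m)) - m * x ^ 2) ≤
      ‖∏ j ∈ range m, (1 - zt m j * (x + y * I))‖ := by
  have hm0 : 0 < m := by omega
  refine le_trans ?_ (norm_B_real_le hm0 he hx y)
  have h1 : x / Real.sin (π / (2 * m)) - m * x ^ 2 =
      ∑ j ∈ range m, (Real.cos (psi m j) * x - x ^ 2) := by
    rw [Finset.sum_sub_distrib, ← Finset.sum_mul, sum_cos_psi hm0, Finset.sum_const,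
      Finset.card_range, nsmul_eq_mul]
    ring
  rw [h1, Real.exp_sum, norm_prod]
  exact Finset.prod_le_prod (fun j _ => (Real.exp_pos _).le)
    fun j hj => r4_factor (Finset.mem_range.1 hj) hx

end Pool.Agent.LPX
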