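import Pool.Agent.Lib.LPX.Lower
import Pool.Agent.Lib.LPX.Row3
import Pool.Agent.Lib.LPX.Row4

/-!
LPX project, row 6: the lower bound for every admissible pair.
-/

namespace Pool.Agent.LPX

open MeasureTheory Filter Topology Finset Complex
open scoped Real
open Pool.Agent.KL

theorem row3_holds {N : ℕ} (hN : 4 ≤ N) : Row3 (2 * (N / 4)) ((N : ℝ) / 2) := by
  intro L1 hd h1 h2 ε hε z hz
  refine lpx3 (by omega) (even_two_mul _) ?_ hd h1 h2 hε hz
  have : 2 * (2 * (N / 4)) ≤ N := by omega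
  have h2 : (2 : ℝ) * ((2 * (N / 4) : ℕ) : ℝ) ≤ N := by exact_mod_cast this
  linarith

theorem row4_holds {N : ℕ} (hN : 4 ≤ N) : Row4 (2 * (N / 4)) := by
  intro x hx y
  have h := lpx4 (m := 2 * (N / 4)) (by omega) (even_two_mul _) hx y
  rw [one_div_mul_eq_div]
  exact h

/-- The explicit barrier. -/
theorem barrier {N : ℕ} (hN : 4 ≤ N) {F : EuclideanSpace ℝ (Fin N) → ℝ} {r : ℝ}
    (h : Adm N F r) {s : ℝ} (hs : 0 < s) :
    π / 5 * Real.exp ((1 / Real.sin (π / (2 * (2 * (N / 4) : ℕ))) - 1) * s -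
      (2 * (N / 4) : ℕ) * s ^ 2) ≤ (π * val N F r) * Real.exp (s * (π * val N F r)) :=
  barrier_adm hN h (row3_holds hN) (row4_holds hN) hs

/-- **No admissible pair is better than `1 / π²`.** -/
theorem lpx6 (d : ℝ) (hd : 0 < d) :
    ∀ᶠ N : ℕ in atTop, ∀ (F : EuclideanSpace ℝ (Fin N) → ℝ) (r : ℝ), Adm N F r →
      (1 / π ^ 2 - d) * N ≤ val N F r :=
  lpx6_of (fun _ hN => row3_holds hN) (fun _ hN => row4_holds hN) hd

end Pool.Agent.LPX
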