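import Pool.Agent.Lib.LPX.Red
import Pool.Agent.Lib.LPX.Lpx6
import Pool.Agent.Lib.KL.Test

/-!
LPX project, row 8: the upper half and the assembly.
-/

set_option autoImplicit false

namespace Pool.Agent.LPX

open MeasureTheory Filter Topology Pool.Agent.Lib.MP_ef2672_gt_Tauber
open scoped Real

theorem Adm.zero_nonneg {N : ℕ} {F : EuclideanSpace ℝ (Fin N) → ℝ} {r : ℝ} (h : Adm N F r) :
    0 ≤ F 0 := by
  obtain ⟨-, -, ⟨ν, hν, hF⟩, -, -⟩ := h
  rw [hF 0]
  simp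

theorem Adm.val_nonneg {N : ℕ} {F : EuclideanSpace ℝ (Fin N) → ℝ} {r : ℝ} (h : Adm N F r) :
    0 ≤ val N F r := by
  have h0 := h.zero_nonneg
  have h1 := h.2.2.2.2
  unfold val
  positivity

/-- An admissible function with threshold `√R` and ratio at most `q`. -/
def TestAt (M : ℕ) (R q : ℝ) : Prop :=
  ∃ F : EuclideanSpace ℝ (Fin M) → ℝ, Adm M F (√R) ∧ F 0 / (∫ x, F x) ≤ q

/-- The test functions, in the dimensions `4n`, `n` even. -/
theorem testAt : ∃ (A B D : ℝ) (C n0 : ℕ), 0 < B ∧ ∀ n : ℕ, n0 ≤ n → Even n →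
    0 < 2 / Real.sin (π / (2 * n)) + A * √n * (1 + Real.log n) →
    TestAt (4 * n) (2 / Real.sin (π / (2 * n)) + A * √n * (1 + Real.log n))
      (B * (n : ℝ) ^ C * Real.exp (D * √n) / π ^ (2 * n)) := by
  obtain ⟨A, B, D, C, n0, hB, H⟩ := Pool.Agent.KL.test_exists
  refine ⟨A, B, D, C, n0, hB, fun n hn he hR => ?_⟩
  obtain ⟨ν, F, hν, hF, hi, hpos, hneg, hq⟩ := H n hn he
  refine ⟨F, ⟨Real.sqrt_pos.2 hR, hi, ⟨ν, hν, fun x => ?_⟩, fun x hx => ?_, hpos⟩, hq⟩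
  · rw [hF x]
    simp only [real_inner_comm]
  · refine hneg x ?_
    have h1 := pow_le_pow_left₀ (Real.sqrt_nonneg _) hx 2
    rwa [Real.sq_sqrt hR.le] at h1

theorem tendsto_frac : Tendsto (fun n : ℕ => (4 * n : ℝ) / (4 * n - 7)) atTop (𝓝 1) := by
  have h1 : Tendsto (fun n : ℕ => 4 / (4 - 7 * (1 / (n : ℝ)))) atTop (𝓝 (4 / (4 - 7 * 0))) :=
    tendsto_const_nhds.div ((Pool.Agent.KL.tendsto_inv_n.const_mul 7).const_sub 4) (by norm_num)
  have h2 : (4 / (4 - 7 * 0) : ℝ) = 1 := by norm_num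
  rw [h2] at h1
  refine h1.congr' ?_
  filter_upwards [eventually_ge_atTop 2] with n hn
  have h0 : (2 : ℝ) ≤ n := by exact_mod_cast hn
  have h3 : (4 * n - 7 : ℝ) ≠ 0 := by linarith
  have h4 : (n : ℝ) ≠ 0 := by linarith
  have h5 : (4 - 7 * (1 / (n : ℝ))) ≠ 0 := by
    have : 4 - 7 * (1 / (n : ℝ)) = (4 * n - 7) / n := by field_simp
    rw [this]
    exact div_ne_zero h3 h4
  rw [div_eq_div_iff h5 h3]
  field_simp

/-- **The upper half.** -/
theorem upper {d : ℝ} (hd : 0 < d) : ∀ᶠ N : ℕ in atTop,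
    ∃ (F : EuclideanSpace ℝ (Fin N) → ℝ) (r : ℝ), Adm N F r ∧ val N F r ≤ (1 / π ^ 2 + d) * N := by
  obtain ⟨A, B, D, C, n0, hB, H⟩ := testAt
  set B' : ℝ := 20 ^ 7 * B with hB'
  have hB'0 : 0 < B' := by positivity
  have t1 := Pool.Agent.KL.tendsto_radius A
  have t2 := Pool.Agent.KL.tendsto_ratio hB'0 (C + 7) D
  have t3 := (t1.mul t2).mul tendsto_frac
  have h2 : (1 / π) * (1 / π) * 1 = 1 / π ^ 2 := by ring
  rw [h2] at t3
  have hpi3 : 3 < π := Real.pi_gt_three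
  have hpi1 : 1 / π < 1 := by
    rw [div_lt_one Real.pi_pos]; linarith
  have hpi0 : 0 < 1 / π := by positivity
  obtain ⟨n1, hn1⟩ := eventually_atTop.1
    ((t3.eventually_lt_const (show 1 / π ^ 2 < 1 / π ^ 2 + d by linarith)).and
    ((t1.eventually_lt_const hpi1).and ((t1.eventually_const_lt hpi0).and
    (t2.eventually_lt_const hpi1))))
  filter_upwards [eventually_ge_atTop (4 * (n0 + n1) + 16)] with N hN
  obtain ⟨j, k, hk, hjk⟩ : ∃ j k : ℕ, k ≤ 7 ∧ 4 * (2 * j) = N + k :=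
    ⟨(N + 7) / 8, 8 * ((N + 7) / 8) - N, by omega, by omega⟩
  set n : ℕ := 2 * j with hn
  have hnn0 : n0 ≤ n := by omega
  have hnn1 : n1 ≤ n := by omega
  have hn4 : 4 ≤ n := by omega
  have hnR : (4 : ℝ) ≤ n := by exact_mod_cast hn4
  obtain ⟨e1, e2, e3, e4⟩ := hn1 n hnn1
  set R : ℝ := 2 / Real.sin (π / (2 * n)) + A * √n * (1 + Real.log n) with hR
  set x : ℝ := B' * (n : ℝ) ^ (C + 7) * Real.exp (D * √n) / π ^ (2 * n) with hx
  have hx0 : 0 < x := by positivity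
  have h4n : (0 : ℝ) < 4 * n := by positivity
  have hR0 : 0 < R := by
    rcases lt_or_ge 0 R with h | h
    · exact h
    · have := div_nonpos_of_nonpos_of_nonneg h h4n.le
      linarith
  have hR4 : R < 4 * n := by rwa [div_lt_one h4n] at e2
  have hx1 : x < 1 := by
    by_contra hge
    push Not at hge
    have := Real.one_le_rpow hge (show (0 : ℝ) ≤ 2 / (4 * n) by positivity)
    linarith
  have htest := H n hnn0 (even_two_mul j) hR0
  rw [hjk] at htest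
  obtain ⟨F, hF, hFq⟩ := htest
  obtain ⟨F', hF', hq'⟩ := adm_steps k hF one_pos
  refine ⟨F', √R, hF', ?_⟩
  have hNR : (0 : ℝ) < N := by exact_mod_cast (by omega : 0 < N)
  have hN4 : (4 * n : ℝ) = N + k := by exact_mod_cast hjk
  have hk7 : (k : ℝ) ≤ 7 := by exact_mod_cast hk
  have hk0 : (0 : ℝ) ≤ k := Nat.cast_nonneg k
  have hF0 := hF.zero_nonneg
  have hF'0 := hF'.zero_nonneg
  have hFi := hF.2.2.2.2
  have hF'i := hF'.2.2.2.2
  -- the ratio is at most x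
  have hyx : F' 0 / (∫ z, F' z) ≤ x := by
    refine hq'.trans ?_
    have hsR : 0 < √R := Real.sqrt_pos.2 hR0
    have h5 : √R ≤ 5 * n := by
      have h6 : √R ≤ 1 + R := by
        rw [Real.sqrt_le_left (by linarith)]
        nlinarith
      linarith
    have h6 : ((1 + 1) * (2 * √R)) ^ k ≤ (20 * n) ^ 7 := by
      calc ((1 + 1) * (2 * √R)) ^ k ≤ (20 * n : ℝ) ^ k :=
            pow_le_pow_left₀ (by positivity) (by linarith) k
        _ ≤ (20 * n) ^ 7 := pow_le_pow_right₀ (by linarith) hk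
    have h8 : 0 ≤ F 0 / ∫ z, F z := by positivity
    calc ((1 + 1) * (2 * √R)) ^ k * (F 0 / ∫ z, F z) ≤ (20 * n) ^ 7 *
          (B * (n : ℝ) ^ C * Real.exp (D * √n) / π ^ (2 * n)) :=
          mul_le_mul h6 hFq h8 (by positivity)
      _ = x := by
          rw [hx, hB']
          ring
  have hy0 : 0 ≤ F' 0 / (∫ z, F' z) := by positivity
  have h9 : (F' 0 / (∫ z, F' z)) ^ ((2 : ℝ) / N) ≤ x ^ ((2 : ℝ) / (4 * n)) := by
    refine (Real.rpow_le_rpow hy0 hyx (by positivity)).trans ?_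
    refine Real.rpow_le_rpow_of_exponent_ge hx0 hx1.le ?_
    refine div_le_div_of_nonneg_left (by norm_num) hNR (by linarith)
  unfold val
  rw [Real.sq_sqrt hR0.le]
  have h10 : 0 < x ^ ((2 : ℝ) / (4 * n)) := Real.rpow_pos_of_pos hx0 _
  have h11 : (0 : ℝ) < 4 * n - 7 := by linarith
  have h12 : R * x ^ ((2 : ℝ) / (4 * n)) ≤ (1 / π ^ 2 + d) * (4 * n - 7) := by
    have h13 : R / (4 * n) * x ^ ((2 : ℝ) / (4 * n)) * (4 * n / (4 * n - 7)) =
        R * x ^ ((2 : ℝ) / (4 * n)) / (4 * n - 7) := by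
      field_simp
    rw [h13, div_lt_iff₀ h11] at e1
    exact e1.le
  calc R * (F' 0 / (∫ z, F' z)) ^ ((2 : ℝ) / N) ≤ R * x ^ ((2 : ℝ) / (4 * n)) :=
        mul_le_mul_of_nonneg_left h9 hR0.le
    _ ≤ (1 / π ^ 2 + d) * (4 * n - 7) := h12
    _ ≤ (1 / π ^ 2 + d) * N := by
        refine mul_le_mul_of_nonneg_left (by linarith) (by positivity)

/-- There are admissible functions in every dimension. -/
theorem exists_adm (N : ℕ) : ∃ (F : EuclideanSpace ℝ (Fin N) → ℝ) (r : ℝ), Adm N F r := by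
  obtain ⟨M0, h⟩ := eventually_atTop.1 (upper one_pos)
  obtain ⟨F, r, hF, -⟩ := h (N + M0) (by omega)
  obtain ⟨F', hF', -⟩ := adm_steps M0 hF one_pos
  exact ⟨F', r, hF'⟩

theorem bddBelow_val (N : ℕ) : BddBelow {t : ℝ | ∃ (F : EuclideanSpace ℝ (Fin N) → ℝ) (r : ℝ),
    Adm N F r ∧ t = val N F r} := by
  refine ⟨0, ?_⟩
  rintro _ ⟨F, r, h, rfl⟩
  exact h.val_nonneg

theorem lp_le {N : ℕ} {F : EuclideanSpace ℝ (Fin N) → ℝ} {r : ℝ} (h : Adm N F r) :
    lp N ≤ val N F r := csInf_le (bddBelow_val N) ⟨F, r, h, rfl⟩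

theorem le_lp {N : ℕ} {a : ℝ}
    (h : ∀ (F : EuclideanSpace ℝ (Fin N) → ℝ) (r : ℝ), Adm N F r → a ≤ val N F r) : a ≤ lp N := by
  obtain ⟨F, r, hF⟩ := exists_adm N
  refine le_csInf ⟨_, F, r, hF, rfl⟩ ?_
  rintro _ ⟨F, r, hF, rfl⟩
  exact h F r hF

/-- **Assembly**: the linear programming bound is `N / π² (1 + o(1))`. -/
theorem lpx8 :
    Tendsto (fun N : ℕ => lp N / N) atTop (𝓝 (1 / π ^ 2)) := by
  rw [Metric.tendsto_atTop']
  intro ε hε
  obtain ⟨N1, hN1⟩ := eventually_atTop.1 (lpx6 (ε / 2) (half_pos hε))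
  obtain ⟨N2, hN2⟩ := eventually_atTop.1 (upper (half_pos hε))
  refine ⟨N1 + N2, fun N hN => ?_⟩
  have hNR : (0 : ℝ) < N := by exact_mod_cast (by omega : 0 < N)
  have h1 : (1 / π ^ 2 - ε / 2) * N ≤ lp N := le_lp (hN1 N (by omega))
  obtain ⟨F, r, hF, hv⟩ := hN2 N (by omega)
  have h2 := (lp_le hF).trans hv
  rw [← le_div_iff₀ hNR] at h1
  rw [← div_le_iff₀ hNR] at h2
  rw [Real.dist_eq, abs_lt]
  constructor <;> linarith

/-- The Cohn-Elkies bound: every admissible function bounds Hermite's constant. -/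
theorem gamma_le_val {N : ℕ} (hN : 0 < N) {F : EuclideanSpace ℝ (Fin N) → ℝ} {r : ℝ}
    (h : Adm N F r) : gamma N ≤ val N F r := by
  obtain ⟨hr, hi, ⟨ν, hν, hF⟩, hneg, hpos⟩ := h
  have hmp : MeasurePreserving (WithLp.toLp 2 : (Fin N → ℝ) → EuclideanSpace ℝ (Fin N)) :=
    PiLp.volume_preserving_toLp (Fin N)
  have hemb : MeasurableEmbedding (WithLp.toLp 2 : (Fin N → ℝ) → EuclideanSpace ℝ (Fin N)) :=
    (MeasurableEquiv.toLp 2 (Fin N → ℝ)).measurableEmbedding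
  have hint : ∫ z : Fin N → ℝ, F (WithLp.toLp 2 z) = ∫ x, F x := hmp.integral_comp hemb F
  have h1 := Pool.Agent.KL.lp (N := N) hN (F := fun z => F (WithLp.toLp 2 z)) ?_
    (hmp.integrable_comp_of_integrable hi) (by rw [hint]; exact hpos) (R := r ^ 2) (by positivity) ?_
  · rw [hint] at h1
    exact h1
  · refine ⟨ν.map WithLp.ofLp, ?_, fun z => ?_⟩
    · have hm : Measurable (WithLp.ofLp : EuclideanSpace ℝ (Fin N) → (Fin N → ℝ)) :=
        (MeasurableEquiv.toLp 2 (Fin N → ℝ)).symm.measurable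
      exact Measure.isFiniteMeasure_map ν _
    · have hm : Measurable (WithLp.ofLp : EuclideanSpace ℝ (Fin N) → (Fin N → ℝ)) :=
        (MeasurableEquiv.toLp 2 (Fin N → ℝ)).symm.measurable
      rw [integral_map hm.aemeasurable]
      · beta_reduce
        rw [hF]
        refine integral_congr_ae (ae_of_all _ fun ξ => ?_)
        have h2 : (inner ℝ (WithLp.toLp 2 z : EuclideanSpace ℝ (Fin N)) ξ : ℝ) =
            ∑ i, ξ i * z i := by
          rw [EuclideanSpace.inner_eq_star_dotProduct]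
          simp [dotProduct]
        simp only [h2]
      · exact (by fun_prop : Continuous fun w : Fin N → ℝ =>
          Real.cos (∑ i, w i * z i)).aestronglyMeasurable
  · intro z hz
    refine hneg _ ?_
    have h2 : ‖(WithLp.toLp 2 z : EuclideanSpace ℝ (Fin N))‖ ^ 2 = ∑ i, z i ^ 2 := by
      rw [EuclideanSpace.norm_sq_eq]
      simp
    rw [← h2] at hz
    exact le_of_sq_le_sq hz (norm_nonneg _)

theorem gamma_le_lp {N : ℕ} (hN : 0 < N) : gamma N ≤ lp N :=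
  le_lp fun _ _ h => gamma_le_val hN h

end Pool.Agent.LPX
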