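import Mathlib

/-!
LPX project: the linear programming (Cohn-Elkies) bound in dimension `N`.
-/

namespace Pool.Agent.LPX

open MeasureTheory Filter Topology
open scoped Real

noncomputable section

/-- The pair `(F, r)` is admissible for the linear programming bound in dimension `N`: `r > 0`, `F` is an
integrable function on `ℝᴺ` of positive type (the cosine transform of a finite measure), `F x ≤ 0` for
`‖x‖ ≥ r`, and `∫ F > 0`. -/
def Adm (N : ℕ) (F : EuclideanSpace ℝ (Fin N) → ℝ) (r : ℝ) : Prop :=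
  0 < r ∧ Integrable F ∧
    (∃ ν : Measure (EuclideanSpace ℝ (Fin N)), IsFiniteMeasure ν ∧
      ∀ x, F x = ∫ ξ, Real.cos (inner ℝ x ξ) ∂ν) ∧
    (∀ x, r ≤ ‖x‖ → F x ≤ 0) ∧ 0 < ∫ x, F x

/-- The value of an admissible pair, in the normalisation of Hermite's constant. -/
def val (N : ℕ) (F : EuclideanSpace ℝ (Fin N) → ℝ) (r : ℝ) : ℝ :=
  r ^ 2 * (F 0 / ∫ x, F x) ^ ((2 : ℝ) / N)

/-- The linear programming bound in dimension `N`, in the normalisation of Hermite's constant. -/
def lp (N : ℕ) : ℝ :=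
  sInf {t : ℝ | ∃ (F : EuclideanSpace ℝ (Fin N) → ℝ) (r : ℝ), Adm N F r ∧ t = val N F r}

end

end Pool.Agent.LPX
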