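import Pool.Agent.Lib.LPX.RateLow

/-!
LPX project: the robust form of the barrier. The condition `F ≤ 0` outside the ball is weakened to:
the positive part of `F` has, outside the ball, at most half of the integral of `F`.
-/

set_option autoImplicit false

namespace Pool.Agent.LPX

open MeasureTheory Filter Topology Set Complex
open scoped Real

/-- Twice the positive part. -/
lemma two_pos_part {g : ℝ → ℝ} (hi : Integrable g) (h0 : ∀ u ≤ 0, g u = 0) {R : ℝ} (hR : 0 < R) :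
    (∫ u, ‖g u‖) + ∫ u, g u ≤ 2 * ((∫ u in Ioc 0 R, |g u|) + ∫ u in Ioi R, max (g u) 0) := by
  have hm : Integrable fun u => max (g u) 0 := hi.pos_part
  have h1 : ∀ u, ‖g u‖ + g u ≤ 2 * ((Ioc 0 R).indicator (fun u => |g u|) u +
      (Ioi R).indicator (fun u => max (g u) 0) u) := by
    intro u
    rw [Real.norm_eq_abs]
    by_cases hu : u ∈ Ioc 0 R
    · rw [indicator_of_mem hu, indicator_of_notMem (by simpa using hu.2)]
      have := le_abs_self (g u)
      linarith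
    · rw [indicator_of_notMem hu]
      rcases le_or_gt u 0 with h | h
      · rw [h0 u h, indicator_of_notMem (by simp; linarith)]; simp
      · have h2 : u ∈ Ioi R := by
          by_contra h3
          exact hu ⟨h, not_lt.1 h3⟩
        rw [indicator_of_mem h2]
        rcases le_or_gt 0 (g u) with h3 | h3
        · rw [max_eq_left h3, abs_of_nonneg h3]; linarith
        · rw [max_eq_right h3.le, abs_of_neg h3]; linarith
  have h2 : ∫ u, (‖g u‖ + g u) ≤ ∫ u, 2 * ((Ioc 0 R).indicator (fun u => |g u|) u +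
      (Ioi R).indicator (fun u => max (g u) 0) u) := by
    refine integral_mono (hi.norm.add hi) ?_ h1
    exact (((hi.abs.indicator measurableSet_Ioc).add (hm.indicator measurableSet_Ioi)).const_mul 2)
  rwa [integral_add hi.norm hi, integral_const_mul,
    integral_add (hi.abs.indicator measurableSet_Ioc) (hm.indicator measurableSet_Ioi),
    integral_indicator measurableSet_Ioc, integral_indicator measurableSet_Ioi] at h2

/-- At least half of the mass of `g` sits in `[0, R]`. -/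
lemma half_mass' {g : ℝ → ℝ} (hi : Integrable g) (h0 : ∀ u ≤ 0, g u = 0) {R : ℝ} (hR : 0 < R)
    (hpart : ∫ u in Ioi R, max (g u) 0 ≤ (∫ u, g u) / 2) :
    1 / 2 * (∫ u, ‖g u‖) ≤ ∫ u in Ioc 0 R, |g u| := by
  have := two_pos_part hi h0 hR
  linarith

/-- A fixed part of the mass of `g` sits in `[0, R]`. -/
lemma part_mass {g : ℝ → ℝ} (hi : Integrable g) (h0 : ∀ u ≤ 0, g u = 0) {R : ℝ} (hR : 0 < R)
    {τ : ℝ} (hτ0 : 0 ≤ τ) (hτ : τ ≤ 1) (hI : 0 ≤ ∫ u, g u)
    (hpart : ∫ u in Ioi R, max (g u) 0 ≤ τ * ∫ u, g u) :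
    (1 - τ) / 2 * (∫ u, ‖g u‖) ≤ ∫ u in Ioc 0 R, |g u| := by
  have h1 := two_pos_part hi h0 hR
  have h2 : ∫ u, g u ≤ ∫ u, ‖g u‖ := integral_mono hi hi.norm fun u => le_abs_self _
  rcases le_total τ (1 / 2) with h3 | h3
  · have h4 : 0 ≤ (1 - 2 * τ) * ∫ u, g u := mul_nonneg (by linarith) hI
    have h5 : 0 ≤ τ * ∫ u, ‖g u‖ := mul_nonneg hτ0 (hI.trans h2)
    linarith
  · have h4 : (2 * τ - 1) * ∫ u, g u ≤ (2 * τ - 1) * ∫ u, ‖g u‖ :=
      mul_le_mul_of_nonneg_left h2 (by linarith)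
    have h5 : 0 ≤ (1 - τ) * ∫ u, ‖g u‖ := mul_nonneg (by linarith) (hI.trans h2)
    linarith

/-- The barrier, abstract form, from the mass hypothesis. -/
theorem barrier_half {g : ℝ → ℝ} (hc : Continuous g) (hi : Integrable g) (h0 : ∀ u ≤ 0, g u = 0)
    {R : ℝ} (hR : 0 < R) {c₀ : ℝ}
    (hhalf : c₀ * (∫ u, ‖g u‖) ≤ ∫ u in Ioc 0 R, |g u|) (hpos : 0 < ∫ u, g u)
    {b κ : ℝ} (hb : 0 < b) (hκ : 2 ≤ κ)
    (hg : ∀ z : ℂ, 0 < z.re → ‖Lap g z‖ ≤ (π / ‖z‖) ^ κ * b)
    {B : ℂ → ℂ} {S m : ℝ} (hSκ : S ≤ κ) (hm0 : 0 ≤ m)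
    (hPL : ∀ L1 : ℂ → ℂ, DifferentiableOn ℂ L1 {z | 0 < z.re} → (∀ z : ℂ, 0 < z.re → ‖L1 z‖ ≤ 1) →
      (∀ z : ℂ, 0 < z.re → ‖L1 z‖ ≤ ‖z‖ ^ (-κ)) → ∀ ε : ℝ, 0 < ε → ∀ z : ℂ, 0 ≤ z.re →
        ‖L1 (z + ε)‖ * ‖B z‖ ≤ √2)
    (hB : ∀ x : ℝ, 0 ≤ x → ∀ y : ℝ, Real.exp (S * x - m * x ^ 2) ≤ ‖B (x + y * I)‖)
    {s ε : ℝ} (hs : 0 < s) (hε : 0 < ε) :
    2 * c₀ * (π / 5) * Real.exp ((S - 1) * s - m * s ^ 2) ≤
      (π * R * (b / ∫ u, ‖g u‖) ^ (1 / κ)) *
        Real.exp ((s + ε) * (π * R * (b / ∫ u, ‖g u‖) ^ (1 / κ))) := by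
  set a : ℝ := ∫ u, ‖g u‖ with ha
  have hapos : 0 < a := lt_of_lt_of_le hpos (integral_mono hi hi.norm fun u => le_abs_self _)
  set θ : ℝ := π * (b / a) ^ (1 / κ) with hθ
  have hθ0 : 0 < θ := by positivity
  have hκ0 : 0 < κ := by linarith
  set L1 : ℂ → ℂ := fun z => Lap g (θ * z) / a with hL1
  have hre : ∀ z : ℂ, ((θ : ℂ) * z).re = θ * z.re := fun z => by simp
  have hpos' : ∀ z : ℂ, 0 < z.re → 0 < ((θ : ℂ) * z).re := fun z hz => by
    rw [hre]; exact mul_pos hθ0 hz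
  have hd : DifferentiableOn ℂ L1 {z | 0 < z.re} := by
    refine DifferentiableOn.div_const ?_ _
    refine (lap_differentiableOn hi h0).comp (f := fun z : ℂ => (θ : ℂ) * z) (by fun_prop) ?_
    intro z hz
    exact hpos' z hz
  have hA : ∀ z : ℂ, 0 < z.re → ‖L1 z‖ ≤ 1 := by
    intro z hz
    rw [hL1]
    simp only [norm_div, Complex.norm_real, Real.norm_eq_abs, abs_of_pos hapos]
    rw [div_le_one hapos]
    exact norm_lap_le hi h0 (hpos' z hz).le
  have hθκ : (π / θ) ^ κ * b / a = 1 := by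
    have h1 : π / θ = ((b / a) ^ (1 / κ))⁻¹ := by
      rw [hθ]
      field_simp
    rw [h1, Real.inv_rpow (by positivity), ← Real.rpow_mul (by positivity),
      one_div_mul_cancel hκ0.ne', Real.rpow_one]
    field_simp
  have hA2 : ∀ z : ℂ, 0 < z.re → ‖L1 z‖ ≤ ‖z‖ ^ (-κ) := by
    intro z hz
    have hz0 : 0 < ‖z‖ := norm_pos_iff.2 fun h => by rw [h] at hz; simp at hz
    have h1 := hg _ (hpos' z hz)
    rw [hL1]
    simp only [norm_div, Complex.norm_real, Real.norm_eq_abs, abs_of_pos hapos]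
    rw [norm_mul, Complex.norm_real, Real.norm_eq_abs, abs_of_pos hθ0] at h1
    calc ‖Lap g (θ * z)‖ / a ≤ (π / (θ * ‖z‖)) ^ κ * b / a := by gcongr
      _ = ((π / θ) ^ κ * b / a) * ‖z‖ ^ (-κ) := by
          rw [← div_div, Real.div_rpow (by positivity) hz0.le, Real.rpow_neg hz0.le]
          ring
      _ = ‖z‖ ^ (-κ) := by rw [hθκ, one_mul]
  have hPL' := hPL L1 hd hA hA2 ε hε
  -- the integrand on the vertical line
  set E : ℝ → ℂ := fun t => L1 (((s : ℂ) + t * I) + ε) with hE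
  have hsε : ∀ t : ℝ, (((s : ℂ) + t * I) + ε).re = s + ε := fun t => by simp
  have hEc : Continuous E := by
    rw [continuous_iff_continuousAt]
    intro t
    have h1 : DifferentiableAt ℂ L1 (((s : ℂ) + t * I) + ε) := by
      refine hd.differentiableAt ?_
      refine (isOpen_lt continuous_const Complex.continuous_re).mem_nhds ?_
      show 0 < (((s : ℂ) + t * I) + ε).re
      rw [hsε]
      linarith
    exact ContinuousAt.comp (f := fun t : ℝ => ((s : ℂ) + t * I) + ε) h1.continuousAt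
      (by fun_prop)
  set K : ℝ := √2 * Real.exp (-(S * s - m * s ^ 2)) with hK
  have hE1 : ∀ t, ‖E t‖ ≤ K := by
    intro t
    have h1 := hPL' ((s : ℂ) + t * I) (by simp [hs.le])
    have h2 := hB s hs.le t
    have h3 : ‖E t‖ * Real.exp (S * s - m * s ^ 2) ≤ √2 :=
      (mul_le_mul_of_nonneg_left h2 (norm_nonneg _)).trans h1
    rw [hK, Real.exp_neg, ← div_eq_mul_inv, le_div_iff₀ (Real.exp_pos _)]
    exact h3
  have hE2 : ∀ t, t ≠ 0 → ‖E t‖ ≤ |t| ^ (-κ) := by
    intro t ht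
    have h1 := hA2 (((s : ℂ) + t * I) + ε) (by rw [hsε]; linarith)
    refine h1.trans ?_
    refine Real.rpow_le_rpow_of_nonpos (abs_pos.2 ht) ?_ (by linarith)
    have h2 := Complex.abs_im_le_norm (((s : ℂ) + t * I) + ε)
    simpa using h2
  obtain ⟨hEi, hJ⟩ := jbound hEc.aestronglyMeasurable (T := Real.exp s) (by linarith)
    (Real.exp_pos s) hE1 hE2
  -- the bound for J
  have hJ2 : ∫ t, ‖E t‖ ≤ 5 * Real.exp (s - (S * s - m * s ^ 2)) := by
    refine hJ.trans ?_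
    have h1 : Real.exp s ^ (1 - κ) ≤ Real.exp (s - (S * s - m * s ^ 2)) := by
      rw [← Real.exp_mul]
      refine Real.exp_le_exp.2 ?_
      nlinarith [mul_le_mul_of_nonneg_left hSκ hs.le, mul_nonneg hm0 (sq_nonneg s)]
    have h2 : Real.exp s ^ (1 - κ) / (κ - 1) ≤ Real.exp (s - (S * s - m * s ^ 2)) := by
      refine le_trans ?_ h1
      exact div_le_self (by positivity) (by linarith)
    have h3 : Real.exp s * K = √2 * Real.exp (s - (S * s - m * s ^ 2)) := by
      rw [hK, sub_eq_add_neg s, Real.exp_add]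
      ring
    rw [h3]
    have h4 : √2 ≤ 1.5 := by
      rw [Real.sqrt_le_left (by norm_num)]
      norm_num
    have h5 := Real.exp_pos (s - (S * s - m * s ^ 2))
    nlinarith
  -- inversion
  set c : ℝ := θ * (s + ε) with hcdef
  have hc0 : 0 < c := by positivity
  have hcy : ∀ y : ℝ, (∫ v : ℝ, (g v : ℂ) * cexp (-((c : ℂ) + y * I) * v)) = a * E (θ⁻¹ * y) := by
    intro y
    have h1 : (θ : ℂ) * ((((s : ℂ) + ((θ⁻¹ * y : ℝ) : ℂ) * I)) + ε) = (c : ℂ) + y * I := by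
      rw [hcdef]
      push_cast
      have : (θ : ℂ) ≠ 0 := by exact_mod_cast hθ0.ne'
      field_simp
      ring
    rw [hE]
    simp only [hL1]
    rw [h1, mul_div_cancel₀ _ (by exact_mod_cast hapos.ne')]
    rfl
  have hLi : Integrable fun y : ℝ => ∫ v : ℝ, (g v : ℂ) * cexp (-((c : ℂ) + y * I) * v) := by
    simp_rw [hcy]
    exact (hEi.comp_mul_left' (inv_ne_zero hθ0.ne')).const_mul _
  have hLJ : ∫ y : ℝ, ‖∫ v : ℝ, (g v : ℂ) * cexp (-((c : ℂ) + y * I) * v)‖ =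
      a * θ * ∫ t, ‖E t‖ := by
    simp_rw [hcy, norm_mul, Complex.norm_real, Real.norm_eq_abs, abs_of_pos hapos]
    rw [integral_const_mul, Measure.integral_comp_mul_left (fun t : ℝ => ‖E t‖) θ⁻¹, inv_inv,
      abs_of_pos hθ0, smul_eq_mul]
    exact (mul_assoc a θ _).symm
  have hpt : ∀ u ∈ Ioc 0 R, |g u| ≤
      Real.exp (c * R) / (2 * π) * (a * θ * (5 * Real.exp (s - (S * s - m * s ^ 2)))) := by
    intro u hu
    have h1 := laplace_inv hc hi h0 hc0 hLi u
    rw [hLJ] at h1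
    refine h1.trans ?_
    have h2 : Real.exp (c * u) ≤ Real.exp (c * R) :=
      Real.exp_le_exp.2 (mul_le_mul_of_nonneg_left hu.2 hc0.le)
    have h3 : 0 ≤ ∫ t, ‖E t‖ := integral_nonneg fun _ => norm_nonneg _
    gcongr
  have hint : ∫ u in Ioc 0 R, |g u| ≤
      R * (Real.exp (c * R) / (2 * π) * (a * θ * (5 * Real.exp (s - (S * s - m * s ^ 2))))) := by
    calc ∫ u in Ioc 0 R, |g u| ≤ ∫ _u in Ioc 0 R,
          (Real.exp (c * R) / (2 * π) * (a * θ * (5 * Real.exp (s - (S * s - m * s ^ 2))))) := by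
          refine setIntegral_mono_on hi.abs.integrableOn
            (integrableOn_const (by simp) enorm_ne_top) measurableSet_Ioc hpt
      _ = _ := by simp [hR.le]
  have hfin := hhalf.trans hint
  have hX : π * R * (b / a) ^ (1 / κ) = θ * R := by rw [hθ]; ring
  rw [hX]
  have hcR : c * R = (s + ε) * (θ * R) := by rw [hcdef]; ring
  rw [hcR] at hfin
  have he1 : Real.exp ((S - 1) * s - m * s ^ 2) * Real.exp (s - (S * s - m * s ^ 2)) = 
      Real.exp (-0) := by
    rw [← Real.exp_add]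
    congr 1
    ring
  rw [neg_zero, Real.exp_zero] at he1
  have he2 := Real.exp_pos (s - (S * s - m * s ^ 2))
  set P := Real.exp ((S - 1) * s - m * s ^ 2) with hP
  set Q := Real.exp (s - (S * s - m * s ^ 2)) with hQ
  set Z := Real.exp ((s + ε) * (θ * R)) with hZ
  have hfin2 : c₀ * a ≤ a * (5 / (2 * π) * (θ * R * Z) * Q) := by
    refine hfin.trans (le_of_eq ?_)
    field_simp
  have hfin3 : c₀ ≤ 5 / (2 * π) * (θ * R * Z) * Q := by
    have : a * c₀ ≤ a * (5 / (2 * π) * (θ * R * Z) * Q) := by linarith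
    exact le_of_mul_le_mul_left this hapos
  have hPpos : 0 < P := Real.exp_pos _
  have h6 : P * c₀ ≤ 5 / (2 * π) * (θ * R * Z) := by
    calc P * c₀ ≤ P * (5 / (2 * π) * (θ * R * Z) * Q) :=
          mul_le_mul_of_nonneg_left hfin3 hPpos.le
      _ = 5 / (2 * π) * (θ * R * Z) * (P * Q) := by ring
      _ = _ := by rw [he1, mul_one]
  have h7 : 2 * c₀ * (π / 5) * P = (2 * π / 5) * (P * c₀) := by ring
  rw [h7]
  calc (2 * π / 5) * (P * c₀) ≤ (2 * π / 5) * (5 / (2 * π) * (θ * R * Z)) :=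
        mul_le_mul_of_nonneg_left h6 (by positivity)
    _ = θ * R * Z := by field_simp


section radial

open Metric

variable {N : ℕ}

lemma rdens_zero (hN : 3 ≤ N) (F : EuclideanSpace ℝ (Fin N) → ℝ) {u : ℝ} (hu : u ≤ 0) :
    rdens F u = 0 := by
  rw [rdens, Real.sqrt_eq_zero_of_nonpos hu, zero_pow (by omega)]
  ring

lemma rdens_sq (hN : 3 ≤ N) (F : EuclideanSpace ℝ (Fin N) → ℝ) {ρ : ℝ} (hρ : 0 < ρ) :
    ρ ^ (N - 1) * sph F ρ = 2 * ρ * rdens F (ρ ^ 2) := by
  rw [rdens, Real.sqrt_sq hρ.le, show N - 1 = (N - 2) + 1 by omega, pow_succ]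
  ring

lemma rdens_integrable (hN : 3 ≤ N) {F : EuclideanSpace ℝ (Fin N) → ℝ} (hi : Integrable F) :
    Integrable (rdens F) := by
  have : Nonempty (Fin N) := ⟨⟨0, by omega⟩⟩
  have hdim : Module.finrank ℝ (EuclideanSpace ℝ (Fin N)) - 1 = N - 1 := by
    rw [finrank_euclideanSpace_fin]
  have h1 := (polar (volume : Measure (EuclideanSpace ℝ (Fin N))) hi).1
  rw [hdim] at h1
  have h2 : IntegrableOn (fun ρ : ℝ => (|(2 : ℝ)| * ρ ^ ((2 : ℝ) - 1)) • rdens F (ρ ^ (2 : ℝ)))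
      (Ioi 0) := by
    refine h1.congr_fun (fun ρ hρ => ?_) measurableSet_Ioi
    have hρ : 0 < ρ := hρ
    simp only [smul_eq_mul]
    rw [abs_of_pos two_pos, show (2 : ℝ) - 1 = 1 by norm_num, Real.rpow_one, Real.rpow_two,
      ← rdens_sq hN F hρ]
    rfl
  rw [integrableOn_Ioi_comp_rpow_iff _ (two_ne_zero (α := ℝ))] at h2
  rw [← integrableOn_univ]
  exact h2.of_forall_sdiff_eq_zero MeasurableSet.univ fun x hx => rdens_zero hN F (by
    simpa using hx.2)

/-- The integral over the complement of a ball in the variable `u = ‖x‖²`. -/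
lemma rdens_outside (hN : 3 ≤ N) {F : EuclideanSpace ℝ (Fin N) → ℝ} (hi : Integrable F) {r : ℝ}
    (hr : 0 < r) : ∫ u in Ioi (r ^ 2), rdens F u = ∫ x in {x | r < ‖x‖}, F x := by
  have : Nonempty (Fin N) := ⟨⟨0, by omega⟩⟩
  have hdim : Module.finrank ℝ (EuclideanSpace ℝ (Fin N)) - 1 = N - 1 := by
    rw [finrank_euclideanSpace_fin]
  have hS : MeasurableSet {x : EuclideanSpace ℝ (Fin N) | r < ‖x‖} :=
    (isOpen_lt continuous_const continuous_norm).measurableSet
  set f : EuclideanSpace ℝ (Fin N) → ℝ := {x | r < ‖x‖}.indicator F with hf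
  have hfi : Integrable f := hi.indicator hS
  have h1 := (polar (volume : Measure (EuclideanSpace ℝ (Fin N))) hfi).2
  rw [hdim, integral_indicator hS] at h1
  rw [h1]
  have h2 : ∫ u in Ioi (r ^ 2), rdens F u = ∫ u in Ioi (0 : ℝ), (Ioi (r ^ 2)).indicator (rdens F) u := by
    rw [integral_indicator measurableSet_Ioi, Measure.restrict_restrict measurableSet_Ioi,
      inter_eq_left.2 (Ioi_subset_Ioi (by positivity))]
  rw [h2, ← integral_comp_rpow_Ioi ((Ioi (r ^ 2)).indicator (rdens F)) (two_ne_zero (α := ℝ))]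
  refine setIntegral_congr_fun measurableSet_Ioi fun ρ hρ => ?_
  have hρ : 0 < ρ := hρ
  simp only [smul_eq_mul]
  rw [abs_of_pos two_pos, show (2 : ℝ) - 1 = 1 by norm_num, Real.rpow_one, Real.rpow_two]
  have hω : ∀ ω : sphere (0 : EuclideanSpace ℝ (Fin N)) 1,
      ‖ρ • (ω : EuclideanSpace ℝ (Fin N))‖ = ρ := by
    intro ω
    have : ‖(ω : EuclideanSpace ℝ (Fin N))‖ = 1 := by simp
    rw [norm_smul, this, mul_one, Real.norm_eq_abs, abs_of_pos hρ]
  by_cases h : r < ρ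
  · have h3 : r ^ 2 < ρ ^ 2 := by
      have := hr.le
      gcongr
    rw [indicator_of_mem (show ρ ^ 2 ∈ Ioi (r ^ 2) from h3), ← rdens_sq hN F hρ]
    congr 1
    refine integral_congr_ae (ae_of_all _ fun ω => ?_)
    simp only [hf]
    rw [indicator_of_mem]
    show r < ‖ρ • (ω : EuclideanSpace ℝ (Fin N))‖
    rw [hω]
    exact h
  · have h3 : ¬ r ^ 2 < ρ ^ 2 := by
      rw [not_lt] at h ⊢
      have := hρ.le
      gcongr
    rw [indicator_of_notMem (show ρ ^ 2 ∉ Ioi (r ^ 2) from h3), mul_zero]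
    have h4 : ∀ ω : sphere (0 : EuclideanSpace ℝ (Fin N)) 1,
        f (ρ • (ω : EuclideanSpace ℝ (Fin N))) = 0 := by
      intro ω
      rw [hf, indicator_of_notMem]
      show ¬ r < ‖ρ • (ω : EuclideanSpace ℝ (Fin N))‖
      rw [hω]
      exact h
    simp only [h4, integral_zero, mul_zero]


/-- The radial density, explicit. -/
theorem rdens_spec (hN : 3 ≤ N) {F : EuclideanSpace ℝ (Fin N) → ℝ} (hF : Continuous F)
    (hb : ∃ C, ∀ x, |F x| ≤ C) (hi : Integrable F) :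
    Continuous (rdens F) ∧
      (∀ l : ℂ, 0 ≤ l.re → ∫ x, (F x : ℂ) * Complex.exp (-l * (‖x‖ : ℂ) ^ 2) =
        ∫ u : ℝ, (rdens F u : ℂ) * Complex.exp (-l * u)) := by
  have : Nonempty (Fin N) := ⟨⟨0, by omega⟩⟩
  have hdim : Module.finrank ℝ (EuclideanSpace ℝ (Fin N)) - 1 = N - 1 := by
    rw [finrank_euclideanSpace_fin]
  refine ⟨?_, ?_⟩
  · have := sph_continuous hF hb
    unfold rdens
    exact ((continuous_const.mul (Real.continuous_sqrt.pow _))).mul
      (this.comp Real.continuous_sqrt)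
  · intro l hl
    have hf : Integrable (fun x : EuclideanSpace ℝ (Fin N) =>
        (F x : ℂ) * Complex.exp (-l * (‖x‖ : ℂ) ^ 2)) := by
      refine (hi.ofReal (𝕜 := ℂ)).mul_bdd (c := 1) ?_ ?_
      · exact (by fun_prop : Continuous fun x : EuclideanSpace ℝ (Fin N) =>
          Complex.exp (-l * (‖x‖ : ℂ) ^ 2)).aestronglyMeasurable
      · refine ae_of_all _ fun x => ?_
        rw [Complex.norm_exp]
        have h1 : (-l * (‖x‖ : ℂ) ^ 2).re = -(l.re * ‖x‖ ^ 2) := by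
          rw [← Complex.ofReal_pow, neg_mul, Complex.neg_re, Complex.re_mul_ofReal]
        rw [h1, Real.exp_le_one_iff]
        have := mul_nonneg hl (sq_nonneg ‖x‖)
        linarith
    rw [(polar (volume : Measure (EuclideanSpace ℝ (Fin N))) hf).2, hdim]
    have h2 : ∫ u : ℝ, (rdens F u : ℂ) * Complex.exp (-l * u) =
        ∫ u in Ioi (0 : ℝ), (rdens F u : ℂ) * Complex.exp (-l * u) := by
      symm
      refine setIntegral_eq_integral_of_forall_compl_eq_zero fun u hu => ?_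
      rw [rdens_zero hN F (by simpa using hu)]
      simp
    rw [h2, ← integral_comp_rpow_Ioi (fun u : ℝ => (rdens F u : ℂ) * Complex.exp (-l * u))
      (two_ne_zero (α := ℝ))]
    refine setIntegral_congr_fun measurableSet_Ioi fun ρ hρ => ?_
    have hρ : 0 < ρ := hρ
    rw [abs_of_pos two_pos, show (2 : ℝ) - 1 = 1 by norm_num, Real.rpow_one, Real.rpow_two]
    have h3 : ∀ ω : sphere (0 : EuclideanSpace ℝ (Fin N)) 1,
        (F (ρ • (ω : EuclideanSpace ℝ (Fin N))) : ℂ) *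
          Complex.exp (-l * (‖ρ • (ω : EuclideanSpace ℝ (Fin N))‖ : ℂ) ^ 2) =
        (F (ρ • (ω : EuclideanSpace ℝ (Fin N))) : ℂ) * Complex.exp (-l * (ρ : ℂ) ^ 2) := by
      intro ω
      have : ‖(ω : EuclideanSpace ℝ (Fin N))‖ = 1 := by simp
      rw [norm_smul, this, mul_one, Real.norm_eq_abs, abs_of_pos hρ]
    simp only [h3]
    have h5 : ∫ ω : sphere (0 : EuclideanSpace ℝ (Fin N)) 1,
        ((F (ρ • (ω : EuclideanSpace ℝ (Fin N))) : ℝ) : ℂ)
          ∂(volume : Measure (EuclideanSpace ℝ (Fin N))).toSphere = ((sph F ρ : ℝ) : ℂ) :=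
      integral_ofReal
    rw [integral_mul_const, h5, Complex.real_smul, Complex.real_smul, ← mul_assoc,
      ← Complex.ofReal_mul, rdens_sq hN F hρ]
    push_cast
    ring

/-- The positive part of the radial density outside a ball. -/
lemma rdens_part (hN : 3 ≤ N) {F : EuclideanSpace ℝ (Fin N) → ℝ} (hF : Continuous F)
    (hb : ∃ C, ∀ x, |F x| ≤ C) (hi : Integrable F) {r : ℝ} (hr : 0 < r) :
    ∫ u in Ioi (r ^ 2), max (rdens F u) 0 ≤ ∫ x in {x | r ≤ ‖x‖}, max (F x) 0 := by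
  obtain ⟨C, hC⟩ := hb
  have hP : Integrable fun x => max (F x) 0 := hi.pos_part
  have hPc : Continuous fun x => max (F x) 0 := hF.max continuous_const
  have hPC : ∀ x, |max (F x) 0| ≤ C := by
    intro x
    rcases le_total 0 (F x) with h | h
    · rw [max_eq_left h]; exact hC x
    · rw [max_eq_right h, abs_zero]; exact (abs_nonneg _).trans (hC x)
  have hsi : ∀ G : EuclideanSpace ℝ (Fin N) → ℝ, Continuous G → (∀ x, |G x| ≤ C) → ∀ ρ : ℝ,
      Integrable (fun ω : sphere (0 : EuclideanSpace ℝ (Fin N)) 1 =>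
        G (ρ • (ω : EuclideanSpace ℝ (Fin N))))
        (volume : Measure (EuclideanSpace ℝ (Fin N))).toSphere := by
    intro G hG hGC ρ
    refine Integrable.of_bound ?_ C (ae_of_all _ fun ω => hGC _)
    exact (hG.comp (by fun_prop : Continuous fun ω : sphere (0 : EuclideanSpace ℝ (Fin N)) 1 =>
      ρ • (ω : EuclideanSpace ℝ (Fin N)))).aestronglyMeasurable
  have h1 : ∀ u, max (rdens F u) 0 ≤ rdens (fun x => max (F x) 0) u := by
    intro u
    have h2 : sph F √u ≤ sph (fun x => max (F x) 0) √u :=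
      integral_mono (hsi F hF hC _) (hsi _ hPc hPC _) fun ω => le_max_left _ _
    have h3 : 0 ≤ sph (fun x => max (F x) 0) √u := integral_nonneg fun ω => le_max_right _ _
    have h4 : (0 : ℝ) ≤ 1 / 2 * √u ^ (N - 2) := by positivity
    rw [rdens, rdens]
    exact max_le (mul_le_mul_of_nonneg_left h2 h4) (mul_nonneg h4 h3)
  have hS : MeasurableSet {x : EuclideanSpace ℝ (Fin N) | r ≤ ‖x‖} :=
    (isClosed_le continuous_const continuous_norm).measurableSet
  calc ∫ u in Ioi (r ^ 2), max (rdens F u) 0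
      ≤ ∫ u in Ioi (r ^ 2), rdens (fun x => max (F x) 0) u :=
        setIntegral_mono (rdens_integrable hN hi).pos_part.integrableOn
          (rdens_integrable hN hP).integrableOn h1
    _ = ∫ x in {x | r < ‖x‖}, max (F x) 0 := rdens_outside hN hP hr
    _ ≤ ∫ x in {x | r ≤ ‖x‖}, max (F x) 0 := by
        refine setIntegral_mono_set hP.integrableOn (ae_of_all _ fun x => le_max_right _ _) ?_
        exact (show {x : EuclideanSpace ℝ (Fin N) | r < ‖x‖} ⊆ {x | r ≤ ‖x‖} from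
          fun x (hx : r < ‖x‖) => show r ≤ ‖x‖ from hx.le).eventuallyLE

end radial

/-- The explicit barrier, from the mass hypothesis for the radial density. -/
theorem barrier_core {N : ℕ} (hN : 4 ≤ N) {F : EuclideanSpace ℝ (Fin N) → ℝ} {r : ℝ}
    (hr : 0 < r) (hFi : Integrable F) {ν : Measure (EuclideanSpace ℝ (Fin N))}
    [hν : IsFiniteMeasure ν] (hF : ∀ x, F x = ∫ ξ, Real.cos (inner ℝ x ξ) ∂ν)
    (hint : 0 < ∫ x, F x) {c₀ : ℝ}
    (hmass : c₀ * (∫ u, ‖rdens F u‖) ≤ ∫ u in Ioc 0 (r ^ 2), |rdens F u|)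
    {s : ℝ} (hs : 0 < s) :
    2 * c₀ * (π / 5) * Real.exp ((1 / Real.sin (π / (2 * (2 * (N / 4) : ℕ))) - 1) * s -
      (2 * (N / 4) : ℕ) * s ^ 2) ≤ (π * val N F r) * Real.exp (s * (π * val N F r)) := by
  have h3 := row3_holds hN
  have h4 := row4_holds hN
  have hNr : (4 : ℝ) ≤ N := by exact_mod_cast hN
  set m : ℕ := 2 * (N / 4) with hm
  have hm1 : 1 ≤ m := by omega
  have hmle : (m : ℝ) ≤ (N : ℝ) / 2 := by
    have : 2 * m ≤ N := by omega
    have h2 : (2 : ℝ) * m ≤ N := by exact_mod_cast this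
    linarith
  have hFe : F = fun x => ∫ ξ, Real.cos (inner ℝ x ξ) ∂ν := funext hF
  have hFc : Continuous F := by
    rw [hFe]
    exact cosT_continuous ν
  have hFb : ∀ x, |F x| ≤ F 0 := by
    intro x
    rw [hF x, hF 0]
    exact cosT_abs_le ν x
  obtain ⟨hgc, hgL⟩ := rdens_spec (by omega) hFc ⟨F 0, hFb⟩ hFi
  have hgi := rdens_integrable (by omega) hFi
  have hg0 : ∀ u ≤ 0, rdens F u = 0 := fun u hu => rdens_zero (by omega) F hu
  set g : ℝ → ℝ := rdens F with hgdef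
  have hgint : ∫ u, g u = ∫ x, F x := by
    have := hgL 0 (by simp)
    simp only [neg_zero, zero_mul, Complex.exp_zero, mul_one] at this
    have e1 : ∫ x, ((F x : ℝ) : ℂ) = ((∫ x, F x : ℝ) : ℂ) := integral_ofReal
    have e2 : ∫ u, ((g u : ℝ) : ℂ) = ((∫ u, g u : ℝ) : ℂ) := integral_ofReal
    rw [e1, e2] at this
    exact_mod_cast this.symm
  have hgpos : 0 < ∫ u, g u := by rw [hgint]; exact hint
  have hLap : ∀ z : ℂ, 0 < z.re → ‖Lap g z‖ ≤ (π / ‖z‖) ^ ((N : ℝ) / 2) * F 0 := by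
    intro z hz
    have h1 := gauss_bound hF hz
    rw [hgL z hz.le] at h1
    exact h1
  have hF0 : 0 < F 0 := by
    rcases lt_or_ge 0 (F 0) with h | h
    · exact h
    · exfalso
      have : ∀ x, F x = 0 := fun x => by
        have h1 := hFb x
        have h2 := abs_nonneg (F x)
        exact abs_eq_zero.1 (by linarith)
      rw [integral_congr_ae (ae_of_all _ this), integral_zero] at hint
      exact lt_irrefl _ hint
  have key : ∀ ε : ℝ, 0 < ε → 2 * c₀ * (π / 5) * Real.exp ((1 / Real.sin (π / (2 * m)) - 1) * s - m * s ^ 2) ≤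
      (π * r ^ 2 * (F 0 / ∫ u, ‖g u‖) ^ (1 / ((N : ℝ) / 2))) *
        Real.exp ((s + ε) * (π * r ^ 2 * (F 0 / ∫ u, ‖g u‖) ^ (1 / ((N : ℝ) / 2)))) := by
    intro ε hε
    exact barrier_half hgc hgi (fun u hu => hg0 u hu) (R := r ^ 2) (by positivity)
      hmass hgpos hF0 (by linarith) hLap
      (B := fun z => ∏ j ∈ Finset.range m, (1 - Pool.Agent.KL.zt m j * z))
      ((one_div_sin_le hm1).trans hmle)
      (Nat.cast_nonneg m) (fun L1 a b c ε hε z hz => h3 L1 a b c ε hε z hz)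
      (fun x hx y => h4 x hx y) hs hε
  have hmono : π * r ^ 2 * (F 0 / ∫ u, ‖g u‖) ^ (1 / ((N : ℝ) / 2)) ≤ π * val N F r := by
    rw [val, mul_assoc π]
    have h1 : (1 : ℝ) / ((N : ℝ) / 2) = 2 / N := by field_simp
    rw [h1]
    have h2 : ∫ x, F x ≤ ∫ u, ‖g u‖ := by
      rw [← hgint]
      exact integral_mono hgi hgi.norm fun u => le_abs_self _
    gcongr
  have hX0 : 0 ≤ π * r ^ 2 * (F 0 / ∫ u, ‖g u‖) ^ (1 / ((N : ℝ) / 2)) := by
    have : 0 ≤ ∫ u, ‖g u‖ := integral_nonneg fun _ => norm_nonneg _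
    positivity
  have key2 : ∀ ε : ℝ, 0 < ε →
      2 * c₀ * (π / 5) * Real.exp ((1 / Real.sin (π / (2 * m)) - 1) * s - m * s ^ 2) ≤
      (π * val N F r) * Real.exp ((s + ε) * (π * val N F r)) := by
    intro ε hε
    refine (key ε hε).trans ?_
    refine mul_le_mul hmono ?_ (Real.exp_pos _).le (hX0.trans hmono)
    exact Real.exp_le_exp.2 (mul_le_mul_of_nonneg_left hmono (by linarith))
  have hlim : Tendsto (fun ε : ℝ => (π * val N F r) * Real.exp ((s + ε) * (π * val N F r)))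
      (𝓝[>] 0) (𝓝 ((π * val N F r) * Real.exp ((s + 0) * (π * val N F r)))) := by
    refine Tendsto.mono_left ?_ nhdsWithin_le_nhds
    refine Continuous.tendsto (f := fun ε : ℝ => (π * val N F r) *
      Real.exp ((s + ε) * (π * val N F r))) ?_ 0
    fun_prop
  rw [add_zero] at hlim
  refine ge_of_tendsto hlim ?_
  filter_upwards [self_mem_nhdsWithin] with ε hε
  exact key2 ε hε

/-- The conditions on `(F, r)`, with the sign condition outside the ball weakened: there the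
positive part of `F` has at most `τ` times the integral of `F`. -/
def TAdm (τ : ℝ) (N : ℕ) (F : EuclideanSpace ℝ (Fin N) → ℝ) (r : ℝ) : Prop :=
  0 < r ∧ Integrable F ∧
    (∃ ν : Measure (EuclideanSpace ℝ (Fin N)), IsFiniteMeasure ν ∧
      ∀ x, F x = ∫ ξ, Real.cos (inner ℝ x ξ) ∂ν) ∧
    (∫ x in {x | r ≤ ‖x‖}, max (F x) 0 ≤ τ * ∫ x, F x) ∧ 0 < ∫ x, F x

/-- The positive part of `F` has, outside the ball, at most half of the integral of `F`. -/
def WAdm (N : ℕ) (F : EuclideanSpace ℝ (Fin N) → ℝ) (r : ℝ) : Prop :=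
  0 < r ∧ Integrable F ∧
    (∃ ν : Measure (EuclideanSpace ℝ (Fin N)), IsFiniteMeasure ν ∧
      ∀ x, F x = ∫ ξ, Real.cos (inner ℝ x ξ) ∂ν) ∧
    (∫ x in {x | r ≤ ‖x‖}, max (F x) 0 ≤ (∫ x, F x) / 2) ∧ 0 < ∫ x, F x

theorem Adm.wadm {N : ℕ} {F : EuclideanSpace ℝ (Fin N) → ℝ} {r : ℝ} (h : Adm N F r) :
    WAdm N F r := by
  obtain ⟨hr, hFi, hν, hneg, hint⟩ := h
  refine ⟨hr, hFi, hν, ?_, hint⟩
  have hS : MeasurableSet {x : EuclideanSpace ℝ (Fin N) | r ≤ ‖x‖} :=
    (isClosed_le continuous_const continuous_norm).measurableSet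
  rw [setIntegral_congr_fun hS (g := fun _ => (0 : ℝ)) fun x hx => max_eq_right (hneg x hx)]
  simp only [integral_zero]
  linarith

theorem WAdm.tadm {N : ℕ} {F : EuclideanSpace ℝ (Fin N) → ℝ} {r : ℝ} (h : WAdm N F r) :
    TAdm (1 / 2) N F r := by
  obtain ⟨hr, hFi, hν, hp, hint⟩ := h
  exact ⟨hr, hFi, hν, by linarith, hint⟩

/-- The facts about the radial density of a function of positive type. -/
lemma rdens_facts {N : ℕ} (hN : 3 ≤ N) {F : EuclideanSpace ℝ (Fin N) → ℝ} {r : ℝ}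
    (hr : 0 < r) (hFi : Integrable F) {ν : Measure (EuclideanSpace ℝ (Fin N))}
    [IsFiniteMeasure ν] (hF : ∀ x, F x = ∫ ξ, Real.cos (inner ℝ x ξ) ∂ν) :
    Integrable (rdens F) ∧ (∀ u ≤ 0, rdens F u = 0) ∧ ∫ u, rdens F u = ∫ x, F x ∧
      ∫ u in Ioi (r ^ 2), max (rdens F u) 0 ≤ ∫ x in {x | r ≤ ‖x‖}, max (F x) 0 := by
  have hFe : F = fun x => ∫ ξ, Real.cos (inner ℝ x ξ) ∂ν := funext hF
  have hFc : Continuous F := by
    rw [hFe]
    exact cosT_continuous ν
  have hFb : ∀ x, |F x| ≤ F 0 := by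
    intro x
    rw [hF x, hF 0]
    exact cosT_abs_le ν x
  obtain ⟨hgc, hgL⟩ := rdens_spec hN hFc ⟨F 0, hFb⟩ hFi
  refine ⟨rdens_integrable hN hFi, fun u hu => rdens_zero hN F hu, ?_,
    rdens_part hN hFc ⟨F 0, hFb⟩ hFi hr⟩
  have := hgL 0 (by simp)
  simp only [neg_zero, zero_mul, Complex.exp_zero, mul_one] at this
  have e1 : ∫ x, ((F x : ℝ) : ℂ) = ((∫ x, F x : ℝ) : ℂ) := integral_ofReal
  have e2 : ∫ u, ((rdens F u : ℝ) : ℂ) = ((∫ u, rdens F u : ℝ) : ℂ) := integral_ofReal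
  rw [e1, e2] at this
  exact_mod_cast this.symm

/-- **The robust barrier, explicit**, for every part `τ ≤ 1`. -/
theorem barrier_tadm {τ : ℝ} (hτ0 : 0 ≤ τ) (hτ : τ ≤ 1) {N : ℕ} (hN : 4 ≤ N)
    {F : EuclideanSpace ℝ (Fin N) → ℝ} {r : ℝ} (h : TAdm τ N F r) {s : ℝ} (hs : 0 < s) :
    (1 - τ) * (π / 5) * Real.exp ((1 / Real.sin (π / (2 * (2 * (N / 4) : ℕ))) - 1) * s -
      (2 * (N / 4) : ℕ) * s ^ 2) ≤ (π * val N F r) * Real.exp (s * (π * val N F r)) := by
  obtain ⟨hr, hFi, ⟨ν, hν, hF⟩, hp, hint⟩ := h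
  obtain ⟨hgi, hg0, hgint, hpart⟩ := rdens_facts (by omega) hr hFi hF
  have hm := part_mass hgi hg0 (R := r ^ 2) (by positivity) hτ0 hτ (by rw [hgint]; exact hint.le)
    ((hpart.trans hp).trans_eq (by rw [hgint]))
  have hb := barrier_core hN hr hFi hF hint hm hs
  convert hb using 2
  ring

/-- The robust barrier, explicit, for the part `1 / 2`: the constants do not change. -/
theorem barrier_wadm {N : ℕ} (hN : 4 ≤ N) {F : EuclideanSpace ℝ (Fin N) → ℝ} {r : ℝ}
    (h : WAdm N F r) {s : ℝ} (hs : 0 < s) :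
    π / 5 * Real.exp ((1 / Real.sin (π / (2 * (2 * (N / 4) : ℕ))) - 1) * s -
      (2 * (N / 4) : ℕ) * s ^ 2) ≤ (π * val N F r) * Real.exp (s * (π * val N F r)) := by
  obtain ⟨hr, hFi, ⟨ν, hν, hF⟩, hp, hint⟩ := h
  obtain ⟨hgi, hg0, hgint, hpart⟩ := rdens_facts (by omega) hr hFi hF
  have hm := half_mass' hgi hg0 (R := r ^ 2) (by positivity)
    ((hpart.trans hp).trans_eq (by rw [hgint]))
  have hb := barrier_core hN hr hFi hF hint hm hs
  convert hb using 2
  ring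

theorem WAdm.val_nonneg {N : ℕ} {F : EuclideanSpace ℝ (Fin N) → ℝ} {r : ℝ} (h : WAdm N F r) :
    0 ≤ val N F r := by
  obtain ⟨-, -, ⟨ν, hν, hF⟩, -, hint⟩ := h
  have h0 : 0 ≤ F 0 := by
    rw [hF 0]
    simp
  unfold val
  positivity

/-- **The robust barrier.** -/
theorem robust_low {N : ℕ} (hN : 2 ≤ N) {F : EuclideanSpace ℝ (Fin N) → ℝ} {r : ℝ}
    (h : WAdm N F r) : (N : ℝ) / π ^ 2 - 2 * √(N * Real.log N) ≤ val N F r := by
  have hp := Real.pi_pos
  have hp3 := Real.pi_gt_three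
  have hv := h.val_nonneg
  have hN2 : (2 : ℝ) ≤ N := by exact_mod_cast hN
  have hlog : 1 / 2 ≤ Real.log N := by
    have h1 : Real.log 2 ≤ Real.log N := Real.log_le_log (by norm_num) hN2
    have := Real.log_two_gt_d9
    linarith
  have hq1 : 1 ≤ √(N * Real.log N) := by
    rw [Real.one_le_sqrt]
    nlinarith
  rcases lt_or_ge N 4 with h4 | h4
  · have h5 : (N : ℝ) ≤ 3 := by exact_mod_cast (by omega : N ≤ 3)
    have h6 : (N : ℝ) / π ^ 2 ≤ 1 := by
      rw [div_le_one (by positivity)]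
      nlinarith
    linarith
  · have h1 := rate_low_aux h4 (X := π * val N F r) (by positivity)
      fun s hs => barrier_wadm h4 h hs
    have h2 : (N : ℝ) / π ^ 2 - (3 / π + 1) / π - 5 / 2 * √(N * Real.log N) / π ≤ val N F r := by
      have h3 : π * ((N : ℝ) / π ^ 2 - (3 / π + 1) / π - 5 / 2 * √(N * Real.log N) / π) =
          (N : ℝ) / π - 3 / π - 1 - 5 / 2 * √(N * Real.log N) := by
        field_simp
        ring
      rw [← h3] at h1
      exact le_of_mul_le_mul_left h1 hp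
    have h5 : (3 / π + 1) / π ≤ 2 / 3 := by
      have h6 : 3 / π ≤ 1 := by rw [div_le_one hp]; exact hp3.le
      rw [div_le_div_iff₀ hp (by norm_num)]
      nlinarith
    have h6 : 5 / 2 * √(N * Real.log N) / π ≤ 5 / 6 * √(N * Real.log N) := by
      rw [div_le_iff₀ hp]
      nlinarith
    linarith


end Pool.Agent.LPX
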