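import Mathlib

/-!
LPX project, row 6, part 4: asymptotics of the barrier.
-/

namespace Pool.Agent.LPX

open Filter Topology
open scoped Real

lemma one_div_sin_ge {m : ℕ} (hm : 1 ≤ m) : 2 * m / π ≤ 1 / Real.sin (π / (2 * m)) := by
  have h0 : (1 : ℝ) ≤ m := by exact_mod_cast hm
  have hp := Real.pi_pos
  have hpos : 0 < π / (2 * m) := by positivity
  have hs : 0 < Real.sin (π / (2 * m)) := by
    apply Real.sin_pos_of_pos_of_lt_pi hpos
    rw [div_lt_iff₀ (by positivity)]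
    nlinarith
  have h1 : Real.sin (π / (2 * m)) ≤ π / (2 * m) := Real.sin_le hpos.le
  calc 2 * m / π = 1 / (π / (2 * m)) := by field_simp
    _ ≤ 1 / Real.sin (π / (2 * m)) := one_div_le_one_div_of_le hs h1

theorem X_lower {δ : ℝ} (hδ : 0 < δ) : ∀ᶠ N : ℕ in atTop, ∀ X : ℝ, 0 < X →
    (π / 5 * Real.exp ((1 / Real.sin (π / (2 * (2 * (N / 4) : ℕ))) - 1) * δ -
      (2 * (N / 4) : ℕ) * δ ^ 2) ≤ X * Real.exp (δ * X)) → (1 / π - δ) * N ≤ X := by
  set K : ℝ := 5 / π * Real.exp (δ * (3 / π + 1)) with hK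
  have hp := Real.pi_pos
  have hK0 : 0 < K := by positivity
  have hev : ∀ᶠ N : ℕ in atTop, 2 * K / (δ ^ 2 / 2) ^ 2 < N := by
    exact (tendsto_natCast_atTop_atTop (R := ℝ)).eventually_gt_atTop _
  filter_upwards [hev, eventually_ge_atTop 4] with N hN hN4 X hX h
  by_contra hcon
  rw [not_le] at hcon
  set m : ℕ := 2 * (N / 4) with hm
  have hNpos : (0 : ℝ) < N := by
    have : 0 < N := by omega
    exact_mod_cast this
  have hm1 : 1 ≤ m := by omega
  have hmle : (m : ℝ) ≤ N / 2 := by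
    have : 2 * m ≤ N := by omega
    have h2 : (2 : ℝ) * m ≤ N := by exact_mod_cast this
    linarith
  have hmge : ((N : ℝ) - 3) / 2 ≤ m := by
    have : N ≤ 2 * m + 3 := by omega
    have h2 : (N : ℝ) ≤ 2 * m + 3 := by exact_mod_cast this
    linarith
  have hS := one_div_sin_ge hm1
  set S := 1 / Real.sin (π / (2 * (m : ℝ))) with hSdef
  have hS2 : ((N : ℝ) - 3) / π ≤ S := by
    refine le_trans ?_ hS
    rw [div_le_div_iff_of_pos_right hp]
    linarith
  have h1 : δ * (((N : ℝ) - 3) / π - 1) - N / 2 * δ ^ 2 ≤ (S - 1) * δ - m * δ ^ 2 := by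
    have := mul_le_mul_of_nonneg_right hmle (sq_nonneg δ)
    nlinarith [mul_le_mul_of_nonneg_left hS2 hδ.le]
  have hXN : X ≤ N := by
    refine hcon.le.trans ?_
    have : 1 / π ≤ 1 := by
      rw [div_le_one hp]
      linarith [Real.pi_gt_three]
    nlinarith
  have h2 : X * Real.exp (δ * X) ≤ N * Real.exp (δ * ((1 / π - δ) * N)) := by
    refine mul_le_mul hXN ?_ (Real.exp_pos _).le hNpos.le
    exact Real.exp_le_exp.2 (mul_le_mul_of_nonneg_left hcon.le hδ.le)
  have h3 : π / 5 * Real.exp (δ * (((N : ℝ) - 3) / π - 1) - N / 2 * δ ^ 2) ≤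
      N * Real.exp (δ * ((1 / π - δ) * N)) := by
    refine le_trans ?_ (h.trans h2)
    refine mul_le_mul_of_nonneg_left (Real.exp_le_exp.2 h1) (by positivity)
  have h4 : Real.exp (δ * (((N : ℝ) - 3) / π - 1) - N / 2 * δ ^ 2) =
      Real.exp (δ ^ 2 / 2 * N) * Real.exp (δ * ((1 / π - δ) * N)) /
        Real.exp (δ * (3 / π + 1)) := by
    rw [← Real.exp_add, ← Real.exp_sub]
    congr 1
    field_simp
    ring
  rw [h4] at h3
  have h5 : Real.exp (δ ^ 2 / 2 * N) ≤ K * N := by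
    have h6 : π / 5 * (Real.exp (δ ^ 2 / 2 * N) / Real.exp (δ * (3 / π + 1))) *
        Real.exp (δ * ((1 / π - δ) * N)) ≤ N * Real.exp (δ * ((1 / π - δ) * N)) := by
      refine le_trans (le_of_eq ?_) h3
      ring
    have h7 := le_of_mul_le_mul_right h6 (Real.exp_pos _)
    rw [hK]
    have h8 : Real.exp (δ ^ 2 / 2 * N) = 5 / π * Real.exp (δ * (3 / π + 1)) *
        (π / 5 * (Real.exp (δ ^ 2 / 2 * N) / Real.exp (δ * (3 / π + 1)))) := by
      have := (Real.exp_pos (δ * (3 / π + 1))).ne'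
      field_simp
    rw [h8]
    exact mul_le_mul_of_nonneg_left h7 (by positivity)
  have h9 : (δ ^ 2 / 2 * N) ^ 2 / 2 ≤ Real.exp (δ ^ 2 / 2 * N) := by
    have := Real.quadratic_le_exp_of_nonneg (x := δ ^ 2 / 2 * N) (by positivity)
    have h10 : 0 ≤ δ ^ 2 / 2 * N := by positivity
    linarith
  have h11 : 2 * K < N * (δ ^ 2 / 2) ^ 2 := by
    rwa [div_lt_iff₀ (by positivity)] at hN
  nlinarith

end Pool.Agent.LPX
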