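import Mathlib

/-!
LPX project, row 6, part 2: the integral over a vertical line.
-/

namespace Pool.Agent.LPX

open MeasureTheory Filter Topology Set
open scoped Real

/-- The dominating function. -/
noncomputable def dom (K κ T : ℝ) (u : ℝ) : ℝ := if u ≤ T then K else u ^ (-κ)

lemma dom_integrableOn {K κ T : ℝ} (hκ : 1 < κ) (hT : 0 < T) :
    IntegrableOn (dom K κ T) (Ioi 0) := by
  have h1 : Ioi (0 : ℝ) = Ioc 0 T ∪ Ioi T := (Ioc_union_Ioi_eq_Ioi hT.le).symm
  rw [h1]
  refine IntegrableOn.union ?_ ?_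
  · have : IntegrableOn (fun _ : ℝ => K) (Ioc 0 T) := by
      refine integrableOn_const (by simp) (by simp)
    refine this.congr_fun (fun u hu => ?_) measurableSet_Ioc
    simp only [dom, if_pos hu.2]
  · refine (integrableOn_Ioi_rpow_of_lt (a := -κ) (by linarith) hT).congr_fun (fun u hu => ?_)
      measurableSet_Ioi
    simp only [dom, if_neg (not_le.2 (Set.mem_Ioi.1 hu))]

lemma dom_integral {K κ T : ℝ} (hκ : 1 < κ) (hT : 0 < T) :
    ∫ u in Ioi 0, dom K κ T u = T * K + T ^ (1 - κ) / (κ - 1) := by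
  have h1 : Ioi (0 : ℝ) = Ioc 0 T ∪ Ioi T := (Ioc_union_Ioi_eq_Ioi hT.le).symm
  have hd := dom_integrableOn (K := K) hκ hT
  rw [h1] at hd ⊢
  rw [setIntegral_union (Ioc_disjoint_Ioi le_rfl) measurableSet_Ioi
    (hd.mono_set subset_union_left) (hd.mono_set subset_union_right)]
  congr 1
  · rw [setIntegral_congr_fun measurableSet_Ioc (g := fun _ => K)
      (fun u hu => by simp only [dom, if_pos hu.2])]
    simp [hT.le]
  · rw [setIntegral_congr_fun measurableSet_Ioi (g := fun u => u ^ (-κ))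
      (fun u hu => by simp only [dom, if_neg (not_le.2 (Set.mem_Ioi.1 hu))]),
      integral_Ioi_rpow_of_lt (by linarith) hT]
    have h2 : -κ + 1 = -(κ - 1) := by ring
    have h3 : κ - 1 ≠ 0 := by linarith
    rw [h2, show 1 - κ = -(κ - 1) by ring, div_neg, neg_div, neg_neg]

lemma integrable_comp_abs_of {f : ℝ → ℝ} (hf : IntegrableOn f (Ioi 0)) :
    Integrable fun x : ℝ => f |x| := by
  have hf' : IntegrableOn (fun x => f |x|) (Ioi 0) :=
    hf.congr_fun (fun x hx => by rw [abs_of_pos (Set.mem_Ioi.1 hx)]) measurableSet_Ioi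
  have int_Iic : IntegrableOn (fun x ↦ f |x|) (Iic 0) := by
    rw [← Measure.map_neg_eq_self (volume : Measure ℝ)]
    let m : MeasurableEmbedding fun x : ℝ => -x := (Homeomorph.neg ℝ).measurableEmbedding
    rw [m.integrableOn_map_iff]
    simp_rw [Function.comp_def, abs_neg, neg_preimage, neg_Iic, neg_zero]
    exact Iff.mpr integrableOn_Ici_iff_integrableOn_Ioi hf'
  have := int_Iic.union hf'
  rwa [Iic_union_Ioi, integrableOn_univ] at this

/-- The integral over a vertical line: `|E t| ≤ K` and `|E t| ≤ |t|^(-κ)`. -/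
theorem jbound {E : ℝ → ℂ} (hm : AEStronglyMeasurable E) {K κ T : ℝ} (hκ : 1 < κ) (hT : 0 < T)
    (h1 : ∀ t, ‖E t‖ ≤ K) (h2 : ∀ t, t ≠ 0 → ‖E t‖ ≤ |t| ^ (-κ)) :
    Integrable E ∧ ∫ t, ‖E t‖ ≤ 2 * (T * K + T ^ (1 - κ) / (κ - 1)) := by
  have hd : Integrable fun t : ℝ => dom K κ T |t| := integrable_comp_abs_of (dom_integrableOn hκ hT)
  have hle : ∀ t, ‖E t‖ ≤ dom K κ T |t| := by
    intro t
    rw [dom]
    split_ifs with h
    · exact h1 t
    · exact h2 t (fun h0 => h (by rw [h0, abs_zero]; exact hT.le))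
  have hE : Integrable E := hd.mono' hm (ae_of_all _ hle)
  refine ⟨hE, ?_⟩
  calc ∫ t, ‖E t‖ ≤ ∫ t : ℝ, dom K κ T |t| := integral_mono hE.norm hd hle
    _ = 2 * ∫ t in Ioi 0, dom K κ T t := integral_comp_abs
    _ = _ := by rw [dom_integral hκ hT]

end Pool.Agent.LPX
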