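import Mathlib

/-!
LPX project, row 6, part 1: the Laplace transform of an integrable function.
-/

namespace Pool.Agent.LPX

open MeasureTheory Filter Topology Complex
open scoped Real

/-- The Laplace transform (of a function which vanishes on the negative half line). -/
noncomputable def Lap (g : ℝ → ℝ) (z : ℂ) : ℂ := ∫ v : ℝ, (g v : ℂ) * cexp (-z * v)

lemma norm_lap_term {g : ℝ → ℝ} (h0 : ∀ u ≤ 0, g u = 0) {z : ℂ} (hz : 0 ≤ z.re) (v : ℝ) :
    ‖(g v : ℂ) * cexp (-z * v)‖ ≤ ‖g v‖ := by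
  rcases le_or_gt v 0 with hv | hv
  · rw [h0 v hv]; simp
  · rw [norm_mul, Complex.norm_real, Complex.norm_exp]
    refine mul_le_of_le_one_right (norm_nonneg _) ?_
    have : (-z * v).re = -(z.re * v) := by simp
    rw [this]
    exact Real.exp_le_one_iff.2 (by nlinarith)

lemma aesm_lap_term {g : ℝ → ℝ} (hi : Integrable g) (z : ℂ) :
    AEStronglyMeasurable (fun v : ℝ => (g v : ℂ) * cexp (-z * v)) :=
  (Complex.continuous_ofReal.comp_aestronglyMeasurable hi.aestronglyMeasurable).mul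
    (by fun_prop : Continuous fun v : ℝ => cexp (-z * v)).aestronglyMeasurable

lemma lap_integrable {g : ℝ → ℝ} (hi : Integrable g) (h0 : ∀ u ≤ 0, g u = 0) {z : ℂ}
    (hz : 0 ≤ z.re) : Integrable fun v : ℝ => (g v : ℂ) * cexp (-z * v) :=
  Integrable.mono hi (aesm_lap_term hi z) (ae_of_all _ fun v => norm_lap_term h0 hz v)

lemma norm_lap_le {g : ℝ → ℝ} (hi : Integrable g) (h0 : ∀ u ≤ 0, g u = 0) {z : ℂ}
    (hz : 0 ≤ z.re) : ‖Lap g z‖ ≤ ∫ v : ℝ, ‖g v‖ :=
  (norm_integral_le_integral_norm _).trans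
    (integral_mono (lap_integrable hi h0 hz).norm hi.norm fun v => norm_lap_term h0 hz v)

lemma lap_hasDerivAt {g : ℝ → ℝ} (hi : Integrable g) (h0 : ∀ u ≤ 0, g u = 0) {z : ℂ}
    (hz : 0 < z.re) :
    HasDerivAt (Lap g) (∫ v : ℝ, (g v : ℂ) * (-(v : ℂ) * cexp (-z * v))) z := by
  have hr : 0 < z.re / 2 := by linarith
  have hball : ∀ w ∈ Metric.ball z (z.re / 2), z.re / 2 ≤ w.re := by
    intro w hw
    rw [Metric.mem_ball, dist_eq_norm] at hw
    have := Complex.abs_re_le_norm (w - z)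
    rw [Complex.sub_re] at this
    have h2 := (abs_le.1 this).1
    linarith
  refine (hasDerivAt_integral_of_dominated_loc_of_deriv_le (μ := volume)
    (F := fun (w : ℂ) (v : ℝ) => (g v : ℂ) * cexp (-w * v))
    (F' := fun (w : ℂ) (v : ℝ) => (g v : ℂ) * (-(v : ℂ) * cexp (-w * v)))
    (bound := fun v => ‖g v‖ * (z.re / 2)⁻¹) (Metric.ball_mem_nhds z hr) ?_ ?_ ?_ ?_ ?_ ?_).2
  · exact Eventually.of_forall fun w => aesm_lap_term hi w
  · exact lap_integrable hi h0 hz.le
  · exact (Complex.continuous_ofReal.comp_aestronglyMeasurable hi.aestronglyMeasurable).mul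
      (by fun_prop : Continuous fun v : ℝ => -(v : ℂ) * cexp (-z * v)).aestronglyMeasurable
  · refine ae_of_all _ fun v w hw => ?_
    rcases le_or_gt v 0 with hv | hv
    · simp [h0 v hv]
    · rw [norm_mul, Complex.norm_real]
      refine mul_le_mul_of_nonneg_left ?_ (norm_nonneg _)
      rw [norm_mul, norm_neg, Complex.norm_real, Real.norm_eq_abs, abs_of_pos hv, Complex.norm_exp]
      have h1 : (-w * v).re = -(w.re * v) := by simp
      rw [h1]
      have h2 := hball w hw
      have h3 : Real.exp (-(w.re * v)) ≤ Real.exp (-(z.re / 2 * v)) :=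
        Real.exp_le_exp.2 (by nlinarith)
      have h4 : z.re / 2 * v ≤ Real.exp (z.re / 2 * v) := by
        have := Real.add_one_le_exp (z.re / 2 * v)
        linarith
      have h5 : z.re / 2 * v * Real.exp (-(z.re / 2 * v)) ≤ 1 := by
        calc z.re / 2 * v * Real.exp (-(z.re / 2 * v))
            ≤ Real.exp (z.re / 2 * v) * Real.exp (-(z.re / 2 * v)) :=
              mul_le_mul_of_nonneg_right h4 (Real.exp_pos _).le
          _ = 1 := by rw [← Real.exp_add, add_neg_cancel, Real.exp_zero]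
      calc v * Real.exp (-(w.re * v)) ≤ v * Real.exp (-(z.re / 2 * v)) :=
            mul_le_mul_of_nonneg_left h3 hv.le
        _ = (z.re / 2)⁻¹ * (z.re / 2 * v * Real.exp (-(z.re / 2 * v))) := by
            field_simp
        _ ≤ (z.re / 2)⁻¹ * 1 := mul_le_mul_of_nonneg_left h5 (by positivity)
        _ = (z.re / 2)⁻¹ := mul_one _
  · exact hi.norm.mul_const _
  · refine ae_of_all _ fun v w _ => ?_
    have h1 : HasDerivAt (fun w : ℂ => -w * v) (-1 * v) w := (hasDerivAt_id w).neg.mul_const _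
    have h2 := (h1.cexp).const_mul (g v : ℂ)
    refine h2.congr_deriv ?_
    ring

lemma lap_differentiableOn {g : ℝ → ℝ} (hi : Integrable g) (h0 : ∀ u ≤ 0, g u = 0) :
    DifferentiableOn ℂ (Lap g) {z | 0 < z.re} :=
  fun _ hz => (lap_hasDerivAt hi h0 hz).differentiableAt.differentiableWithinAt

end Pool.Agent.LPX
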