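import Pool.Agent.Lib.LPX.Inv
import Pool.Agent.Lib.LPX.Lap
import Pool.Agent.Lib.LPX.JBound

/-!
LPX project, row 6, part 3: the barrier, abstract form.
-/

namespace Pool.Agent.LPX

open MeasureTheory Filter Topology Set Complex
open scoped Real

/-- At least half of the mass of `g` sits in `[0, R]`. -/
lemma half_mass {g : ℝ → ℝ} (hi : Integrable g) (h0 : ∀ u ≤ 0, g u = 0) {R : ℝ}
    (hneg : ∀ u, R ≤ u → g u ≤ 0) (hpos : 0 < ∫ u, g u) :
    (∫ u, ‖g u‖) / 2 ≤ ∫ u in Ioc 0 R, |g u| := by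
  have h1 : ∀ u, ‖g u‖ + g u ≤ 2 * (Ioc 0 R).indicator (fun u => |g u|) u := by
    intro u
    rw [Real.norm_eq_abs]
    by_cases hu : u ∈ Ioc 0 R
    · rw [indicator_of_mem hu]
      have := le_abs_self (g u)
      linarith
    · rw [indicator_of_notMem hu]
      rcases le_or_gt u 0 with h | h
      · rw [h0 u h]; simp
      · have h2 : R ≤ u := by
          by_contra h3
          exact hu ⟨h, (not_le.1 h3).le⟩
        rw [abs_of_nonpos (hneg u h2)]
        simp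
  have h2 : ∫ u, (‖g u‖ + g u) ≤ ∫ u, 2 * (Ioc 0 R).indicator (fun u => |g u|) u := by
    refine integral_mono (hi.norm.add hi) ?_ h1
    exact ((hi.abs.indicator measurableSet_Ioc).const_mul 2)
  rw [integral_add hi.norm hi, integral_const_mul, integral_indicator measurableSet_Ioc] at h2
  linarith

/-- The barrier, abstract form. -/
theorem barrier_eps {g : ℝ → ℝ} (hc : Continuous g) (hi : Integrable g) (h0 : ∀ u ≤ 0, g u = 0)
    {R : ℝ} (hR : 0 < R) (hneg : ∀ u, R ≤ u → g u ≤ 0) (hpos : 0 < ∫ u, g u)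
    {b κ : ℝ} (hb : 0 < b) (hκ : 2 ≤ κ)
    (hg : ∀ z : ℂ, 0 < z.re → ‖Lap g z‖ ≤ (π / ‖z‖) ^ κ * b)
    {B : ℂ → ℂ} {S m : ℝ} (hSκ : S ≤ κ) (hm0 : 0 ≤ m)
    (hPL : ∀ L1 : ℂ → ℂ, DifferentiableOn ℂ L1 {z | 0 < z.re} → (∀ z : ℂ, 0 < z.re → ‖L1 z‖ ≤ 1) →
      (∀ z : ℂ, 0 < z.re → ‖L1 z‖ ≤ ‖z‖ ^ (-κ)) → ∀ ε : ℝ, 0 < ε → ∀ z : ℂ, 0 ≤ z.re →
        ‖L1 (z + ε)‖ * ‖B z‖ ≤ √2)
    (hB : ∀ x : ℝ, 0 ≤ x → ∀ y : ℝ, Real.exp (S * x - m * x ^ 2) ≤ ‖B (x + y * I)‖)
    {s ε : ℝ} (hs : 0 < s) (hε : 0 < ε) :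
    π / 5 * Real.exp ((S - 1) * s - m * s ^ 2) ≤
      (π * R * (b / ∫ u, ‖g u‖) ^ (1 / κ)) *
        Real.exp ((s + ε) * (π * R * (b / ∫ u, ‖g u‖) ^ (1 / κ))) := by
  set a : ℝ := ∫ u, ‖g u‖ with ha
  have hapos : 0 < a := lt_of_lt_of_le hpos (integral_mono hi hi.norm fun u => le_abs_self _)
  set θ : ℝ := π * (b / a) ^ (1 / κ) with hθ
  have hθ0 : 0 < θ := by positivity
  have hκ0 : 0 < κ := by linarith
  set L1 : ℂ → ℂ := fun z => Lap g (θ * z) / a with hL1
  have hre : ∀ z : ℂ, ((θ : ℂ) * z).re = θ * z.re := fun z => by simp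
  have hpos' : ∀ z : ℂ, 0 < z.re → 0 < ((θ : ℂ) * z).re := fun z hz => by
    rw [hre]; exact mul_pos hθ0 hz
  have hd : DifferentiableOn ℂ L1 {z | 0 < z.re} := by
    refine DifferentiableOn.div_const ?_ _
    refine (lap_differentiableOn hi h0).comp (f := fun z : ℂ => (θ : ℂ) * z) (by fun_prop) ?_
    intro z hz
    exact hpos' z hz
  have hA : ∀ z : ℂ, 0 < z.re → ‖L1 z‖ ≤ 1 := by
    intro z hz
    rw [hL1]
    simp only [norm_div, Complex.norm_real, Real.norm_eq_abs, abs_of_pos hapos]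
    rw [div_le_one hapos]
    exact norm_lap_le hi h0 (hpos' z hz).le
  have hθκ : (π / θ) ^ κ * b / a = 1 := by
    have h1 : π / θ = ((b / a) ^ (1 / κ))⁻¹ := by
      rw [hθ]
      field_simp
    rw [h1, Real.inv_rpow (by positivity), ← Real.rpow_mul (by positivity),
      one_div_mul_cancel hκ0.ne', Real.rpow_one]
    field_simp
  have hA2 : ∀ z : ℂ, 0 < z.re → ‖L1 z‖ ≤ ‖z‖ ^ (-κ) := by
    intro z hz
    have hz0 : 0 < ‖z‖ := norm_pos_iff.2 fun h => by rw [h] at hz; simp at hz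
    have h1 := hg _ (hpos' z hz)
    rw [hL1]
    simp only [norm_div, Complex.norm_real, Real.norm_eq_abs, abs_of_pos hapos]
    rw [norm_mul, Complex.norm_real, Real.norm_eq_abs, abs_of_pos hθ0] at h1
    calc ‖Lap g (θ * z)‖ / a ≤ (π / (θ * ‖z‖)) ^ κ * b / a := by gcongr
      _ = ((π / θ) ^ κ * b / a) * ‖z‖ ^ (-κ) := by
          rw [← div_div, Real.div_rpow (by positivity) hz0.le, Real.rpow_neg hz0.le]
          ring
      _ = ‖z‖ ^ (-κ) := by rw [hθκ, one_mul]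
  have hPL' := hPL L1 hd hA hA2 ε hε
  -- the integrand on the vertical line
  set E : ℝ → ℂ := fun t => L1 (((s : ℂ) + t * I) + ε) with hE
  have hsε : ∀ t : ℝ, (((s : ℂ) + t * I) + ε).re = s + ε := fun t => by simp
  have hEc : Continuous E := by
    rw [continuous_iff_continuousAt]
    intro t
    have h1 : DifferentiableAt ℂ L1 (((s : ℂ) + t * I) + ε) := by
      refine hd.differentiableAt ?_
      refine (isOpen_lt continuous_const Complex.continuous_re).mem_nhds ?_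
      rw [Set.mem_setOf_eq, hsε]
      linarith
    exact ContinuousAt.comp (f := fun t : ℝ => ((s : ℂ) + t * I) + ε) h1.continuousAt
      (by fun_prop)
  set K : ℝ := √2 * Real.exp (-(S * s - m * s ^ 2)) with hK
  have hE1 : ∀ t, ‖E t‖ ≤ K := by
    intro t
    have h1 := hPL' ((s : ℂ) + t * I) (by simp [hs.le])
    have h2 := hB s hs.le t
    have h3 : ‖E t‖ * Real.exp (S * s - m * s ^ 2) ≤ √2 :=
      (mul_le_mul_of_nonneg_left h2 (norm_nonneg _)).trans h1
    rw [hK, Real.exp_neg, ← div_eq_mul_inv, le_div_iff₀ (Real.exp_pos _)]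
    exact h3
  have hE2 : ∀ t, t ≠ 0 → ‖E t‖ ≤ |t| ^ (-κ) := by
    intro t ht
    have h1 := hA2 (((s : ℂ) + t * I) + ε) (by rw [hsε]; linarith)
    refine h1.trans ?_
    refine Real.rpow_le_rpow_of_nonpos (abs_pos.2 ht) ?_ (by linarith)
    have h2 := Complex.abs_im_le_norm (((s : ℂ) + t * I) + ε)
    simpa using h2
  obtain ⟨hEi, hJ⟩ := jbound hEc.aestronglyMeasurable (T := Real.exp s) (by linarith)
    (Real.exp_pos s) hE1 hE2
  -- the bound for J
  have hJ2 : ∫ t, ‖E t‖ ≤ 5 * Real.exp (s - (S * s - m * s ^ 2)) := by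
    refine hJ.trans ?_
    have h1 : Real.exp s ^ (1 - κ) ≤ Real.exp (s - (S * s - m * s ^ 2)) := by
      rw [← Real.exp_mul]
      refine Real.exp_le_exp.2 ?_
      nlinarith [mul_le_mul_of_nonneg_left hSκ hs.le, mul_nonneg hm0 (sq_nonneg s)]
    have h2 : Real.exp s ^ (1 - κ) / (κ - 1) ≤ Real.exp (s - (S * s - m * s ^ 2)) := by
      refine le_trans ?_ h1
      exact div_le_self (by positivity) (by linarith)
    have h3 : Real.exp s * K = √2 * Real.exp (s - (S * s - m * s ^ 2)) := by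
      rw [hK, sub_eq_add_neg s, Real.exp_add]
      ring
    rw [h3]
    have h4 : √2 ≤ 1.5 := by
      rw [Real.sqrt_le_left (by norm_num)]
      norm_num
    have h5 := Real.exp_pos (s - (S * s - m * s ^ 2))
    nlinarith
  -- inversion
  set c : ℝ := θ * (s + ε) with hcdef
  have hc0 : 0 < c := by positivity
  have hcy : ∀ y : ℝ, (∫ v : ℝ, (g v : ℂ) * cexp (-((c : ℂ) + y * I) * v)) = a * E (θ⁻¹ * y) := by
    intro y
    have h1 : (θ : ℂ) * ((((s : ℂ) + ((θ⁻¹ * y : ℝ) : ℂ) * I)) + ε) = (c : ℂ) + y * I := by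
      rw [hcdef]
      push_cast
      have : (θ : ℂ) ≠ 0 := by exact_mod_cast hθ0.ne'
      field_simp
      ring
    rw [hE]
    simp only [hL1]
    rw [h1, mul_div_cancel₀ _ (by exact_mod_cast hapos.ne')]
    rfl
  have hLi : Integrable fun y : ℝ => ∫ v : ℝ, (g v : ℂ) * cexp (-((c : ℂ) + y * I) * v) := by
    simp_rw [hcy]
    exact (hEi.comp_mul_left' (inv_ne_zero hθ0.ne')).const_mul _
  have hLJ : ∫ y : ℝ, ‖∫ v : ℝ, (g v : ℂ) * cexp (-((c : ℂ) + y * I) * v)‖ =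
      a * θ * ∫ t, ‖E t‖ := by
    simp_rw [hcy, norm_mul, Complex.norm_real, Real.norm_eq_abs, abs_of_pos hapos]
    rw [integral_const_mul, Measure.integral_comp_mul_left (fun t : ℝ => ‖E t‖) θ⁻¹, inv_inv,
      abs_of_pos hθ0, smul_eq_mul]
    exact (mul_assoc a θ _).symm
  have hpt : ∀ u ∈ Ioc 0 R, |g u| ≤
      Real.exp (c * R) / (2 * π) * (a * θ * (5 * Real.exp (s - (S * s - m * s ^ 2)))) := by
    intro u hu
    have h1 := laplace_inv hc hi h0 hc0 hLi u
    rw [hLJ] at h1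
    refine h1.trans ?_
    have h2 : Real.exp (c * u) ≤ Real.exp (c * R) :=
      Real.exp_le_exp.2 (mul_le_mul_of_nonneg_left hu.2 hc0.le)
    have h3 : 0 ≤ ∫ t, ‖E t‖ := integral_nonneg fun _ => norm_nonneg _
    gcongr
  have hhalf := half_mass hi h0 hneg hpos
  have hint : ∫ u in Ioc 0 R, |g u| ≤
      R * (Real.exp (c * R) / (2 * π) * (a * θ * (5 * Real.exp (s - (S * s - m * s ^ 2))))) := by
    calc ∫ u in Ioc 0 R, |g u| ≤ ∫ _u in Ioc 0 R,
          (Real.exp (c * R) / (2 * π) * (a * θ * (5 * Real.exp (s - (S * s - m * s ^ 2))))) := by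
          refine setIntegral_mono_on hi.abs.integrableOn
            (integrableOn_const (by simp) enorm_ne_top) measurableSet_Ioc hpt
      _ = _ := by simp [hR.le]
  have hfin := hhalf.trans hint
  rw [← ha] at hfin
  have hX : π * R * (b / a) ^ (1 / κ) = θ * R := by rw [hθ]; ring
  rw [hX]
  have hcR : c * R = (s + ε) * (θ * R) := by rw [hcdef]; ring
  rw [hcR] at hfin
  have he1 : Real.exp ((S - 1) * s - m * s ^ 2) * Real.exp (s - (S * s - m * s ^ 2)) = 
      Real.exp (-0) := by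
    rw [← Real.exp_add]
    congr 1
    ring
  rw [neg_zero, Real.exp_zero] at he1
  have he2 := Real.exp_pos (s - (S * s - m * s ^ 2))
  set P := Real.exp ((S - 1) * s - m * s ^ 2) with hP
  set Q := Real.exp (s - (S * s - m * s ^ 2)) with hQ
  set Z := Real.exp ((s + ε) * (θ * R)) with hZ
  have hfin2 : a / 2 ≤ a * (5 / (2 * π) * (θ * R * Z) * Q) := by
    refine hfin.trans (le_of_eq ?_)
    field_simp
  have hfin3 : 1 / 2 ≤ 5 / (2 * π) * (θ * R * Z) * Q := by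
    have : a * (1 / 2) ≤ a * (5 / (2 * π) * (θ * R * Z) * Q) := by linarith
    exact le_of_mul_le_mul_left this hapos
  have hPpos : 0 < P := Real.exp_pos _
  have h6 : P * (1 / 2) ≤ 5 / (2 * π) * (θ * R * Z) := by
    calc P * (1 / 2) ≤ P * (5 / (2 * π) * (θ * R * Z) * Q) :=
          mul_le_mul_of_nonneg_left hfin3 hPpos.le
      _ = 5 / (2 * π) * (θ * R * Z) * (P * Q) := by ring
      _ = _ := by rw [he1, mul_one]
  have h7 : π / 5 * P = (2 * π / 5) * (P * (1 / 2)) := by ring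
  rw [h7]
  calc (2 * π / 5) * (P * (1 / 2)) ≤ (2 * π / 5) * (5 / (2 * π) * (θ * R * Z)) :=
        mul_le_mul_of_nonneg_left h6 (by positivity)
    _ = θ * R * Z := by field_simp

end Pool.Agent.LPX
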