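import Mathlib

/-!
LPX project, row 1: the Gaussian bound for functions of positive type.
-/

namespace Pool.Agent.LPX

open MeasureTheory Filter Topology Complex
open scoped Real RealInnerProductSpace

/-- The Gaussian integral against a cosine. -/
theorem gauss_cos {N : ℕ} {lam : ℂ} (hl : 0 < lam.re) (ξ : EuclideanSpace ℝ (Fin N)) :
    ∫ x : EuclideanSpace ℝ (Fin N), ((Real.cos (inner ℝ x ξ) : ℝ) : ℂ) *
        cexp (-lam * ‖x‖ ^ 2) =
      (π / lam) ^ ((N : ℂ) / 2) * cexp (-(‖ξ‖ ^ 2 / (4 * lam))) := by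
  have h1 := GaussianFourier.integral_cexp_neg_mul_sq_norm_add hl I ξ
  have h2 := GaussianFourier.integral_cexp_neg_mul_sq_norm_add hl (-I) ξ
  have i1 := GaussianFourier.integrable_cexp_neg_mul_sq_norm_add hl I ξ
  have i2 := GaussianFourier.integrable_cexp_neg_mul_sq_norm_add hl (-I) ξ
  have e : ∀ x : EuclideanSpace ℝ (Fin N), ((Real.cos (inner ℝ x ξ) : ℝ) : ℂ) *
      cexp (-lam * ‖x‖ ^ 2) = 1 / 2 * (cexp (-lam * ‖x‖ ^ 2 + I * (inner ℝ ξ x : ℝ)) +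
        cexp (-lam * ‖x‖ ^ 2 + -I * (inner ℝ ξ x : ℝ))) := by
    intro x
    rw [real_inner_comm, Complex.ofReal_cos, Complex.cos, Complex.exp_add, Complex.exp_add]
    rw [show ((inner ℝ ξ x : ℝ) : ℂ) * I = I * (inner ℝ ξ x : ℝ) by ring,
      show -((inner ℝ ξ x : ℝ) : ℂ) * I = -I * (inner ℝ ξ x : ℝ) by ring]
    ring
  rw [integral_congr_ae (ae_of_all _ e), integral_const_mul, integral_add i1 i2, h1, h2,
    finrank_euclideanSpace_fin]
  have s1 : (I : ℂ) ^ 2 * (‖ξ‖ : ℂ) ^ 2 / (4 * lam) = -((‖ξ‖ : ℂ) ^ 2 / (4 * lam)) := by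
    rw [Complex.I_sq]; ring
  have s2 : (-I : ℂ) ^ 2 * (‖ξ‖ : ℂ) ^ 2 / (4 * lam) = -((‖ξ‖ : ℂ) ^ 2 / (4 * lam)) := by
    rw [neg_sq, Complex.I_sq]; ring
  rw [s1, s2]
  ring

/-- The norm of the Gaussian integral against a cosine. -/
theorem norm_gauss_cos_le {N : ℕ} {lam : ℂ} (hl : 0 < lam.re) (ξ : EuclideanSpace ℝ (Fin N)) :
    ‖∫ x : EuclideanSpace ℝ (Fin N), ((Real.cos (inner ℝ x ξ) : ℝ) : ℂ) *
        cexp (-lam * ‖x‖ ^ 2)‖ ≤ (π / ‖lam‖) ^ ((N : ℝ) / 2) := by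
  rw [gauss_cos hl, norm_mul]
  have h1 : ‖((π : ℂ) / lam) ^ ((N : ℂ) / 2)‖ = (π / ‖lam‖) ^ ((N : ℝ) / 2) := by
    have : ((N : ℂ) / 2) = (((N : ℝ) / 2 : ℝ) : ℂ) := by push_cast; rfl
    rw [this, Complex.norm_cpow_real, norm_div, Complex.norm_real, Real.norm_eq_abs,
      abs_of_pos Real.pi_pos]
  rw [h1]
  refine mul_le_of_le_one_right (by positivity) ?_
  rw [Complex.norm_exp, Real.exp_le_one_iff]
  have h2 : (‖ξ‖ : ℂ) ^ 2 / (4 * lam) = ((‖ξ‖ ^ 2 / 4 : ℝ) : ℂ) * lam⁻¹ := by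
    push_cast
    rw [mul_comm (4 : ℂ) lam, div_mul_eq_div_div, div_eq_mul_inv, div_eq_mul_inv, div_eq_mul_inv]
    ring
  rw [h2, Complex.neg_re, Complex.re_ofReal_mul, Complex.inv_re, neg_nonpos]
  exact mul_nonneg (by positivity) (div_nonneg hl.le (Complex.normSq_nonneg _))

theorem gauss_norm_integrable {N : ℕ} {lam : ℂ} (hl : 0 < lam.re) :
    Integrable fun x : EuclideanSpace ℝ (Fin N) => cexp (-lam * ‖x‖ ^ 2) := by
  have := GaussianFourier.integrable_cexp_neg_mul_sq_norm_add hl 0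
    (0 : EuclideanSpace ℝ (Fin N))
  simpa using this

/-- The Gaussian bound: a function of positive type, integrated against a complex Gaussian. -/
theorem gauss_bound {N : ℕ} {F : EuclideanSpace ℝ (Fin N) → ℝ}
    {ν : Measure (EuclideanSpace ℝ (Fin N))} [IsFiniteMeasure ν]
    (hF : ∀ x, F x = ∫ ξ, Real.cos (inner ℝ x ξ) ∂ν) {lam : ℂ} (hl : 0 < lam.re) :
    ‖∫ x : EuclideanSpace ℝ (Fin N), (F x : ℂ) * cexp (-lam * ‖x‖ ^ 2)‖ ≤
      (π / ‖lam‖) ^ ((N : ℝ) / 2) * F 0 := by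
  have hF0 : F 0 = ν.real Set.univ := by
    rw [hF 0]
    simp
  have hg := gauss_norm_integrable (N := N) hl
  have hcos : Continuous fun p : EuclideanSpace ℝ (Fin N) × EuclideanSpace ℝ (Fin N) =>
      ((Real.cos (inner ℝ p.1 p.2) : ℝ) : ℂ) := by fun_prop
  have hprod : Integrable (Function.uncurry fun (x ξ : EuclideanSpace ℝ (Fin N)) =>
      ((Real.cos (inner ℝ x ξ) : ℝ) : ℂ) * cexp (-lam * ‖x‖ ^ 2)) (volume.prod ν) := by
    have h0 : Integrable (fun p : EuclideanSpace ℝ (Fin N) × EuclideanSpace ℝ (Fin N) =>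
        cexp (-lam * ‖p.1‖ ^ 2)) (volume.prod ν) := hg.comp_fst ν
    refine h0.mono ?_ (ae_of_all _ fun p => ?_)
    · exact (hcos.aestronglyMeasurable).mul h0.aestronglyMeasurable
    · simp only [Function.uncurry, norm_mul, Complex.norm_real, Real.norm_eq_abs]
      exact mul_le_of_le_one_left (norm_nonneg _) (Real.abs_cos_le_one _)
  have h1 : ∀ x : EuclideanSpace ℝ (Fin N), (F x : ℂ) * cexp (-lam * ‖x‖ ^ 2) =
      ∫ ξ, ((Real.cos (inner ℝ x ξ) : ℝ) : ℂ) * cexp (-lam * ‖x‖ ^ 2) ∂ν := by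
    intro x
    rw [integral_mul_const, hF x, integral_complex_ofReal]
  rw [integral_congr_ae (ae_of_all _ h1), integral_integral_swap hprod]
  refine (norm_integral_le_integral_norm _).trans ?_
  have h2 : ∀ ξ, ‖∫ x : EuclideanSpace ℝ (Fin N), ((Real.cos (inner ℝ x ξ) : ℝ) : ℂ) *
        cexp (-lam * ‖x‖ ^ 2)‖ ≤ (π / ‖lam‖) ^ ((N : ℝ) / 2) := fun ξ => norm_gauss_cos_le hl ξ
  refine (integral_mono_of_nonneg (ae_of_all _ fun _ => norm_nonneg _)
    (integrable_const ((π / ‖lam‖) ^ ((N : ℝ) / 2))) (ae_of_all _ h2)).trans (le_of_eq ?_)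
  rw [integral_const, smul_eq_mul, hF0, mul_comm]

end Pool.Agent.LPX
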