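import Mathlib

/-!
LPX project, row 5: Laplace inversion, as an inequality.
-/

namespace Pool.Agent.LPX

open MeasureTheory Filter Topology Complex
open scoped Real FourierTransform

/-- Laplace inversion, as an inequality. -/
theorem laplace_inv {g : ℝ → ℝ} (hc : Continuous g) (hi : Integrable g) (h0 : ∀ u ≤ 0, g u = 0)
    {c : ℝ} (hc0 : 0 < c)
    (hL : Integrable fun y : ℝ => ∫ v : ℝ, (g v : ℂ) * cexp (-((c : ℂ) + y * I) * v)) (u : ℝ) :
    |g u| ≤ Real.exp (c * u) / (2 * π) *
      ∫ y : ℝ, ‖∫ v : ℝ, (g v : ℂ) * cexp (-((c : ℂ) + y * I) * v)‖ := by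
  set L : ℝ → ℂ := fun y : ℝ => ∫ v : ℝ, (g v : ℂ) * cexp (-((c : ℂ) + y * I) * v) with hLdef
  set h : ℝ → ℂ := fun v : ℝ => (g v : ℂ) * cexp (-(c : ℂ) * v) with hh
  have hcont : Continuous h := by
    rw [hh]
    fun_prop
  have hint : Integrable h := by
    refine Integrable.mono (g := fun v : ℝ => (g v : ℂ)) hi.ofReal hcont.aestronglyMeasurable ?_
    refine ae_of_all _ fun v => ?_
    rw [hh]
    simp only [norm_mul]
    rcases le_or_gt v 0 with hv | hv
    · rw [h0 v hv]; simp
    · refine mul_le_of_le_one_right (norm_nonneg _) ?_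
      rw [Complex.norm_exp]
      have : (-(c : ℂ) * v).re = -(c * v) := by simp
      rw [this]
      exact Real.exp_le_one_iff.2 (by nlinarith)
  have hF : ∀ w : ℝ, 𝓕 h w = L (2 * π * w) := by
    intro w
    rw [Real.fourier_real_eq_integral_exp_smul, hLdef]
    refine integral_congr_ae (ae_of_all _ fun v => ?_)
    simp only [hh, smul_eq_mul]
    rw [← mul_assoc, mul_comm (cexp _), mul_assoc, ← Complex.exp_add]
    congr 2
    push_cast
    ring
  have hFe : 𝓕 h = fun w : ℝ => L (2 * π * w) := funext hF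
  have hFi : Integrable (𝓕 h) := by
    rw [hFe]
    exact hL.comp_mul_left' (by positivity)
  have hinv := MeasureTheory.Integrable.fourierInv_fourier_eq hint hFi (hcont.continuousAt (x := u))
  have h1 : ‖h u‖ ≤ ∫ w : ℝ, ‖𝓕 h w‖ := by
    rw [← hinv, Real.fourierInv_eq]
    refine (norm_integral_le_integral_norm _).trans (le_of_eq ?_)
    refine integral_congr_ae (ae_of_all _ fun w => ?_)
    simp
  have h2 : ∫ w : ℝ, ‖𝓕 h w‖ = (2 * π)⁻¹ * ∫ y : ℝ, ‖L y‖ := by
    rw [hFe]
    have := Measure.integral_comp_mul_left (fun y : ℝ => ‖L y‖) (2 * π)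
    rw [this, abs_of_pos (by positivity), smul_eq_mul]
  have h3 : ‖h u‖ = |g u| * Real.exp (-(c * u)) := by
    rw [hh]
    simp only [norm_mul, Complex.norm_real, Real.norm_eq_abs, Complex.norm_exp]
    congr 2
    simp
  rw [h2, h3] at h1
  have he : 0 < Real.exp (c * u) := Real.exp_pos _
  have h4 := mul_le_mul_of_nonneg_left h1 he.le
  have h5 : Real.exp (c * u) * (|g u| * Real.exp (-(c * u))) = |g u| := by
    rw [mul_comm (|g u|), ← mul_assoc, ← Real.exp_add, add_neg_cancel, Real.exp_zero, one_mul]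
  rw [h5] at h4
  refine h4.trans (le_of_eq ?_)
  rw [div_eq_mul_inv, mul_assoc]

end Pool.Agent.LPX
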