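import Mathlib

/-!
LPX2: the radial density of an integrable, bounded, continuous function on `ℝᴺ`, `N ≥ 3`.
-/

set_option autoImplicit false

namespace Pool.Agent.LPX

open MeasureTheory Filter Topology Set Metric

section polar

variable {E G : Type*} [NormedAddCommGroup E] [NormedSpace ℝ E] [MeasurableSpace E]
  [Nontrivial E] [FiniteDimensional ℝ E] [BorelSpace E] [NormedAddCommGroup G] [NormedSpace ℝ G]

/-- Polar coordinates. -/
theorem polar (μ : Measure E) [μ.IsAddHaarMeasure] {f : E → G} (hf : Integrable f μ) :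
    IntegrableOn (fun ρ : ℝ => ρ ^ (Module.finrank ℝ E - 1) •
      ∫ ω : sphere (0 : E) 1, f (ρ • (ω : E)) ∂μ.toSphere) (Ioi 0) ∧
    ∫ x, f x ∂μ = ∫ ρ in Ioi (0 : ℝ), ρ ^ (Module.finrank ℝ E - 1) •
      ∫ ω : sphere (0 : E) 1, f (ρ • (ω : E)) ∂μ.toSphere := by
  set d := Module.finrank ℝ E - 1 with hd
  set g : sphere (0 : E) 1 × Ioi (0 : ℝ) → G := fun p => f ((p.2 : ℝ) • (p.1 : E)) with hg
  have hgc : ∀ x : ({(0)}ᶜ : Set E), g (homeomorphUnitSphereProd E x) = f x := by
    intro x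
    have h0 : ‖(x : E)‖ ≠ 0 := norm_ne_zero_iff.2 x.2
    simp [hg, smul_smul, h0]
  have hmp := μ.measurePreserving_homeomorphUnitSphereProd
  have hemb := (homeomorphUnitSphereProd E).measurableEmbedding
  have hint : Integrable g (μ.toSphere.prod (Measure.volumeIoiPow d)) := by
    rw [← hmp.integrable_comp_emb hemb]
    have h3 : (g ∘ homeomorphUnitSphereProd E) = fun x : ({(0)}ᶜ : Set E) => f x :=
      funext hgc
    rw [h3]
    have h4 : IntegrableOn f ({(0)}ᶜ : Set E) μ := hf.integrableOn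
    rw [integrableOn_iff_comap_subtypeVal (measurableSet_singleton _).compl] at h4
    exact h4
  have h5 : ∫ x, f x ∂μ = ∫ p, g p ∂(μ.toSphere.prod (Measure.volumeIoiPow d)) := by
    rw [← hmp.integral_comp hemb g]
    simp only [hgc]
    rw [integral_subtype_comap (measurableSet_singleton _).compl, restrict_compl_singleton]
  have h6 : Integrable (fun r : Ioi (0 : ℝ) => ∫ ω, g (ω, r) ∂μ.toSphere)
      (Measure.volumeIoiPow d) := hint.integral_prod_right
  constructor
  · rw [Measure.volumeIoiPow, integrable_withDensity_iff_integrable_smul'] at h6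
    · rw [integrableOn_iff_comap_subtypeVal measurableSet_Ioi]
      refine h6.congr (Eventually.of_forall fun r => ?_)
      simp only [Function.comp]
      rw [ENNReal.toReal_ofReal (pow_nonneg (le_of_lt r.2) _)]
    · fun_prop
    · simp
  · rw [h5, integral_prod_symm _ hint]
    simp only [Measure.volumeIoiPow, ENNReal.ofReal]
    rw [integral_withDensity_eq_integral_smul,
      integral_subtype_comap measurableSet_Ioi fun a : ℝ => Real.toNNReal (a ^ d) •
        ∫ ω : sphere (0 : E) 1, f (a • (ω : E)) ∂μ.toSphere,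
      setIntegral_congr_fun measurableSet_Ioi fun x hx => ?_]
    · rw [NNReal.smul_def, Real.coe_toNNReal _ (pow_nonneg (le_of_lt hx) _)]
    · exact (measurable_subtype_coe.pow_const _).real_toNNReal

end polar

variable {N : ℕ}

/-- The integral over the sphere of radius `ρ`. -/
noncomputable def sph (F : EuclideanSpace ℝ (Fin N) → ℝ) (ρ : ℝ) : ℝ :=
  ∫ ω : sphere (0 : EuclideanSpace ℝ (Fin N)) 1, F (ρ • (ω : EuclideanSpace ℝ (Fin N)))
    ∂(volume : Measure (EuclideanSpace ℝ (Fin N))).toSphere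

/-- The radial density, in the variable `u = ‖x‖²`. -/
noncomputable def rdens (F : EuclideanSpace ℝ (Fin N) → ℝ) (u : ℝ) : ℝ :=
  1 / 2 * √u ^ (N - 2) * sph F √u

theorem sph_continuous {F : EuclideanSpace ℝ (Fin N) → ℝ} (hF : Continuous F)
    (hb : ∃ C, ∀ x, |F x| ≤ C) : Continuous (sph F) := by
  obtain ⟨C, hC⟩ := hb
  refine continuous_of_dominated (bound := fun _ => C) ?_ ?_ (integrable_const C) ?_
  · intro ρ
    have h1 : Continuous fun ω : sphere (0 : EuclideanSpace ℝ (Fin N)) 1 =>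
        F (ρ • (ω : EuclideanSpace ℝ (Fin N))) :=
      hF.comp (by fun_prop)
    exact h1.aestronglyMeasurable
  · intro ρ
    exact ae_of_all _ fun ω => hC _
  · exact ae_of_all _ fun ω => hF.comp (continuous_id.smul continuous_const)

/-- **Row LPX2.** -/
theorem radial_density (hN : 3 ≤ N) {F : EuclideanSpace ℝ (Fin N) → ℝ} (hF : Continuous F)
    (hb : ∃ C, ∀ x, |F x| ≤ C) (hi : Integrable F) :
    ∃ g : ℝ → ℝ, Continuous g ∧ Integrable g ∧ (∀ u, u ≤ 0 → g u = 0) ∧
      (∀ l : ℂ, 0 ≤ l.re → ∫ x, (F x : ℂ) * Complex.exp (-l * (‖x‖ : ℂ) ^ 2) =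
        ∫ u : ℝ, (g u : ℂ) * Complex.exp (-l * u)) ∧
      (∀ r : ℝ, 0 < r → (∀ x, r ≤ ‖x‖ → F x ≤ 0) → ∀ u, r ^ 2 ≤ u → g u ≤ 0) := by
  have : Nonempty (Fin N) := ⟨⟨0, by omega⟩⟩
  have hdim : Module.finrank ℝ (EuclideanSpace ℝ (Fin N)) - 1 = N - 1 := by
    rw [finrank_euclideanSpace_fin]
  have hzero : ∀ u : ℝ, u ≤ 0 → rdens F u = 0 := by
    intro u hu
    rw [rdens, Real.sqrt_eq_zero_of_nonpos hu, zero_pow (by omega)]
    ring
  have hsub : ∀ ρ : ℝ, 0 < ρ → ρ ^ (N - 1) * sph F ρ = 2 * ρ * rdens F (ρ ^ 2) := by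
    intro ρ hρ
    rw [rdens, Real.sqrt_sq hρ.le, show N - 1 = (N - 2) + 1 by omega, pow_succ]
    ring
  have hgi : Integrable (rdens F) := by
    have h1 := (polar (volume : Measure (EuclideanSpace ℝ (Fin N))) hi).1
    rw [hdim] at h1
    have h2 : IntegrableOn (fun ρ : ℝ => (|(2 : ℝ)| * ρ ^ ((2 : ℝ) - 1)) • rdens F (ρ ^ (2 : ℝ)))
        (Ioi 0) := by
      refine h1.congr_fun (fun ρ hρ => ?_) measurableSet_Ioi
      have hρ : 0 < ρ := hρ
      simp only [smul_eq_mul]
      rw [abs_of_pos two_pos, show (2 : ℝ) - 1 = 1 by norm_num, Real.rpow_one, Real.rpow_two,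
        ← hsub ρ hρ]
      rfl
    rw [integrableOn_Ioi_comp_rpow_iff _ (two_ne_zero (α := ℝ))] at h2
    rw [← integrableOn_univ]
    exact h2.of_forall_sdiff_eq_zero MeasurableSet.univ fun x hx => hzero x (by
      simpa using hx.2)
  refine ⟨rdens F, ?_, hgi, hzero, ?_, ?_⟩
  · have := sph_continuous hF hb
    unfold rdens
    exact ((continuous_const.mul (Real.continuous_sqrt.pow _))).mul
      (this.comp Real.continuous_sqrt)
  · intro l hl
    have hf : Integrable (fun x : EuclideanSpace ℝ (Fin N) =>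
        (F x : ℂ) * Complex.exp (-l * (‖x‖ : ℂ) ^ 2)) := by
      refine (hi.ofReal (𝕜 := ℂ)).mul_bdd (c := 1) ?_ ?_
      · exact (by fun_prop : Continuous fun x : EuclideanSpace ℝ (Fin N) =>
          Complex.exp (-l * (‖x‖ : ℂ) ^ 2)).aestronglyMeasurable
      · refine ae_of_all _ fun x => ?_
        rw [Complex.norm_exp]
        have h1 : (-l * (‖x‖ : ℂ) ^ 2).re = -(l.re * ‖x‖ ^ 2) := by
          rw [← Complex.ofReal_pow, neg_mul, Complex.neg_re, Complex.re_mul_ofReal]
        rw [h1, Real.exp_le_one_iff]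
        have := mul_nonneg hl (sq_nonneg ‖x‖)
        linarith
    rw [(polar (volume : Measure (EuclideanSpace ℝ (Fin N))) hf).2, hdim]
    have h2 : ∫ u : ℝ, (rdens F u : ℂ) * Complex.exp (-l * u) =
        ∫ u in Ioi (0 : ℝ), (rdens F u : ℂ) * Complex.exp (-l * u) := by
      symm
      refine setIntegral_eq_integral_of_forall_compl_eq_zero fun u hu => ?_
      rw [hzero u (by simpa using hu)]
      simp
    rw [h2, ← integral_comp_rpow_Ioi (fun u : ℝ => (rdens F u : ℂ) * Complex.exp (-l * u))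
      (two_ne_zero (α := ℝ))]
    refine setIntegral_congr_fun measurableSet_Ioi fun ρ hρ => ?_
    have hρ : 0 < ρ := hρ
    rw [abs_of_pos two_pos, show (2 : ℝ) - 1 = 1 by norm_num, Real.rpow_one, Real.rpow_two]
    have h3 : ∀ ω : sphere (0 : EuclideanSpace ℝ (Fin N)) 1,
        (F (ρ • (ω : EuclideanSpace ℝ (Fin N))) : ℂ) *
          Complex.exp (-l * (‖ρ • (ω : EuclideanSpace ℝ (Fin N))‖ : ℂ) ^ 2) =
        (F (ρ • (ω : EuclideanSpace ℝ (Fin N))) : ℂ) * Complex.exp (-l * (ρ : ℂ) ^ 2) := by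
      intro ω
      have : ‖(ω : EuclideanSpace ℝ (Fin N))‖ = 1 := by simp
      rw [norm_smul, this, mul_one, Real.norm_eq_abs, abs_of_pos hρ]
    simp only [h3]
    have h5 : ∫ ω : sphere (0 : EuclideanSpace ℝ (Fin N)) 1,
        ((F (ρ • (ω : EuclideanSpace ℝ (Fin N))) : ℝ) : ℂ)
          ∂(volume : Measure (EuclideanSpace ℝ (Fin N))).toSphere = ((sph F ρ : ℝ) : ℂ) :=
      integral_ofReal
    rw [integral_mul_const, h5, Complex.real_smul, Complex.real_smul, ← mul_assoc,
      ← Complex.ofReal_mul, hsub ρ hρ]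
    push_cast
    ring
  · intro r hr hneg u hu
    have hu0 : 0 < u := lt_of_lt_of_le (by positivity) hu
    have h1 : r ≤ √u := Real.le_sqrt_of_sq_le hu
    have h2 : sph F √u ≤ 0 := by
      refine integral_nonpos fun ω => ?_
      apply hneg
      have : ‖(ω : EuclideanSpace ℝ (Fin N))‖ = 1 := by simp
      rw [norm_smul, this, mul_one, Real.norm_eq_abs, abs_of_nonneg (Real.sqrt_nonneg _)]
      exact h1
    rw [rdens]
    exact mul_nonpos_of_nonneg_of_nonpos (by positivity) h2

/-- The cosine transform of a finite measure is continuous. -/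
theorem cosT_continuous (ν : Measure (EuclideanSpace ℝ (Fin N))) [IsFiniteMeasure ν] :
    Continuous fun x : EuclideanSpace ℝ (Fin N) => ∫ ξ, Real.cos (inner ℝ x ξ) ∂ν := by
  refine continuous_of_dominated (bound := fun _ => 1) ?_ ?_ (integrable_const _) ?_
  · exact fun x => (by fun_prop : Continuous fun ξ : EuclideanSpace ℝ (Fin N) =>
      Real.cos (inner ℝ x ξ)).aestronglyMeasurable
  · exact fun x => ae_of_all _ fun ξ => by
      simpa [Real.norm_eq_abs] using Real.abs_cos_le_one _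
  · exact ae_of_all _ fun ξ => by fun_prop

/-- The cosine transform of a finite measure is bounded by its value at the origin. -/
theorem cosT_abs_le (ν : Measure (EuclideanSpace ℝ (Fin N))) [IsFiniteMeasure ν]
    (x : EuclideanSpace ℝ (Fin N)) :
    |∫ ξ, Real.cos (inner ℝ x ξ) ∂ν| ≤
      ∫ ξ, Real.cos (inner ℝ (0 : EuclideanSpace ℝ (Fin N)) ξ) ∂ν := by
  have h := norm_integral_le_of_norm_le_const (μ := ν)
    (f := fun ξ => Real.cos (inner ℝ x ξ)) (C := 1)
    (ae_of_all _ fun ξ => by simpa [Real.norm_eq_abs] using Real.abs_cos_le_one _)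
  simpa [Real.norm_eq_abs] using h

end Pool.Agent.LPX
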