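import Pool.Agent.Lib.LPX.Defs
import Pool.Agent.Lib.LPX.Gauss
import Pool.Agent.Lib.LPX.Radial
import Pool.Agent.Lib.LPX.Barrier
import Pool.Agent.Lib.LPX.Asym
import Pool.Agent.Lib.KL.Roots

/-!
LPX project, row 6, part 5: the lower bound for every admissible pair.
-/

namespace Pool.Agent.LPX

open MeasureTheory Filter Topology Finset Complex
open scoped Real
open Pool.Agent.KL

/-- The statement of row 3. -/
def Row3 (m : ℕ) (κ : ℝ) : Prop :=
  ∀ L1 : ℂ → ℂ, DifferentiableOn ℂ L1 {z | 0 < z.re} → (∀ z : ℂ, 0 < z.re → ‖L1 z‖ ≤ 1) →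
    (∀ z : ℂ, 0 < z.re → ‖L1 z‖ ≤ ‖z‖ ^ (-κ)) → ∀ ε : ℝ, 0 < ε → ∀ z : ℂ, 0 ≤ z.re →
      ‖L1 (z + ε)‖ * ‖∏ j ∈ range m, (1 - zt m j * z)‖ ≤ √2

/-- The statement of row 4. -/
def Row4 (m : ℕ) : Prop :=
  ∀ x : ℝ, 0 ≤ x → ∀ y : ℝ, Real.exp (1 / Real.sin (π / (2 * m)) * x - m * x ^ 2) ≤
    ‖∏ j ∈ range m, (1 - zt m j * (x + y * I))‖

lemma one_div_sin_le {m : ℕ} (hm : 1 ≤ m) : 1 / Real.sin (π / (2 * m)) ≤ m := by
  rw [← sum_cos_psi (by omega : 0 < m)]
  calc ∑ j ∈ range m, Real.cos (psi m j) ≤ ∑ _j ∈ range m, (1 : ℝ) :=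
        sum_le_sum fun j _ => Real.cos_le_one _
    _ = m := by simp

theorem barrier_adm {N : ℕ} (hN : 4 ≤ N) {F : EuclideanSpace ℝ (Fin N) → ℝ} {r : ℝ}
    (h : Adm N F r) (h3 : Row3 (2 * (N / 4)) ((N : ℝ) / 2)) (h4 : Row4 (2 * (N / 4)))
    {s : ℝ} (hs : 0 < s) :
    π / 5 * Real.exp ((1 / Real.sin (π / (2 * (2 * (N / 4) : ℕ))) - 1) * s -
      (2 * (N / 4) : ℕ) * s ^ 2) ≤ (π * val N F r) * Real.exp (s * (π * val N F r)) := by
  obtain ⟨hr, hFi, ⟨ν, hν, hF⟩, hneg, hint⟩ := h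
  have hNr : (4 : ℝ) ≤ N := by exact_mod_cast hN
  set m : ℕ := 2 * (N / 4) with hm
  have hm1 : 1 ≤ m := by omega
  have hmle : (m : ℝ) ≤ (N : ℝ) / 2 := by
    have : 2 * m ≤ N := by omega
    have h2 : (2 : ℝ) * m ≤ N := by exact_mod_cast this
    linarith
  have hFe : F = fun x => ∫ ξ, Real.cos (inner ℝ x ξ) ∂ν := funext hF
  have hFc : Continuous F := by
    rw [hFe]
    exact cosT_continuous ν
  have hFb : ∀ x, |F x| ≤ F 0 := by
    intro x
    rw [hF x, hF 0]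
    exact cosT_abs_le ν x
  obtain ⟨g, hgc, hgi, hg0, hgL, hgneg⟩ := radial_density (by omega) hFc ⟨F 0, hFb⟩ hFi
  have hgint : ∫ u, g u = ∫ x, F x := by
    have := hgL 0 (by simp)
    simp only [neg_zero, zero_mul, Complex.exp_zero, mul_one] at this
    have e1 : ∫ x, ((F x : ℝ) : ℂ) = ((∫ x, F x : ℝ) : ℂ) := integral_ofReal
    have e2 : ∫ u, ((g u : ℝ) : ℂ) = ((∫ u, g u : ℝ) : ℂ) := integral_ofReal
    rw [e1, e2] at this
    exact_mod_cast this.symm
  have hgpos : 0 < ∫ u, g u := by rw [hgint]; exact hint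
  have hLap : ∀ z : ℂ, 0 < z.re → ‖Lap g z‖ ≤ (π / ‖z‖) ^ ((N : ℝ) / 2) * F 0 := by
    intro z hz
    have h1 := gauss_bound hF hz
    rw [hgL z hz.le] at h1
    exact h1
  have hF0 : 0 < F 0 := by
    rcases lt_or_ge 0 (F 0) with h | h
    · exact h
    · exfalso
      have : ∀ x, F x = 0 := fun x => by
        have h1 := hFb x
        have h2 := abs_nonneg (F x)
        exact abs_eq_zero.1 (by linarith)
      rw [integral_congr_ae (ae_of_all _ this), integral_zero] at hint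
      exact lt_irrefl _ hint
  have key : ∀ ε : ℝ, 0 < ε → π / 5 * Real.exp ((1 / Real.sin (π / (2 * m)) - 1) * s - m * s ^ 2) ≤
      (π * r ^ 2 * (F 0 / ∫ u, ‖g u‖) ^ (1 / ((N : ℝ) / 2))) *
        Real.exp ((s + ε) * (π * r ^ 2 * (F 0 / ∫ u, ‖g u‖) ^ (1 / ((N : ℝ) / 2)))) := by
    intro ε hε
    exact barrier_eps hgc hgi (fun u hu => hg0 u hu) (by positivity)
      (hgneg r hr hneg) hgpos hF0 (by linarith) hLap
      (B := fun z => ∏ j ∈ range m, (1 - zt m j * z)) ((one_div_sin_le hm1).trans hmle)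
      (Nat.cast_nonneg m) (fun L1 a b c ε hε z hz => h3 L1 a b c ε hε z hz)
      (fun x hx y => h4 x hx y) hs hε
  have hmono : π * r ^ 2 * (F 0 / ∫ u, ‖g u‖) ^ (1 / ((N : ℝ) / 2)) ≤ π * val N F r := by
    rw [val, mul_assoc π]
    have h1 : (1 : ℝ) / ((N : ℝ) / 2) = 2 / N := by field_simp
    rw [h1]
    have h2 : ∫ x, F x ≤ ∫ u, ‖g u‖ := by
      rw [← hgint]
      exact integral_mono hgi hgi.norm fun u => le_abs_self _
    gcongr
  have hX0 : 0 ≤ π * r ^ 2 * (F 0 / ∫ u, ‖g u‖) ^ (1 / ((N : ℝ) / 2)) := by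
    have : 0 ≤ ∫ u, ‖g u‖ := integral_nonneg fun _ => norm_nonneg _
    positivity
  have key2 : ∀ ε : ℝ, 0 < ε →
      π / 5 * Real.exp ((1 / Real.sin (π / (2 * m)) - 1) * s - m * s ^ 2) ≤
      (π * val N F r) * Real.exp ((s + ε) * (π * val N F r)) := by
    intro ε hε
    refine (key ε hε).trans ?_
    refine mul_le_mul hmono ?_ (Real.exp_pos _).le (hX0.trans hmono)
    exact Real.exp_le_exp.2 (mul_le_mul_of_nonneg_left hmono (by linarith))
  have hlim : Tendsto (fun ε : ℝ => (π * val N F r) * Real.exp ((s + ε) * (π * val N F r)))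
      (𝓝[>] 0) (𝓝 ((π * val N F r) * Real.exp ((s + 0) * (π * val N F r)))) := by
    refine Tendsto.mono_left ?_ nhdsWithin_le_nhds
    refine Continuous.tendsto (f := fun ε : ℝ => (π * val N F r) *
      Real.exp ((s + ε) * (π * val N F r))) ?_ 0
    fun_prop
  rw [add_zero] at hlim
  refine ge_of_tendsto hlim ?_
  filter_upwards [self_mem_nhdsWithin] with ε hε
  exact key2 ε hε

/-- **No admissible pair is better than `1 / π²`.** -/
theorem lpx6_of (h3 : ∀ N : ℕ, 4 ≤ N → Row3 (2 * (N / 4)) ((N : ℝ) / 2))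
    (h4 : ∀ N : ℕ, 4 ≤ N → Row4 (2 * (N / 4))) {d : ℝ} (hd : 0 < d) :
    ∀ᶠ N : ℕ in atTop, ∀ (F : EuclideanSpace ℝ (Fin N) → ℝ) (r : ℝ), Adm N F r →
      (1 / π ^ 2 - d) * N ≤ val N F r := by
  have hp := Real.pi_pos
  filter_upwards [X_lower (δ := π * d) (by positivity), eventually_ge_atTop 4] with N hN h4N F r h
  have hv : 0 < val N F r := by
    obtain ⟨hr, hFi, ⟨ν, hν, hF⟩, hneg, hint⟩ := h
    have hF0 : 0 < F 0 := by
      have hFb : ∀ x, |F x| ≤ F 0 := by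
        intro x
        rw [hF x, hF 0]
        exact cosT_abs_le ν x
      rcases lt_or_ge 0 (F 0) with h | h
      · exact h
      · exfalso
        have : ∀ x, F x = 0 := fun x => by
          have h1 := hFb x
          have h2 := abs_nonneg (F x)
          exact abs_eq_zero.1 (by linarith)
        rw [integral_congr_ae (ae_of_all _ this), integral_zero] at hint
        exact lt_irrefl _ hint
    rw [val]
    positivity
  have h1 := hN (π * val N F r) (by positivity)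
    (barrier_adm h4N h (h3 N h4N) (h4 N h4N) (s := π * d) (by positivity))
  have h2 : (1 / π - π * d) * N = π * ((1 / π ^ 2 - d) * N) := by field_simp
  rw [h2] at h1
  exact le_of_mul_le_mul_left h1 hp

end Pool.Agent.LPX
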