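import Pool.Agent.Lib.LPX.Lpx6
import Pool.Agent.Lib.LPX.Asym

/-!
LPX project, row R1: the lower bound for every admissible pair, with rate.
-/

set_option autoImplicit false

namespace Pool.Agent.LPX

open MeasureTheory Filter Topology
open scoped Real

/-- The value of an admissible pair is nonnegative. -/
theorem val_nonneg' {N : ℕ} {F : EuclideanSpace ℝ (Fin N) → ℝ} {r : ℝ} (h : Adm N F r) :
    0 ≤ val N F r := by
  obtain ⟨-, -, ⟨ν, hν, hF⟩, -, hI⟩ := h
  have h0 : 0 ≤ F 0 := by
    rw [hF 0]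
    simp
  unfold val
  positivity

/-- **The barrier with rate**: no admissible pair has a value below `N / π² - √(N log N)`. -/
theorem lower_rate {N : ℕ} (hN : 2 ≤ N) {F : EuclideanSpace ℝ (Fin N) → ℝ} {r : ℝ}
    (h : Adm N F r) : N / π ^ 2 - √(N * Real.log N) ≤ val N F r := by
  have hp := Real.pi_pos
  have hp3 := Real.pi_gt_d2
  have hp4 := Real.pi_lt_d2
  have hv := val_nonneg' h
  rcases lt_or_ge N 4 with hN4 | hN4
  · refine le_trans ?_ hv
    have hN2 : (2 : ℝ) ≤ N := by exact_mod_cast hN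
    have hN3 : (N : ℝ) ≤ 3 := by
      have : N ≤ 3 := by omega
      exact_mod_cast this
    have hl : 0.69 ≤ Real.log N :=
      (by linarith [Real.log_two_gt_d9] : (0.69 : ℝ) ≤ Real.log 2).trans
        (Real.log_le_log (by norm_num) hN2)
    have h1 : (1 : ℝ) ≤ √(N * Real.log N) := by
      rw [Real.one_le_sqrt]
      nlinarith
    have h2 : (N : ℝ) / π ^ 2 ≤ 1 := by
      rw [div_le_one (by positivity)]
      nlinarith
    linarith
  have hN4' : (4 : ℝ) ≤ N := by exact_mod_cast hN4
  have hNpos : (0 : ℝ) < N := by linarith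
  set lg : ℝ := Real.log N with hlg
  have hl : 1.38 ≤ lg := by
    have h4 : Real.log 4 = 2 * Real.log 2 := by
      rw [show (4 : ℝ) = 2 ^ 2 by norm_num, Real.log_pow]
      norm_num
    exact (by rw [h4]; linarith [Real.log_two_gt_d9] : (1.38 : ℝ) ≤ Real.log 4).trans
        (Real.log_le_log (by norm_num) hN4')
  have hexp : Real.exp lg = N := Real.exp_log hNpos
  have hl2 : lg ≤ N / 2 := by
    have h1 : Real.log (N / 2) ≤ N / 2 - 1 := Real.log_le_sub_one_of_pos (by positivity)
    rw [Real.log_div (by positivity) (by norm_num)] at h1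
    linarith [Real.log_two_lt_d9]
  have hl0 : 0 < lg := by linarith
  set s : ℝ := √(lg / N) with hs
  have hs0 : 0 < s := Real.sqrt_pos.2 (by positivity)
  have hss : s * s = lg / N := Real.mul_self_sqrt (by positivity)
  have hss' : N * s ^ 2 = lg := by
    rw [sq, hss]
    field_simp
  have hs1 : s ≤ 0.71 := by
    rw [hs, Real.sqrt_le_left (by norm_num)]
    rw [div_le_iff₀ hNpos]
    linarith
  set q : ℝ := √(N * lg) with hq
  have hsq : s * q = lg := by
    rw [hs, hq, ← Real.sqrt_mul (by positivity)]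
    have : lg / N * (N * lg) = lg ^ 2 := by
      field_simp
    rw [this, Real.sqrt_sq hl0.le]
  by_contra hcon
  rw [not_le] at hcon
  set X : ℝ := π * val N F r with hX
  have hX0 : 0 ≤ X := by positivity
  have hXlt : X ≤ N / π - π * q := by
    have h1 : π * val N F r ≤ π * (N / π ^ 2 - q) := mul_le_mul_of_nonneg_left hcon.le hp.le
    refine h1.trans (le_of_eq ?_)
    field_simp
  have hq0 : 0 ≤ q := Real.sqrt_nonneg _
  have hXN : X ≤ N := by
    refine hXlt.trans ?_
    have h1 : (N : ℝ) / π ≤ N := div_le_self hNpos.le (by linarith)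
    have h2 : 0 ≤ π * q := by positivity
    linarith
  have hb := barrier hN4 h hs0
  rw [← hX] at hb
  set m : ℕ := 2 * (N / 4) with hm
  have hm1 : 1 ≤ m := by omega
  have hmle : (m : ℝ) ≤ N / 2 := by
    have : 2 * m ≤ N := by omega
    have h2 : (2 : ℝ) * m ≤ N := by exact_mod_cast this
    linarith
  have hmge : ((N : ℝ) - 3) / 2 ≤ m := by
    have : N ≤ 2 * m + 3 := by omega
    have h2 : (N : ℝ) ≤ 2 * m + 3 := by exact_mod_cast this
    linarith
  have hS := one_div_sin_ge hm1
  set S := 1 / Real.sin (π / (2 * (m : ℝ))) with hSdef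
  have hS2 : ((N : ℝ) - 3) / π ≤ S := by
    refine le_trans ?_ hS
    rw [div_le_div_iff_of_pos_right hp]
    linarith
  have h1 : s * (((N : ℝ) - 3) / π - 1) - lg / 2 ≤ (S - 1) * s - m * s ^ 2 := by
    have h2 := mul_le_mul_of_nonneg_right hmle (sq_nonneg s)
    have h3 := mul_le_mul_of_nonneg_left hS2 hs0.le
    have h4 : (N : ℝ) / 2 * s ^ 2 = lg / 2 := by rw [← hss']; ring
    rw [h4] at h2
    linarith
  have h2 : X * Real.exp (s * X) ≤ N * Real.exp (s * (N / π - π * q)) :=
    mul_le_mul hXN (Real.exp_le_exp.2 (mul_le_mul_of_nonneg_left hXlt hs0.le))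
      (Real.exp_pos _).le hNpos.le
  have h3 : π / 5 * Real.exp (s * (((N : ℝ) - 3) / π - 1) - lg / 2) ≤
      N * Real.exp (s * (N / π - π * q)) := by
    refine le_trans ?_ (hb.trans h2)
    exact mul_le_mul_of_nonneg_left (Real.exp_le_exp.2 h1) (by positivity)
  have h4 : (N : ℝ) * Real.exp (s * (N / π - π * q)) =
      Real.exp (-((π - 3 / 2) * lg - (3 / π + 1) * s)) *
        Real.exp (s * (((N : ℝ) - 3) / π - 1) - lg / 2) := by
    nth_rw 1 [← hexp]
    rw [← Real.exp_add, ← Real.exp_add]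
    congr 1
    have : s * (N / π - π * q) = s * (N / π) - π * (s * q) := by ring
    rw [this, hsq]
    field_simp
    ring
  rw [h4] at h3
  have h5 := le_of_mul_le_mul_right h3 (Real.exp_pos _)
  have h6 : 3 / π ≤ 0.96 := by
    rw [div_le_iff₀ hp]
    linarith
  have h7 : 0.87 ≤ (π - 3 / 2) * lg - (3 / π + 1) * s := by
    have h8 : (1.64 : ℝ) * 1.38 ≤ (π - 3 / 2) * lg := by
      refine mul_le_mul (by linarith) hl (by norm_num) (by linarith)
    have h9 : (3 / π + 1) * s ≤ 1.96 * 0.71 := by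
      refine mul_le_mul (by linarith) hs1 hs0.le (by norm_num)
    linarith
  have h8 : Real.exp (-((π - 3 / 2) * lg - (3 / π + 1) * s)) ≤ Real.exp (-0.87) :=
    Real.exp_le_exp.2 (by linarith)
  have h9 : Real.exp (-0.87) ≤ 0.6 := by
    rw [Real.exp_neg, inv_le_comm₀ (Real.exp_pos _) (by norm_num)]
    have := Real.add_one_le_exp (0.87 : ℝ)
    have h10 : (0.6 : ℝ)⁻¹ ≤ 0.87 + 1 := by norm_num
    linarith
  have h10 : 0.6 < π / 5 := by linarith
  linarith

end Pool.Agent.LPX
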