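import Pool.Agent.Lib.LPX.Lpx6

/-!
LPX project: the barrier with a rate: every admissible pair has value at least
`N / π² - 2 √(N log N)`, for every `N ≥ 2`.
-/

namespace Pool.Agent.LPX

open MeasureTheory Filter Topology
open scoped Real

theorem Adm.zero_nonneg' {N : ℕ} {F : EuclideanSpace ℝ (Fin N) → ℝ} {r : ℝ} (h : Adm N F r) :
    0 ≤ F 0 := by
  obtain ⟨-, -, ⟨ν, hν, hF⟩, -, -⟩ := h
  rw [hF 0]
  simp

theorem Adm.val_nonneg' {N : ℕ} {F : EuclideanSpace ℝ (Fin N) → ℝ} {r : ℝ} (h : Adm N F r) :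
    0 ≤ val N F r := by
  have h0 := h.zero_nonneg'
  have h1 := h.2.2.2.2
  unfold val
  positivity

/-- The barrier with a rate, in terms of `X`. -/
theorem rate_low_aux {N : ℕ} (hN : 4 ≤ N) {X : ℝ} (hX : 0 ≤ X)
    (h : ∀ s : ℝ, 0 < s →
      π / 5 * Real.exp ((1 / Real.sin (π / (2 * (2 * (N / 4) : ℕ))) - 1) * s -
        (2 * (N / 4) : ℕ) * s ^ 2) ≤ X * Real.exp (s * X)) :
    (N : ℝ) / π - 3 / π - 1 - 5 / 2 * √(N * Real.log N) ≤ X := by
  have hp := Real.pi_pos
  have hp3 := Real.pi_gt_three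
  have hN4 : (4 : ℝ) ≤ N := by exact_mod_cast hN
  have hN0 : (0 : ℝ) < N := by linarith
  set l : ℝ := Real.log N with hl
  have hl1 : 1 ≤ l := by
    rw [hl, Real.le_log_iff_exp_le hN0]
    have := Real.exp_one_lt_d9
    linarith
  set q : ℝ := √(N * l) with hq
  have hq0 : 0 < q := Real.sqrt_pos.2 (by positivity)
  have hq2 : q ^ 2 = N * l := Real.sq_sqrt (by positivity)
  rcases le_or_gt ((N : ℝ) / π) X with hXN | hXN
  · have : 0 < 3 / π := by positivity
    linarith
  set m : ℕ := 2 * (N / 4) with hm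
  have hm1 : 1 ≤ m := by omega
  have hmle : (m : ℝ) ≤ N / 2 := by
    have : 2 * m ≤ N := by omega
    have h2 : (2 : ℝ) * m ≤ N := by exact_mod_cast this
    linarith
  have hmge : ((N : ℝ) - 3) / 2 ≤ m := by
    have : N ≤ 2 * m + 3 := by omega
    have h2 : (N : ℝ) ≤ 2 * m + 3 := by exact_mod_cast this
    linarith
  have hS := one_div_sin_ge hm1
  set S := 1 / Real.sin (π / (2 * (m : ℝ))) with hSdef
  have hS2 : ((N : ℝ) - 3) / π ≤ S := by
    refine le_trans ?_ hS
    rw [div_le_div_iff_of_pos_right hp]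
    linarith
  set s : ℝ := q / N with hs
  have hs0 : 0 < s := by positivity
  have h1 := h s hs0
  have hXpos : 0 < X := by
    rcases hX.lt_or_eq with h' | h'
    · exact h'
    · rw [← h'] at h1
      have : 0 < π / 5 * Real.exp ((S - 1) * s - m * s ^ 2) := by positivity
      simp at h1
      linarith
  have h2 := Real.log_le_log (by positivity) h1
  rw [Real.log_mul (by positivity) (Real.exp_pos _).ne', Real.log_exp,
    Real.log_mul hXpos.ne' (Real.exp_pos _).ne', Real.log_exp] at h2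
  have h3 : -1 ≤ Real.log (π / 5) := by
    have : Real.exp (-1) ≤ π / 5 := by
      have h4 : Real.exp (-1) ≤ 1 / 2 := by
        rw [Real.exp_neg, ← one_div]
        apply one_div_le_one_div_of_le (by norm_num)
        have := Real.add_one_le_exp (1 : ℝ)
        linarith
      linarith
    rwa [Real.le_log_iff_exp_le (by positivity)]
  have h4 : Real.log X ≤ l := by
    refine Real.log_le_log hXpos (hXN.le.trans ?_)
    rw [div_le_iff₀ hp]
    nlinarith
  have h5 : (S - 1) * s - m * s ^ 2 - 1 - l ≤ s * X := by linarith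
  -- divide by s
  have h6 : ((N : ℝ) - 3) / π - 1 - N / 2 * s - (1 + l) / s ≤ X := by
    have h7 : (((N : ℝ) - 3) / π - 1 - N / 2 * s - (1 + l) / s) * s ≤ X * s := by
      have h8 : (1 + l) / s * s = 1 + l := div_mul_cancel₀ _ hs0.ne'
      have h9 : (((N : ℝ) - 3) / π - 1 - N / 2 * s - (1 + l) / s) * s =
          (((N : ℝ) - 3) / π - 1) * s - N / 2 * s ^ 2 - (1 + l) / s * s := by ring
      rw [h9, h8]
      have h10 := mul_le_mul_of_nonneg_right hS2 hs0.le
      have h11 := mul_le_mul_of_nonneg_right hmle (sq_nonneg s)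
      nlinarith
    exact le_of_mul_le_mul_right h7 hs0
  have h7 : (N : ℝ) / 2 * s = q / 2 := by
    rw [hs]
    field_simp
  have h8 : (1 + l) / s ≤ 2 * q := by
    rw [div_le_iff₀ hs0]
    have h9 : 2 * q * s = 2 * l := by
      rw [hs]
      have : 2 * q * (q / N) = 2 * q ^ 2 / N := by ring
      rw [this, hq2]
      field_simp
    rw [h9]
    linarith
  rw [h7] at h6
  have h9 : ((N : ℝ) - 3) / π = N / π - 3 / π := by ring
  rw [h9] at h6
  linarith

/-- **The barrier with a rate.** -/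
theorem rate_low {N : ℕ} (hN : 2 ≤ N) {F : EuclideanSpace ℝ (Fin N) → ℝ} {r : ℝ}
    (h : Adm N F r) : (N : ℝ) / π ^ 2 - 2 * √(N * Real.log N) ≤ val N F r := by
  have hp := Real.pi_pos
  have hp3 := Real.pi_gt_three
  have hv := h.val_nonneg'
  have hN2 : (2 : ℝ) ≤ N := by exact_mod_cast hN
  have hlog : 1 / 2 ≤ Real.log N := by
    have h1 : Real.log 2 ≤ Real.log N := Real.log_le_log (by norm_num) hN2
    have := Real.log_two_gt_d9
    linarith
  have hq1 : 1 ≤ √(N * Real.log N) := by
    rw [Real.one_le_sqrt]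
    nlinarith
  rcases lt_or_ge N 4 with h4 | h4
  · have h5 : (N : ℝ) ≤ 3 := by exact_mod_cast (by omega : N ≤ 3)
    have h6 : (N : ℝ) / π ^ 2 ≤ 1 := by
      rw [div_le_one (by positivity)]
      nlinarith
    linarith
  · have h1 := rate_low_aux h4 (X := π * val N F r) (by positivity)
      fun s hs => barrier h4 h hs
    have h2 : (N : ℝ) / π ^ 2 - (3 / π + 1) / π - 5 / 2 * √(N * Real.log N) / π ≤ val N F r := by
      have h3 : π * ((N : ℝ) / π ^ 2 - (3 / π + 1) / π - 5 / 2 * √(N * Real.log N) / π) =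
          (N : ℝ) / π - 3 / π - 1 - 5 / 2 * √(N * Real.log N) := by
        field_simp
        ring
      rw [← h3] at h1
      exact le_of_mul_le_mul_left h1 hp
    have h5 : (3 / π + 1) / π ≤ 2 / 3 := by
      have h6 : 3 / π ≤ 1 := by rw [div_le_one hp]; exact hp3.le
      rw [div_le_div_iff₀ hp (by norm_num)]
      nlinarith
    have h6 : 5 / 2 * √(N * Real.log N) / π ≤ 5 / 6 * √(N * Real.log N) := by
      rw [div_le_iff₀ hp]
      nlinarith
    linarith

end Pool.Agent.LPX
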