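import Pool.Agent.Lib.LPX.Upper
import Pool.Agent.Lib.LPX.RateLow
import Pool.Agent.Lib.KL.PackMain

/-!
LPX project, row R4: the three bounds with rate.
-/

set_option autoImplicit false

namespace Pool.Agent.LPX

open MeasureTheory Filter Topology Pool.Agent.Lib.MP_ef2672_gt_Tauber
open Pool.Agent.Lib.KL.Pack (Delta)
open scoped Real

/-- The combination of the rows R1, R2, R3. -/
theorem rate_comb
    (h2 : ∃ C : ℝ, ∀ N : ℕ, 2 ≤ N → lp N ≤ N / π ^ 2 + C * √N * Real.log N)
    (h3a : ∀ n : ℕ, 2 ≤ n → Delta n ≤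
      volume.real (Metric.ball (0 : EuclideanSpace ℝ (Fin n)) 1) * (lp n / 4) ^ ((n : ℝ) / 2))
    (h3b : ∀ n : ℕ, 2 ≤ n → volume.real (Metric.ball (0 : EuclideanSpace ℝ (Fin n)) 1) ≤
      (2 * π * Real.exp 1 / n) ^ ((n : ℝ) / 2)) :
    ∃ C : ℝ, ∀ n : ℕ, 2 ≤ n →
      |lp n - n / π ^ 2| ≤ C * √n * Real.log n ∧
      gamma n ≤ n / π ^ 2 + C * √n * Real.log n ∧
      Delta n ≤ (2 : ℝ) ^ (-(Real.logb 2 (2 * π / Real.exp 1) / 2 * n)) *
        Real.exp (C * √n * Real.log n) := by
  obtain ⟨C₀, hC₀⟩ := h2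
  set C₁ : ℝ := max C₀ 0 with hC₁
  have hC₁0 : 0 ≤ C₁ := le_max_right _ _
  set C : ℝ := 5 * C₁ + 3 with hC
  refine ⟨C, fun n hn => ?_⟩
  have hn2 : (2 : ℝ) ≤ n := by exact_mod_cast hn
  have hn0 : (0 : ℝ) < n := by linarith
  have hπ := Real.pi_pos
  have hlog2 := Real.log_two_gt_d9
  have hlog : Real.log 2 ≤ Real.log n := Real.log_le_log (by norm_num) hn2
  have hlog0 : 0 < Real.log n := by linarith
  have hs0 : 0 < √(n : ℝ) := Real.sqrt_pos.2 hn0
  have hsl : 0 < √(n : ℝ) * Real.log n := by positivity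
  -- upper bound for lp
  have hup : lp n ≤ n / π ^ 2 + C₁ * √n * Real.log n := by
    refine (hC₀ n hn).trans ?_
    have h1 : C₀ ≤ C₁ := le_max_left _ _
    have h2 := mul_le_mul_of_nonneg_right h1 hsl.le
    linarith
  have hup' : lp n ≤ n / π ^ 2 + C * √n * Real.log n := by
    have h1 : C₁ ≤ C := by rw [hC]; linarith
    have h2 := mul_le_mul_of_nonneg_right h1 hsl.le
    linarith
  -- lower bound for lp
  have hlow : n / π ^ 2 - 2 * √((n : ℝ) * Real.log n) ≤ lp n :=
    le_lp fun F r hF => rate_low hn hF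
  have hsq : √((n : ℝ) * Real.log n) ≤ 3 / 2 * (√n * Real.log n) := by
    rw [Real.sqrt_mul hn0.le]
    have h1 : √(Real.log n) ≤ 3 / 2 * Real.log n := by
      rw [Real.sqrt_le_left (by positivity)]
      nlinarith
    have h2 := mul_le_mul_of_nonneg_left h1 hs0.le
    linarith
  have hlow' : n / π ^ 2 - C * √n * Real.log n ≤ lp n := by
    refine le_trans ?_ hlow
    have h1 : (3 : ℝ) ≤ C := by rw [hC]; linarith
    have h2 := mul_le_mul_of_nonneg_right h1 hsl.le
    linarith
  refine ⟨?_, (gamma_le_lp (by omega)).trans hup', ?_⟩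
  · rw [abs_le]
    constructor <;> linarith
  · -- the density
    have hlp0 : 0 ≤ lp n := le_lp fun F r hF => hF.val_nonneg
    have h1 : Delta n ≤ (2 * π * Real.exp 1 / n) ^ ((n : ℝ) / 2) * (lp n / 4) ^ ((n : ℝ) / 2) :=
      (h3a n hn).trans (mul_le_mul_of_nonneg_right (h3b n hn) (by positivity))
    rw [← Real.mul_rpow (by positivity) (by positivity)] at h1
    refine h1.trans ?_
    set t : ℝ := π ^ 2 * (C₁ * Real.log n / √n) with ht
    have ht0 : 0 ≤ t := by positivity
    have hsqsq : √(n : ℝ) * √(n : ℝ) = n := Real.mul_self_sqrt hn0.le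
    have h2 : 2 * π * Real.exp 1 / n * (lp n / 4) ≤ Real.exp 1 / (2 * π) * (1 + t) := by
      have h3 : 2 * π * Real.exp 1 / n * (lp n / 4) ≤
          2 * π * Real.exp 1 / n * ((n / π ^ 2 + C₁ * √n * Real.log n) / 4) := by
        gcongr
      refine h3.trans (le_of_eq ?_)
      rw [ht]
      have h4 : C₁ * √(n : ℝ) * Real.log n / n = C₁ * Real.log n / √n := by
        rw [div_eq_div_iff hn0.ne' hs0.ne']
        linear_combination (C₁ * Real.log n) * hsqsq
      have h5 : 2 * π * Real.exp 1 / n * ((n / π ^ 2 + C₁ * √n * Real.log n) / 4) =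
          Real.exp 1 / (2 * π) * (1 + π ^ 2 * (C₁ * √n * Real.log n / n)) := by
        field_simp
        ring
      rw [h5, h4]
    have h6 : (2 * π * Real.exp 1 / n * (lp n / 4)) ^ ((n : ℝ) / 2) ≤
        (Real.exp 1 / (2 * π) * (1 + t)) ^ ((n : ℝ) / 2) :=
      Real.rpow_le_rpow (by positivity) h2 (by positivity)
    refine h6.trans ?_
    rw [Real.mul_rpow (by positivity) (by positivity)]
    have h7 : (Real.exp 1 / (2 * π)) ^ ((n : ℝ) / 2) =
        (2 : ℝ) ^ (-(Real.logb 2 (2 * π / Real.exp 1) / 2 * n)) := by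
      have h8 : Real.exp 1 / (2 * π) = (2 : ℝ) ^ (-Real.logb 2 (2 * π / Real.exp 1)) := by
        rw [Real.rpow_neg (by norm_num), Real.rpow_logb (by norm_num) (by norm_num) (by positivity),
          inv_div]
      rw [h8, ← Real.rpow_mul (by norm_num)]
      congr 1
      ring
    have h9 : (1 + t) ^ ((n : ℝ) / 2) ≤ Real.exp (C * √n * Real.log n) := by
      have h10 : (1 + t) ^ ((n : ℝ) / 2) ≤ (Real.exp t) ^ ((n : ℝ) / 2) := by
        refine Real.rpow_le_rpow (by positivity) ?_ (by positivity)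
        linarith [Real.add_one_le_exp t]
      refine h10.trans ?_
      rw [← Real.exp_mul, Real.exp_le_exp, ht]
      have h11 : π ^ 2 ≤ 10 := by
        have := Real.pi_lt_d2
        nlinarith
      have h12 : C₁ * Real.log n / √n * n = C₁ * (√n * Real.log n) := by
        rw [div_mul_eq_mul_div, div_eq_iff hs0.ne']
        linear_combination (-(C₁ * Real.log n)) * hsqsq
      have h13 : π ^ 2 * (C₁ * Real.log n / √n) * ((n : ℝ) / 2) =
          π ^ 2 / 2 * (C₁ * (√n * Real.log n)) := by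
        rw [← h12]
        ring
      rw [h13]
      have h14 : π ^ 2 / 2 * (C₁ * (√n * Real.log n)) ≤ 5 * (C₁ * (√n * Real.log n)) :=
        mul_le_mul_of_nonneg_right (by linarith) (by positivity)
      have h15 : 5 * (C₁ * (√n * Real.log n)) ≤ C * √n * Real.log n := by
        rw [hC]
        linarith
      linarith
    rw [h7]
    exact mul_le_mul_of_nonneg_left h9 (by positivity)

end Pool.Agent.LPX
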