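import Pool.Agent.Lib.LPX.Upper

/-!
LPX project, row R2: the upper half with rate.
-/

set_option autoImplicit false

namespace Pool.Agent.LPX

open MeasureTheory Filter Topology
open scoped Real

/-- The test functions with explicit constants. -/
theorem testAt' {n : ℕ} (hn : 10 ≤ n) (he : Even n) :
    TestAt (4 * n) (2 / Real.sin (π / (2 * n)) + 23 * √n * (1 + Real.log n))
      (9 * π * Real.exp 9 * Real.exp (6 * √n) / π ^ (2 * n)) := by
  obtain ⟨ν, F, hν, hF, hi, hpos, hneg, hq⟩ := Pool.Agent.KL.test_fun hn he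
  have hR : 0 < 2 / Real.sin (π / (2 * n)) + 23 * √n * (1 + Real.log n) := by
    have hn0 : (10 : ℝ) ≤ n := by exact_mod_cast hn
    have h1 : 0 < Real.sin (π / (2 * n)) := by
      apply Real.sin_pos_of_pos_of_lt_pi (by positivity)
      rw [div_lt_iff₀ (by positivity)]
      nlinarith [Real.pi_pos]
    have h2 : 0 ≤ Real.log n := Real.log_nonneg (by linarith)
    positivity
  refine ⟨F, ⟨Real.sqrt_pos.2 hR, hi, ⟨ν, hν, fun x => ?_⟩, fun x hx => ?_, hpos⟩, ?_⟩
  · rw [hF x]
    simp only [real_inner_comm]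
  · refine hneg x ?_
    have h1 := pow_le_pow_left₀ (Real.sqrt_nonneg _) hx 2
    rwa [Real.sq_sqrt hR.le] at h1
  · simpa using hq

theorem inv_sin_le {y : ℝ} (h0 : 0 < y) (h1 : y ≤ 1) : 1 / Real.sin y ≤ 1 / y + y / 3 := by
  have hs : y - y ^ 3 / 6 ≤ Real.sin y := by
    have := Real.sin_gt_sub_cube h0
    have h3 : 0 < y ^ 3 := by positivity
    linarith
  have h2 : 0 < y - y ^ 3 / 6 := by
    have : y ^ 3 ≤ y := by nlinarith [mul_nonneg h0.le (sub_nonneg.2 h1), sq_nonneg y]
    linarith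
  refine (one_div_le_one_div_of_le h2 hs).trans ?_
  rw [div_le_iff₀ h2]
  have h3 : (1 / y + y / 3) * (y - y ^ 3 / 6) = 1 + y ^ 2 / 6 - y ^ 4 / 18 := by
    field_simp
    ring
  rw [h3]
  have h4 : y ^ 4 ≤ y ^ 2 := by
    have : y ^ 2 ≤ 1 := by nlinarith
    nlinarith [sq_nonneg y]
  nlinarith [sq_nonneg y]

theorem R_le {N n : ℕ} (hN : 33 ≤ N) (hn : 4 * n ≤ N + 7) (hn10 : 10 ≤ n) :
    2 / Real.sin (π / (2 * n)) + 23 * √n * (1 + Real.log n) ≤
      N / π + 75 * (√N * Real.log N) := by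
  have hp := Real.pi_pos
  have hp3 := Real.pi_gt_three
  have hp4 := Real.pi_le_four
  have hnR : (10 : ℝ) ≤ n := by exact_mod_cast hn10
  have hNR : (33 : ℝ) ≤ N := by exact_mod_cast hN
  have hnN : (n : ℝ) ≤ N := by exact_mod_cast (by omega : n ≤ N)
  have h4 : 4 * (n : ℝ) ≤ N + 7 := by exact_mod_cast hn
  have hy0 : 0 < π / (2 * n) := by positivity
  have hy1 : π / (2 * n) ≤ 1 := by
    rw [div_le_one (by positivity)]
    linarith
  have h1 : 2 / Real.sin (π / (2 * n)) ≤ 4 * n / π + 1 := by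
    have h := inv_sin_le hy0 hy1
    have h2 : 2 / Real.sin (π / (2 * n)) = 2 * (1 / Real.sin (π / (2 * n))) := by ring
    rw [h2]
    have h3 : 2 * (1 / (π / (2 * n))) = 4 * n / π := by
      field_simp
      ring
    linarith
  have h2 : 4 * (n : ℝ) / π ≤ N / π + 3 := by
    rw [div_add' _ _ _ hp.ne', div_le_div_iff_of_pos_right hp]
    linarith
  have hs : √(n : ℝ) ≤ √N := Real.sqrt_le_sqrt hnN
  have hlog : Real.log n ≤ Real.log N := Real.log_le_log (by linarith) hnN
  have hl : 0.69 ≤ Real.log N :=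
      (by linarith [Real.log_two_gt_d9] : (0.69 : ℝ) ≤ Real.log 2).trans
        (Real.log_le_log (by norm_num) (by linarith))
  have hln : 0 ≤ Real.log n := Real.log_nonneg (by linarith)
  have hsN : (5 : ℝ) ≤ √N := Real.le_sqrt_of_sq_le (by linarith)
  have h3 : √(n : ℝ) * (1 + Real.log n) ≤ √N * (3 * Real.log N) :=
    mul_le_mul hs (by linarith) (by positivity) (by positivity)
  have h5 : (4 : ℝ) ≤ 6 * (√N * Real.log N) := by nlinarith
  nlinarith

/-- **The upper half with rate.** -/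
theorem upper_rate_large : ∃ C : ℝ, 0 ≤ C ∧ ∀ N : ℕ, 33 ≤ N →
    lp N ≤ N / π ^ 2 + C * (√N * Real.log N) := by
  have hp := Real.pi_pos
  have hp3 := Real.pi_gt_three
  set B : ℝ := 9 * π * Real.exp 9 with hB
  have hB1 : 1 ≤ B := by
    have h1 : 1 ≤ Real.exp 9 := Real.one_le_exp (by norm_num)
    nlinarith
  set c : ℝ := 69 + Real.log B with hc
  have hc0 : 0 ≤ c := by
    have := Real.log_nonneg hB1
    linarith
  set C2 : ℝ := 2 * c * Real.exp (2 * c) with hC2
  have hC20 : 0 ≤ C2 := by positivity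
  refine ⟨75 + 2 * C2 + 75 * C2, by positivity, fun N hN => ?_⟩
  obtain ⟨j, k, hk, hjk⟩ : ∃ j k : ℕ, k ≤ 7 ∧ 4 * (2 * j) = N + k :=
    ⟨(N + 7) / 8, 8 * ((N + 7) / 8) - N, by omega, by omega⟩
  set n : ℕ := 2 * j with hn
  have hn10 : 10 ≤ n := by omega
  have hnR : (10 : ℝ) ≤ n := by exact_mod_cast hn10
  have hNR : (33 : ℝ) ≤ N := by exact_mod_cast hN
  have hNpos : (0 : ℝ) < N := by linarith
  have hnN : (n : ℝ) ≤ N := by exact_mod_cast (by omega : n ≤ N)
  have hRle := R_le hN (by omega : 4 * n ≤ N + 7) hn10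
  have htest := testAt' hn10 (even_two_mul j)
  rw [hjk] at htest
  set R : ℝ := 2 / Real.sin (π / (2 * n)) + 23 * √n * (1 + Real.log n) with hR
  obtain ⟨F, hF, hFq⟩ := htest
  have hR0 : 0 < R := Real.sqrt_pos.1 hF.1
  obtain ⟨F', hF', hq'⟩ := adm_steps k hF one_pos
  refine (lp_le hF').trans ?_
  have hk7 : (k : ℝ) ≤ 7 := by exact_mod_cast hk
  have hN4 : (4 * n : ℝ) = N + k := by exact_mod_cast hjk
  have hk0 : (0 : ℝ) ≤ k := Nat.cast_nonneg k
  have hF0 := hF.zero_nonneg
  have hF'0 := hF'.zero_nonneg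
  have hFi := hF.2.2.2.2
  have hF'i := hF'.2.2.2.2
  have hsn : 3 ≤ √(n : ℝ) := Real.le_sqrt_of_sq_le (by linarith)
  have hsqn : √(n : ℝ) * √n = n := Real.mul_self_sqrt (by linarith)
  have hsN : 5 ≤ √(N : ℝ) := Real.le_sqrt_of_sq_le (by linarith)
  have hsqN : √(N : ℝ) * √N = N := Real.mul_self_sqrt (by linarith)
  have hl : 0.69 ≤ Real.log N :=
      (by linarith [Real.log_two_gt_d9] : (0.69 : ℝ) ≤ Real.log 2).trans
        (Real.log_le_log (by norm_num) (by linarith))
  -- crude bound for the radius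
  have hR100 : √R ≤ 80 * n := by
    rw [Real.sqrt_le_left (by linarith)]
    have h1 : Real.log N ≤ N := (Real.log_le_sub_one_of_pos hNpos).trans (by linarith)
    have h2 : √(N : ℝ) ≤ N := by nlinarith
    have h3 : √(N : ℝ) * Real.log N ≤ N * N :=
      mul_le_mul h2 h1 (by linarith) hNpos.le
    have h4 : (N : ℝ) / π ≤ N * N := by
      rw [div_le_iff₀ hp]
      nlinarith
    have h5 : (N : ℝ) ≤ 4 * n := by linarith
    nlinarith
  set Y : ℝ := (320 * n) ^ 7 * (B * Real.exp (6 * √n)) with hY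
  have hY0 : 0 < Y := by positivity
  have hyx : F' 0 / (∫ z, F' z) ≤ Y * π⁻¹ ^ (2 * n) := by
    refine hq'.trans ?_
    have h6 : ((1 + 1) * (2 * √R)) ^ k ≤ (320 * n) ^ 7 := by
      calc ((1 + 1) * (2 * √R)) ^ k ≤ (320 * n : ℝ) ^ k :=
            pow_le_pow_left₀ (by positivity) (by linarith) k
        _ ≤ (320 * n) ^ 7 := pow_le_pow_right₀ (by linarith) hk
    have h8 : 0 ≤ F 0 / ∫ z, F z := by positivity
    calc ((1 + 1) * (2 * √R)) ^ k * (F 0 / ∫ z, F z) ≤ (320 * n) ^ 7 *
          (B * Real.exp (6 * √n) / π ^ (2 * n)) :=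
          mul_le_mul h6 hFq h8 (by positivity)
      _ = Y * π⁻¹ ^ (2 * n) := by
          rw [hY, inv_pow]
          ring
  have hy0 : 0 ≤ F' 0 / (∫ z, F' z) := by positivity
  have hlogY : Real.log Y ≤ c * √n := by
    have hB0 : B ≠ 0 := by positivity
    rw [hY, Real.log_mul (by positivity) (by positivity), Real.log_pow,
      Real.log_mul hB0 (Real.exp_ne_zero _), Real.log_exp]
    have h1 : Real.log (320 * n) ≤ 9 * √n := by
      have h2 : Real.log (320 * n) = Real.log 320 + 2 * Real.log (√n) := by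
        rw [Real.log_mul (by norm_num) (by positivity), Real.log_sqrt (by positivity)]
        ring
      have h3 : Real.log (√n) ≤ √n - 1 := Real.log_le_sub_one_of_pos (by linarith)
      have h4 : Real.log 320 ≤ 7 := by
        have h5 : Real.log 320 ≤ Real.log (2 ^ 9) := Real.log_le_log (by norm_num) (by norm_num)
        rw [Real.log_pow] at h5
        have := Real.log_two_lt_d9
        push_cast at h5
        linarith
      rw [h2]
      linarith
    have h2 : Real.log B ≤ Real.log B * √n :=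
      le_mul_of_one_le_right (Real.log_nonneg hB1) (by linarith)
    rw [hc]
    push_cast
    nlinarith
  have h9 : (F' 0 / (∫ z, F' z)) ^ ((2 : ℝ) / N) ≤ 1 / π * (1 + C2 / √N) := by
    refine (Real.rpow_le_rpow hy0 hyx (by positivity)).trans ?_
    rw [Real.mul_rpow hY0.le (by positivity), mul_comm]
    refine mul_le_mul ?_ ?_ (by positivity) (by positivity)
    · rw [← Real.rpow_natCast, ← Real.rpow_mul (by positivity), one_div]
      have h1 : (1 : ℝ) ≤ ((2 * n : ℕ) : ℝ) * (2 / N) := by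
        push_cast
        rw [mul_div_assoc', le_div_iff₀ hNpos]
        linarith
      have h2 : π⁻¹ ≤ 1 := inv_le_one_of_one_le₀ (by linarith)
      calc π⁻¹ ^ (((2 * n : ℕ) : ℝ) * (2 / N)) ≤ π⁻¹ ^ (1 : ℝ) :=
            Real.rpow_le_rpow_of_exponent_ge (by positivity) h2 h1
        _ = π⁻¹ := Real.rpow_one _
    · rw [Real.rpow_def_of_pos hY0]
      have h1 : Real.log Y * (2 / N) ≤ 2 * c / √N := by
        have h2 : Real.log Y * (2 / N) ≤ c * √n * (2 / N) :=
          mul_le_mul_of_nonneg_right hlogY (by positivity)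
        have h3 : √(n : ℝ) ≤ √N := Real.sqrt_le_sqrt hnN
        have h4 : c * √n * (2 / N) ≤ c * √N * (2 / N) := by gcongr
        have h5 : c * √N * (2 / N) = 2 * c / √N := by
          have h6 : √(N : ℝ) / N = 1 / √N := Real.sqrt_div_self'
          have h7 : c * √N * (2 / N) = 2 * c * (√N / N) := by ring
          rw [h7, h6]
          ring
        linarith
      refine (Real.exp_le_exp.2 h1).trans ?_
      have hu0 : 0 ≤ 2 * c / √N := by positivity
      have hu1 : 2 * c / √N ≤ 2 * c := div_le_self (by positivity) (by linarith)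
      have h2 : Real.exp (2 * c / √N) ≤ 1 + 2 * c / √N * Real.exp (2 * c / √N) := by
        have h3 := Real.add_one_le_exp (-(2 * c / √N))
        have h4 : Real.exp (2 * c / √N) * Real.exp (-(2 * c / √N)) = 1 := by
          rw [← Real.exp_add, add_neg_cancel, Real.exp_zero]
        have h5 := Real.exp_pos (2 * c / √N)
        nlinarith
      refine h2.trans ?_
      have h3 : Real.exp (2 * c / √N) ≤ Real.exp (2 * c) := Real.exp_le_exp.2 hu1
      have h4 : 2 * c / √N * Real.exp (2 * c / √N) ≤ 2 * c / √N * Real.exp (2 * c) :=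
        mul_le_mul_of_nonneg_left h3 hu0
      have h5 : 2 * c / √N * Real.exp (2 * c) = C2 / √N := by
        rw [hC2]; ring
      linarith
  unfold val
  rw [Real.sq_sqrt hR0.le]
  set T : ℝ := √N * Real.log N with hT
  have hT1 : √(N : ℝ) ≤ 2 * T := by
    rw [hT]
    nlinarith
  have hT0 : 0 ≤ T := by positivity
  have h10 : R * (F' 0 / (∫ z, F' z)) ^ ((2 : ℝ) / N) ≤
      (N / π + 75 * T) * (1 / π * (1 + C2 / √N)) :=
    mul_le_mul hRle h9 (by positivity) (by positivity)
  refine h10.trans ?_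
  have h11 : (N / π + 75 * T) * (1 / π * (1 + C2 / √N)) =
      N / π ^ 2 + (75 * T / π + C2 * √N / π ^ 2 + 75 * C2 * (T / √N) / π) := by
    have h12 : (N : ℝ) / √N = √N := by
      rw [div_eq_iff (by linarith)]
      exact hsqN.symm
    have h13 : (N / π + 75 * T) * (1 / π * (1 + C2 / √N)) =
      N / π ^ 2 + (75 * T / π + C2 * (N / √N) / π ^ 2 + 75 * C2 * (T / √N) / π) := by
      field_simp
      ring
    rw [h13, h12]
  rw [h11]
  have h12 : 75 * T / π ≤ 75 * T := div_le_self (by positivity) (by linarith)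
  have h13 : C2 * √N / π ^ 2 ≤ C2 * (2 * T) := by
    refine (div_le_self (by positivity) (by nlinarith)).trans ?_
    exact mul_le_mul_of_nonneg_left hT1 hC20
  have h14 : 75 * C2 * (T / √N) / π ≤ 75 * C2 * T := by
    refine (div_le_self (by positivity) (by linarith)).trans ?_
    exact mul_le_mul_of_nonneg_left (div_le_self hT0 (by linarith)) (by positivity)
  nlinarith

/-- **The upper half with rate, in all dimensions.** -/
theorem upper_rate : ∃ C : ℝ, ∀ N : ℕ, 2 ≤ N → lp N ≤ N / π ^ 2 + C * √N * Real.log N := by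
  obtain ⟨C, hC0, hC⟩ := upper_rate_large
  set C0 : ℝ := ∑ N ∈ Finset.range 33, |lp N| with hC0'
  have hC00 : 0 ≤ C0 := Finset.sum_nonneg fun _ _ => abs_nonneg _
  refine ⟨C + 2 * C0, fun N hN => ?_⟩
  have hN2 : (2 : ℝ) ≤ N := by exact_mod_cast hN
  have hl : 0.69 ≤ Real.log N :=
      (by linarith [Real.log_two_gt_d9] : (0.69 : ℝ) ≤ Real.log 2).trans
        (Real.log_le_log (by norm_num) (by linarith))
  have hs : 1 ≤ √(N : ℝ) := Real.le_sqrt_of_sq_le (by linarith)
  have hT : 1 / 2 ≤ √(N : ℝ) * Real.log N := by nlinarith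
  have h0 : (0 : ℝ) ≤ N / π ^ 2 := by positivity
  rw [mul_assoc]
  rcases lt_or_ge N 33 with h | h
  · have h1 : |lp N| ≤ C0 :=
      Finset.single_le_sum (f := fun N => |lp N|) (fun _ _ => abs_nonneg _) (Finset.mem_range.2 h)
    have h2 : lp N ≤ |lp N| := le_abs_self _
    have h3 : C0 ≤ (C + 2 * C0) * (√(N : ℝ) * Real.log N) := by nlinarith
    linarith
  · refine (hC N h).trans ?_
    have h3 : C * (√(N : ℝ) * Real.log N) ≤ (C + 2 * C0) * (√(N : ℝ) * Real.log N) :=
      mul_le_mul_of_nonneg_right (by linarith) (by linarith)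
    linarith

end Pool.Agent.LPX
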