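import Mathlib
import Pool.Agent.Lib.LPX.Defs

/-!
LPX project: passage from dimension `N + k` to dimension `N` (helper30).
-/

namespace Pool.Agent.LPX

open MeasureTheory Filter Topology
open scoped Real

namespace Red

noncomputable section

variable {N : ℕ}

/-- `ℝᴺ × ℝ` and `ℝᴺ⁺¹`. -/
def ψ (N : ℕ) : EuclideanSpace ℝ (Fin N) × ℝ ≃ᵐ EuclideanSpace ℝ (Fin (N + 1)) :=
  (MeasurableEquiv.prodCongr (MeasurableEquiv.toLp 2 (Fin N → ℝ)).symm (MeasurableEquiv.refl ℝ)).trans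
    (MeasurableEquiv.prodComm.trans ((MeasurableEquiv.piFinSuccAbove (fun _ => ℝ) 0).symm.trans
      (MeasurableEquiv.toLp 2 (Fin (N + 1) → ℝ))))

lemma ψ_zero (p : EuclideanSpace ℝ (Fin N) × ℝ) : ψ N p 0 = p.2 := rfl

lemma ψ_succ (p : EuclideanSpace ℝ (Fin N) × ℝ) (i : Fin N) : ψ N p i.succ = p.1 i := rfl

lemma ψ_mp : MeasurePreserving (ψ N) := by
  unfold ψ
  refine MeasurePreserving.trans (μb := volume) ?_ (MeasurePreserving.trans (μb := volume) ?_
    (MeasurePreserving.trans (μb := volume) ?_ ?_))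
  · exact (PiLp.volume_preserving_ofLp (Fin N)).prod (MeasurePreserving.id volume)
  · exact Measure.measurePreserving_swap
  · exact (volume_preserving_piFinSuccAbove (fun _ => ℝ) 0).symm
  · exact PiLp.volume_preserving_toLp (Fin (N + 1))

lemma ψ_norm (x : EuclideanSpace ℝ (Fin N)) (t : ℝ) : ‖ψ N (x, t)‖ ^ 2 = ‖x‖ ^ 2 + t ^ 2 := by
  rw [EuclideanSpace.norm_sq_eq, EuclideanSpace.norm_sq_eq, Fin.sum_univ_succ]
  simp only [ψ_zero, ψ_succ, Real.norm_eq_abs, sq_abs]
  ring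

/-- Forget the first coordinate. -/
def tl (N : ℕ) (ξ : EuclideanSpace ℝ (Fin (N + 1))) : EuclideanSpace ℝ (Fin N) :=
  WithLp.toLp 2 fun i => ξ i.succ

lemma tl_cont : Continuous (tl N) := by
  unfold tl
  fun_prop

lemma inner_ψ (x : EuclideanSpace ℝ (Fin N)) (t : ℝ) (ξ : EuclideanSpace ℝ (Fin (N + 1))) :
    inner ℝ (ψ N (x, t)) ξ = inner ℝ x (tl N ξ) + t * ξ 0 := by
  rw [PiLp.inner_apply, PiLp.inner_apply, Fin.sum_univ_succ]
  simp only [ψ_zero, ψ_succ, tl, RCLike.inner_apply, conj_trivial]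
  ring

/-- The cosine transform of the Gaussian. -/
lemma gauss_cos {a : ℝ} (ha : 0 < a) (b c : ℝ) :
    ∫ t : ℝ, Real.cos (b + t * c) * Real.exp (-a * t ^ 2) =
      Real.cos b * (√(π / a) * Real.exp (-c ^ 2 / (4 * a))) := by
  have h := fourierIntegral_gaussian (b := (a : ℂ)) (by simpa using ha) (c : ℂ)
  have h1 : (fun t : ℝ => ((Real.cos (b + t * c) * Real.exp (-a * t ^ 2) : ℝ))) =
      fun t : ℝ => (Complex.exp (Complex.I * b) *
        (Complex.exp (Complex.I * c * t) * Complex.exp (-a * t ^ 2))).re := by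
    funext t
    rw [← mul_assoc, ← Complex.exp_add]
    have h2 : Complex.exp (-(a : ℂ) * (t : ℂ) ^ 2) = ((Real.exp (-a * t ^ 2) : ℝ) : ℂ) := by
      push_cast; rfl
    have h3 : Complex.I * (b : ℂ) + Complex.I * c * t = ((b + t * c : ℝ) : ℂ) * Complex.I := by
      push_cast; ring
    rw [h2, h3, Complex.re_mul_ofReal, Complex.exp_ofReal_mul_I_re]
  rw [h1]
  have h4 : Integrable fun t : ℝ => Complex.exp (Complex.I * b) *
        (Complex.exp (Complex.I * c * t) * Complex.exp (-a * t ^ 2)) := by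
    refine Integrable.const_mul ?_ _
    have := integrable_cexp_quadratic (b := (a : ℂ)) (by simpa using ha) (Complex.I * c) 0
    refine this.congr (Eventually.of_forall fun t => ?_)
    simp only
    rw [← Complex.exp_add]
    congr 1
    ring
  have h5 := integral_re h4
  simp only [RCLike.re_to_complex] at h5
  rw [h5, integral_const_mul, h]
  have h6 : ((π : ℂ) / a) ^ (1 / 2 : ℂ) = ((√(π / a) : ℝ) : ℂ) := by
    rw [Real.sqrt_eq_rpow, Complex.ofReal_cpow (by positivity)]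
    push_cast
    rfl
  have h7 : Complex.exp (-(c : ℂ) ^ 2 / (4 * a)) = ((Real.exp (-c ^ 2 / (4 * a)) : ℝ) : ℂ) := by
    push_cast
    rfl
  rw [h6, h7, ← Complex.ofReal_mul, Complex.re_mul_ofReal]
  congr 1
  rw [mul_comm, Complex.exp_ofReal_mul_I_re]

lemma cos_int {n : ℕ} (ν : Measure (EuclideanSpace ℝ (Fin n))) [IsFiniteMeasure ν]
    (x : EuclideanSpace ℝ (Fin n)) : Integrable (fun ξ => Real.cos (inner ℝ x ξ)) ν := by
  refine Integrable.of_bound (C := 1) (by fun_prop) (Eventually.of_forall fun ξ => ?_)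
  rw [Real.norm_eq_abs]
  exact Real.abs_cos_le_one _

section

variable {n : ℕ} {F : EuclideanSpace ℝ (Fin n) → ℝ} {ν : Measure (EuclideanSpace ℝ (Fin n))}
  [IsFiniteMeasure ν]

omit [IsFiniteMeasure ν] in
lemma F_zero (hF : ∀ x, F x = ∫ ξ, Real.cos (inner ℝ x ξ) ∂ν) : F 0 = ν.real Set.univ := by
  rw [hF]
  simp

omit [IsFiniteMeasure ν] in
lemma F_zero_nonneg (hF : ∀ x, F x = ∫ ξ, Real.cos (inner ℝ x ξ) ∂ν) : 0 ≤ F 0 := by
  rw [F_zero hF]
  exact measureReal_nonneg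

lemma F_abs_le (hF : ∀ x, F x = ∫ ξ, Real.cos (inner ℝ x ξ) ∂ν) (x) : |F x| ≤ F 0 := by
  rw [F_zero hF, hF, ← Real.norm_eq_abs]
  refine (norm_integral_le_of_norm_le_const (C := 1) (Eventually.of_forall fun ξ => ?_)).trans ?_
  · rw [Real.norm_eq_abs]
    exact Real.abs_cos_le_one _
  · simp

lemma F_cont (hF : ∀ x, F x = ∫ ξ, Real.cos (inner ℝ x ξ) ∂ν) : Continuous F := by
  have h : F = fun x => ∫ ξ, Real.cos (inner ℝ x ξ) ∂ν := funext hF
  rw [h]
  refine continuous_of_dominated (bound := fun _ => 1) (fun x => (cos_int ν x).aestronglyMeasurable)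
    (fun x => Eventually.of_forall fun ξ => ?_) (integrable_const _)
    (Eventually.of_forall fun ξ => by fun_prop)
  rw [Real.norm_eq_abs]
  exact Real.abs_cos_le_one _

end

/-- The partial integral with a Gaussian weight. -/
def red (F : EuclideanSpace ℝ (Fin (N + 1)) → ℝ) (a : ℝ) (x : EuclideanSpace ℝ (Fin N)) : ℝ :=
  ∫ t : ℝ, F (ψ N (x, t)) * Real.exp (-a * t ^ 2)

variable {F : EuclideanSpace ℝ (Fin (N + 1)) → ℝ}

lemma ψ_cont : Continuous (ψ N) := by
  have : (ψ N : EuclideanSpace ℝ (Fin N) × ℝ → EuclideanSpace ℝ (Fin (N + 1))) =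
      fun p => WithLp.toLp 2 (Fin.cons p.2 (fun i => p.1 i) : Fin (N + 1) → ℝ) := by
    funext p
    ext i
    refine Fin.cases ?_ (fun j => ?_) i
    · rfl
    · rfl
  rw [this]
  refine (PiLp.continuous_toLp 2 _).comp ?_
  refine continuous_pi fun i => ?_
  refine Fin.cases ?_ (fun j => ?_) i
  · exact continuous_snd
  · simp only [Fin.cons_succ]
    fun_prop

lemma int_ψ (G : EuclideanSpace ℝ (Fin (N + 1)) → ℝ) : ∫ p, G (ψ N p) = ∫ x, G x :=
  ψ_mp.integral_comp (ψ N).measurableEmbedding G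

lemma integrable_ψ {G : EuclideanSpace ℝ (Fin (N + 1)) → ℝ} (hG : Integrable G) :
    Integrable (fun p => G (ψ N p)) :=
  (ψ_mp.integrable_comp_emb (ψ N).measurableEmbedding).2 hG

lemma integrable_w (hF : Integrable F) {a : ℝ} (ha : 0 ≤ a) :
    Integrable (fun p : EuclideanSpace ℝ (Fin N) × ℝ => F (ψ N p) * Real.exp (-a * p.2 ^ 2)) := by
  refine (integrable_ψ hF).mul_bdd (c := 1) (by fun_prop) (Eventually.of_forall fun p => ?_)
  rw [Real.norm_eq_abs, Real.abs_exp]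
  exact Real.exp_le_one_iff.2 (by nlinarith [sq_nonneg p.2])

lemma red_integrable (hF : Integrable F) {a : ℝ} (ha : 0 ≤ a) : Integrable (red F a) :=
  (integrable_w hF ha).integral_prod_left

lemma red_integral (hF : Integrable F) {a : ℝ} (ha : 0 ≤ a) :
    ∫ x, red F a x = ∫ p : EuclideanSpace ℝ (Fin N) × ℝ, F (ψ N p) * Real.exp (-a * p.2 ^ 2) :=
  (integral_prod _ (integrable_w hF ha)).symm

lemma red_tendsto (hF : Integrable F) :
    Tendsto (fun k : ℕ => ∫ x, red F (1 / ((k : ℝ) + 1)) x) atTop (𝓝 (∫ x, F x)) := by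
  simp_rw [fun k : ℕ => red_integral hF (a := 1 / ((k : ℝ) + 1)) (by positivity)]
  rw [← int_ψ F]
  refine tendsto_integral_of_dominated_convergence (fun p => ‖F (ψ N p)‖)
    (fun k => (integrable_w hF (by positivity)).aestronglyMeasurable) (integrable_ψ hF).norm
    (fun k => Eventually.of_forall fun p => ?_) (Eventually.of_forall fun p => ?_)
  · rw [norm_mul]
    refine mul_le_of_le_one_right (norm_nonneg _) ?_
    rw [Real.norm_eq_abs, Real.abs_exp]
    refine Real.exp_le_one_iff.2 ?_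
    have : (0 : ℝ) ≤ 1 / ((k : ℝ) + 1) := by positivity
    nlinarith [sq_nonneg p.2]
  · have h : Tendsto (fun k : ℕ => (1 : ℝ) / ((k : ℝ) + 1)) atTop (𝓝 0) :=
      tendsto_one_div_add_atTop_nhds_zero_nat
    have h2 : Tendsto (fun k : ℕ => F (ψ N p) * Real.exp (-((1 : ℝ) / ((k : ℝ) + 1)) * p.2 ^ 2)) atTop
        (𝓝 (F (ψ N p) * Real.exp (-(0 : ℝ) * p.2 ^ 2))) :=
      ((Real.continuous_exp.tendsto _).comp ((h.neg).mul_const _)).const_mul _
    simpa using h2

lemma red_nonpos {r : ℝ} (hr : 0 < r) (hs : ∀ x, r ≤ ‖x‖ → F x ≤ 0) (a : ℝ)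
    (x : EuclideanSpace ℝ (Fin N)) (hx : r ≤ ‖x‖) : red F a x ≤ 0 := by
  refine integral_nonpos fun t => ?_
  refine mul_nonpos_of_nonpos_of_nonneg (hs _ ?_) (Real.exp_pos _).le
  have h := ψ_norm x t
  refine le_of_sq_le_sq ?_ (norm_nonneg _)
  rw [h]
  nlinarith [sq_nonneg t, norm_nonneg x]

lemma red_zero_le {ν : Measure (EuclideanSpace ℝ (Fin (N + 1)))} [IsFiniteMeasure ν]
    (hF : ∀ x, F x = ∫ ξ, Real.cos (inner ℝ x ξ) ∂ν) {r : ℝ} (hr : 0 < r)
    (hs : ∀ x, r ≤ ‖x‖ → F x ≤ 0) {a : ℝ} (ha : 0 < a) : red F a 0 ≤ 2 * r * F 0 := by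
  have h0 := F_zero_nonneg hF
  have h1 : ∫ t : ℝ, (Set.Icc (-r) r).indicator (fun _ => F 0) t = 2 * r * F 0 := by
    rw [integral_indicator measurableSet_Icc, setIntegral_const, smul_eq_mul]
    simp only [Measure.real, Real.volume_Icc]
    rw [ENNReal.toReal_ofReal (by linarith)]
    ring
  rw [← h1]
  have hFc := F_cont hF
  refine integral_mono ?_ ?_ fun t => ?_
  · refine Integrable.bdd_mul (c := F 0) (integrable_exp_neg_mul_sq ha) ?_
      (Eventually.of_forall fun t => ?_)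
    · exact (hFc.comp (ψ_cont.comp (by fun_prop))).aestronglyMeasurable
    · rw [Real.norm_eq_abs]
      exact F_abs_le hF _
  · refine (integrable_indicator_iff measurableSet_Icc).2 ?_
    exact integrableOn_const (by simp)
  · have he1 : Real.exp (-a * t ^ 2) ≤ 1 := Real.exp_le_one_iff.2 (by nlinarith [sq_nonneg t])
    have he0 := Real.exp_pos (-a * t ^ 2)
    by_cases ht : t ∈ Set.Icc (-r) r
    · simp only [Set.indicator_of_mem ht]
      have := (abs_le.1 (F_abs_le hF (ψ N (0, t)))).2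
      nlinarith
    · simp only [Set.indicator_of_notMem ht]
      refine mul_nonpos_of_nonpos_of_nonneg (hs _ ?_) he0.le
      have h := ψ_norm (0 : EuclideanSpace ℝ (Fin N)) t
      refine le_of_sq_le_sq ?_ (norm_nonneg _)
      rw [h]
      have ht2 : r < |t| := by
        by_contra hc
        exact ht (abs_le.1 (not_lt.1 hc))
      have : r ^ 2 ≤ |t| ^ 2 := by gcongr
      rw [sq_abs] at this
      simpa using this

/-- The density of the new measure. -/
def dens (a : ℝ) (ξ : EuclideanSpace ℝ (Fin (N + 1))) : ℝ :=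
  √(π / a) * Real.exp (-(ξ 0) ^ 2 / (4 * a))

lemma dens_cont (a : ℝ) : Continuous (dens (N := N) a) := by
  unfold dens
  fun_prop

lemma dens_nonneg (a : ℝ) (ξ : EuclideanSpace ℝ (Fin (N + 1))) : 0 ≤ dens a ξ := by
  unfold dens
  positivity

lemma dens_le {a : ℝ} (ha : 0 < a) (ξ : EuclideanSpace ℝ (Fin (N + 1))) : dens a ξ ≤ √(π / a) := by
  unfold dens
  refine mul_le_of_le_one_right (by positivity) (Real.exp_le_one_iff.2 ?_)
  exact div_nonpos_of_nonpos_of_nonneg (by nlinarith [sq_nonneg (ξ 0)]) (by positivity)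

/-- The new measure. -/
def nm (ν : Measure (EuclideanSpace ℝ (Fin (N + 1)))) (a : ℝ) : Measure (EuclideanSpace ℝ (Fin N)) :=
  (ν.withDensity fun ξ => ENNReal.ofReal (dens a ξ)).map (tl N)

lemma nm_finite (ν : Measure (EuclideanSpace ℝ (Fin (N + 1)))) [IsFiniteMeasure ν] {a : ℝ}
    (ha : 0 < a) : IsFiniteMeasure (nm ν a) := by
  have h : IsFiniteMeasure (ν.withDensity fun ξ => ENNReal.ofReal (dens a ξ)) := by
    refine isFiniteMeasure_withDensity_ofReal ?_
    refine (Integrable.of_bound (C := √(π / a)) (dens_cont a).aestronglyMeasurable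
      (Eventually.of_forall fun ξ => ?_)).2
    rw [Real.norm_eq_abs, abs_of_nonneg (dens_nonneg a ξ)]
    exact dens_le ha ξ
  unfold nm
  infer_instance

lemma nm_integral (ν : Measure (EuclideanSpace ℝ (Fin (N + 1)))) [IsFiniteMeasure ν] {a : ℝ}
    (x : EuclideanSpace ℝ (Fin N)) :
    ∫ η, Real.cos (inner ℝ x η) ∂(nm ν a) = ∫ ξ, Real.cos (inner ℝ x (tl N ξ)) * dens a ξ ∂ν := by
  unfold nm
  rw [integral_map tl_cont.aemeasurable (by fun_prop),
    integral_withDensity_eq_integral_toReal_smul (by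
      exact (dens_cont a).measurable.ennreal_ofReal) (Eventually.of_forall fun ξ => by simp)]
  refine integral_congr_ae (Eventually.of_forall fun ξ => ?_)
  simp only [smul_eq_mul]
  rw [ENNReal.toReal_ofReal (dens_nonneg a ξ), mul_comm]

lemma red_pos {ν : Measure (EuclideanSpace ℝ (Fin (N + 1)))} [IsFiniteMeasure ν]
    (hF : ∀ x, F x = ∫ ξ, Real.cos (inner ℝ x ξ) ∂ν) {a : ℝ} (ha : 0 < a)
    (x : EuclideanSpace ℝ (Fin N)) : red F a x = ∫ η, Real.cos (inner ℝ x η) ∂(nm ν a) := by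
  rw [nm_integral]
  unfold red
  have h1 : ∀ t : ℝ, F (ψ N (x, t)) * Real.exp (-a * t ^ 2) =
      ∫ ξ, Real.cos (inner ℝ x (tl N ξ) + t * ξ 0) * Real.exp (-a * t ^ 2) ∂ν := by
    intro t
    rw [hF, ← integral_mul_const]
    simp only [inner_ψ]
  simp_rw [h1]
  rw [integral_integral_swap]
  · refine integral_congr_ae (Eventually.of_forall fun ξ => ?_)
    simp only
    rw [gauss_cos ha]
    rfl
  · have h2 : Integrable (fun p : ℝ × EuclideanSpace ℝ (Fin (N + 1)) =>
        Real.exp (-a * p.1 ^ 2) * (1 : ℝ)) (volume.prod ν) :=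
      (integrable_exp_neg_mul_sq ha).mul_prod (integrable_const 1)
    refine h2.mono' ?_ (Eventually.of_forall fun p => ?_)
    · have : Continuous (Function.uncurry fun (t : ℝ) (ξ : EuclideanSpace ℝ (Fin (N + 1))) =>
          Real.cos (inner ℝ x (tl N ξ) + t * ξ 0) * Real.exp (-a * t ^ 2)) := by
        have := tl_cont (N := N)
        unfold Function.uncurry
        fun_prop
      exact this.aestronglyMeasurable
    · simp only [Function.uncurry, norm_mul, mul_one]
      rw [Real.norm_eq_abs, Real.norm_eq_abs, Real.abs_exp]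
      exact mul_le_of_le_one_left (Real.exp_pos _).le (Real.abs_cos_le_one _)

end

end Red

open Red in
/-- Passage from dimension `N + 1` to dimension `N`. -/
theorem adm_step {N : ℕ} {F : EuclideanSpace ℝ (Fin (N + 1)) → ℝ} {r : ℝ} (h : Adm (N + 1) F r)
    {η : ℝ} (hη : 0 < η) :
    ∃ F' : EuclideanSpace ℝ (Fin N) → ℝ, Adm N F' r ∧
      F' 0 / ∫ x, F' x ≤ (1 + η) * (2 * r) * (F 0 / ∫ x, F x) := by
  obtain ⟨hr, hi, ⟨ν, hν, hF⟩, hs, hI⟩ := h
  have h0 := F_zero_nonneg hF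
  have hlt : (∫ x, F x) / (1 + η) < ∫ x, F x := by
    rw [div_lt_iff₀ (by linarith)]
    nlinarith
  obtain ⟨k, hk⟩ := ((red_tendsto hi).eventually_const_lt hlt).exists
  have ha : (0 : ℝ) < 1 / ((k : ℝ) + 1) := by positivity
  have hpos : 0 < (∫ x, F x) / (1 + η) := by positivity
  refine ⟨red F (1 / ((k : ℝ) + 1)), ⟨hr, red_integrable hi ha.le, ⟨nm ν _, nm_finite ν ha,
    red_pos hF ha⟩, red_nonpos hr hs _, hpos.trans hk⟩, ?_⟩
  have h1 := red_zero_le hF hr hs ha
  calc red F (1 / ((k : ℝ) + 1)) 0 / ∫ x, red F (1 / ((k : ℝ) + 1)) x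
      ≤ 2 * r * F 0 / ∫ x, red F (1 / ((k : ℝ) + 1)) x := by
        gcongr
        exact (hpos.trans hk).le
    _ ≤ 2 * r * F 0 / ((∫ x, F x) / (1 + η)) := by
        gcongr
    _ = (1 + η) * (2 * r) * (F 0 / ∫ x, F x) := by
        field_simp

/-- Passage from dimension `N + k` to dimension `N`. -/
theorem adm_steps {N : ℕ} (k : ℕ) {F : EuclideanSpace ℝ (Fin (N + k)) → ℝ} {r : ℝ}
    (h : Adm (N + k) F r) {η : ℝ} (hη : 0 < η) :
    ∃ F' : EuclideanSpace ℝ (Fin N) → ℝ, Adm N F' r ∧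
      F' 0 / ∫ x, F' x ≤ ((1 + η) * (2 * r)) ^ k * (F 0 / ∫ x, F x) := by
  induction k with
  | zero => exact ⟨F, h, by simp⟩
  | succ k ih =>
    obtain ⟨F1, h1, h1'⟩ := adm_step (N := N + k) h hη
    obtain ⟨F2, h2, h2'⟩ := ih h1
    refine ⟨F2, h2, h2'.trans ?_⟩
    have hr := h.1
    rw [pow_succ, mul_assoc]
    exact mul_le_mul_of_nonneg_left h1' (by positivity)

end Pool.Agent.LPX
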