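import Mathlib
import Pool.Agent.Lib.LPX.Red

/-!
LPX project: passage from dimension `N + k` to dimension `N`, with the volume of the `k`-ball (helper30).
-/

namespace Pool.Agent.LPX

open MeasureTheory Filter Topology
open scoped Real

namespace RedK

open Red (cos_int F_zero F_zero_nonneg F_abs_le F_cont)

noncomputable section

variable {N k : ℕ}

/-- `ℝᴺ × ℝᵏ` and `ℝᴺ⁺ᵏ`. -/
def ψ (N k : ℕ) : EuclideanSpace ℝ (Fin N) × EuclideanSpace ℝ (Fin k) ≃ᵐ
    EuclideanSpace ℝ (Fin (N + k)) :=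
  (MeasurableEquiv.prodCongr (MeasurableEquiv.toLp 2 (Fin N → ℝ)).symm
    (MeasurableEquiv.toLp 2 (Fin k → ℝ)).symm).trans
    ((MeasurableEquiv.sumPiEquivProdPi (fun _ : Fin N ⊕ Fin k => ℝ)).symm.trans
      ((MeasurableEquiv.piCongrLeft (fun _ => ℝ) finSumFinEquiv).trans
      (MeasurableEquiv.toLp 2 (Fin (N + k) → ℝ))))

lemma ψ_left (p : EuclideanSpace ℝ (Fin N) × EuclideanSpace ℝ (Fin k)) (i : Fin N) :
    ψ N k p (Fin.castAdd k i) = p.1 i :=
  Equiv.piCongrLeft_sumInl (fun _ => ℝ) finSumFinEquiv (fun i => p.1 i) (fun i => p.2 i) i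

lemma ψ_right (p : EuclideanSpace ℝ (Fin N) × EuclideanSpace ℝ (Fin k)) (i : Fin k) :
    ψ N k p (Fin.natAdd N i) = p.2 i :=
  Equiv.piCongrLeft_sumInr (fun _ => ℝ) finSumFinEquiv (fun i => p.1 i) (fun i => p.2 i) i

lemma ψ_mp : MeasurePreserving (ψ N k) := by
  unfold ψ
  refine MeasurePreserving.trans (μb := volume) ?_ (MeasurePreserving.trans (μb := volume) ?_
    (MeasurePreserving.trans (μb := volume) ?_ ?_))
  · exact (PiLp.volume_preserving_ofLp (Fin N)).prod (PiLp.volume_preserving_ofLp (Fin k))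
  · exact (volume_measurePreserving_sumPiEquivProdPi _).symm
  · exact volume_measurePreserving_piCongrLeft _ _
  · exact PiLp.volume_preserving_toLp (Fin (N + k))

lemma ψ_norm (x : EuclideanSpace ℝ (Fin N)) (t : EuclideanSpace ℝ (Fin k)) :
    ‖ψ N k (x, t)‖ ^ 2 = ‖x‖ ^ 2 + ‖t‖ ^ 2 := by
  rw [EuclideanSpace.norm_sq_eq, EuclideanSpace.norm_sq_eq, EuclideanSpace.norm_sq_eq,
    Fin.sum_univ_add]
  simp only [ψ_left, ψ_right]

/-- The first coordinates. -/
def tl (N k : ℕ) (ξ : EuclideanSpace ℝ (Fin (N + k))) : EuclideanSpace ℝ (Fin N) :=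
  WithLp.toLp 2 fun i => ξ (Fin.castAdd k i)

/-- The last coordinates. -/
def tr (N k : ℕ) (ξ : EuclideanSpace ℝ (Fin (N + k))) : EuclideanSpace ℝ (Fin k) :=
  WithLp.toLp 2 fun i => ξ (Fin.natAdd N i)

lemma tl_cont : Continuous (tl N k) := by
  unfold tl
  fun_prop

lemma tr_cont : Continuous (tr N k) := by
  unfold tr
  fun_prop

lemma inner_ψ (x : EuclideanSpace ℝ (Fin N)) (t : EuclideanSpace ℝ (Fin k))
    (ξ : EuclideanSpace ℝ (Fin (N + k))) :
    inner ℝ (ψ N k (x, t)) ξ = inner ℝ x (tl N k ξ) + inner ℝ t (tr N k ξ) := by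
  rw [PiLp.inner_apply, PiLp.inner_apply, PiLp.inner_apply, Fin.sum_univ_add]
  simp only [ψ_left, ψ_right, tl, tr]

/-- The cosine transform of the Gaussian. -/
lemma gauss_cos {a : ℝ} (ha : 0 < a) (b : ℝ) (c : EuclideanSpace ℝ (Fin k)) :
    ∫ t : EuclideanSpace ℝ (Fin k), Real.cos (b + inner ℝ t c) * Real.exp (-a * ‖t‖ ^ 2) =
      Real.cos b * ((π / a) ^ ((k : ℝ) / 2) * Real.exp (-‖c‖ ^ 2 / (4 * a))) := by
  have h := GaussianFourier.integral_cexp_neg_mul_sq_norm_add (b := (a : ℂ))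
    (by simpa using ha) Complex.I c
  have hi := GaussianFourier.integrable_cexp_neg_mul_sq_norm_add (b := (a : ℂ))
    (by simpa using ha) Complex.I c
  have h1 : (fun t : EuclideanSpace ℝ (Fin k) =>
      ((Real.cos (b + inner ℝ t c) * Real.exp (-a * ‖t‖ ^ 2) : ℝ))) =
      fun t => (Complex.exp (Complex.I * b) *
        Complex.exp (-a * ‖t‖ ^ 2 + Complex.I * inner ℝ c t)).re := by
    funext t
    have h2 : Complex.exp (Complex.I * b) *
        Complex.exp (-a * ‖t‖ ^ 2 + Complex.I * inner ℝ c t) =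
        Complex.exp (((b + inner ℝ t c : ℝ) : ℂ) * Complex.I) *
          ((Real.exp (-a * ‖t‖ ^ 2) : ℝ) : ℂ) := by
      rw [Complex.ofReal_exp, ← Complex.exp_add, ← Complex.exp_add, real_inner_comm]
      congr 1
      push_cast
      ring
    rw [h2, Complex.re_mul_ofReal, Complex.exp_ofReal_mul_I_re]
  rw [h1]
  have h5 := integral_re (hi.const_mul (Complex.exp (Complex.I * b)))
  simp only [RCLike.re_to_complex] at h5
  rw [h5, integral_const_mul, h, finrank_euclideanSpace_fin]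
  have h6 : ((π : ℂ) / a) ^ ((k : ℂ) / 2) = (((π / a) ^ ((k : ℝ) / 2) : ℝ) : ℂ) := by
    rw [Complex.ofReal_cpow (by positivity)]
    push_cast
    rfl
  have h7 : Complex.exp (Complex.I ^ 2 * (‖c‖ : ℂ) ^ 2 / (4 * a)) =
      ((Real.exp (-‖c‖ ^ 2 / (4 * a)) : ℝ) : ℂ) := by
    rw [Complex.I_sq]
    push_cast
    ring_nf
  rw [h6, h7, ← Complex.ofReal_mul, Complex.re_mul_ofReal]
  congr 1
  rw [mul_comm, Complex.exp_ofReal_mul_I_re]

/-- The partial integral with a Gaussian weight. -/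
def red (F : EuclideanSpace ℝ (Fin (N + k)) → ℝ) (a : ℝ) (x : EuclideanSpace ℝ (Fin N)) : ℝ :=
  ∫ t : EuclideanSpace ℝ (Fin k), F (ψ N k (x, t)) * Real.exp (-a * ‖t‖ ^ 2)

variable {F : EuclideanSpace ℝ (Fin (N + k)) → ℝ}

lemma ψ_cont : Continuous (ψ N k) := by
  have : (ψ N k : EuclideanSpace ℝ (Fin N) × EuclideanSpace ℝ (Fin k) →
      EuclideanSpace ℝ (Fin (N + k))) =
      fun p => WithLp.toLp 2 (Fin.append (fun i => p.1 i) (fun i => p.2 i)) := by
    funext p
    ext i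
    refine Fin.addCases (fun j => ?_) (fun j => ?_) i
    · rw [ψ_left]; simp
    · rw [ψ_right]; simp
  rw [this]
  refine (PiLp.continuous_toLp 2 _).comp ?_
  refine continuous_pi fun i => ?_
  refine Fin.addCases (fun j => ?_) (fun j => ?_) i
  · simp only [Fin.append_left]
    fun_prop
  · simp only [Fin.append_right]
    fun_prop

lemma int_ψ (G : EuclideanSpace ℝ (Fin (N + k)) → ℝ) : ∫ p, G (ψ N k p) = ∫ x, G x :=
  ψ_mp.integral_comp (ψ N k).measurableEmbedding G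

lemma integrable_ψ {G : EuclideanSpace ℝ (Fin (N + k)) → ℝ} (hG : Integrable G) :
    Integrable (fun p => G (ψ N k p)) :=
  (ψ_mp.integrable_comp_emb (ψ N k).measurableEmbedding).2 hG

lemma exp_le {a : ℝ} (ha : 0 ≤ a) (t : EuclideanSpace ℝ (Fin k)) :
    Real.exp (-a * ‖t‖ ^ 2) ≤ 1 :=
  Real.exp_le_one_iff.2 (by nlinarith [sq_nonneg ‖t‖, mul_nonneg ha (sq_nonneg ‖t‖)])

lemma integrable_w (hF : Integrable F) {a : ℝ} (ha : 0 ≤ a) :
    Integrable (fun p : EuclideanSpace ℝ (Fin N) × EuclideanSpace ℝ (Fin k) =>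
      F (ψ N k p) * Real.exp (-a * ‖p.2‖ ^ 2)) := by
  refine (integrable_ψ hF).mul_bdd (c := 1) (by fun_prop) (Eventually.of_forall fun p => ?_)
  rw [Real.norm_eq_abs, Real.abs_exp]
  exact exp_le ha _

lemma red_integrable (hF : Integrable F) {a : ℝ} (ha : 0 ≤ a) : Integrable (red F a) :=
  (integrable_w hF ha).integral_prod_left

lemma red_integral (hF : Integrable F) {a : ℝ} (ha : 0 ≤ a) :
    ∫ x, red F a x = ∫ p : EuclideanSpace ℝ (Fin N) × EuclideanSpace ℝ (Fin k),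
      F (ψ N k p) * Real.exp (-a * ‖p.2‖ ^ 2) :=
  (integral_prod _ (integrable_w hF ha)).symm

lemma red_tendsto (hF : Integrable F) :
    Tendsto (fun n : ℕ => ∫ x, red F (1 / ((n : ℝ) + 1)) x) atTop (𝓝 (∫ x, F x)) := by
  simp_rw [fun n : ℕ => red_integral hF (a := 1 / ((n : ℝ) + 1)) (by positivity)]
  rw [← int_ψ F]
  refine tendsto_integral_of_dominated_convergence (fun p => ‖F (ψ N k p)‖)
    (fun n => (integrable_w hF (by positivity)).aestronglyMeasurable) (integrable_ψ hF).norm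
    (fun n => Eventually.of_forall fun p => ?_) (Eventually.of_forall fun p => ?_)
  · rw [norm_mul]
    refine mul_le_of_le_one_right (norm_nonneg _) ?_
    rw [Real.norm_eq_abs, Real.abs_exp]
    exact exp_le (by positivity) _
  · have h : Tendsto (fun n : ℕ => (1 : ℝ) / ((n : ℝ) + 1)) atTop (𝓝 0) :=
      tendsto_one_div_add_atTop_nhds_zero_nat
    have h2 : Tendsto (fun n : ℕ => F (ψ N k p) * Real.exp (-((1 : ℝ) / ((n : ℝ) + 1)) * ‖p.2‖ ^ 2))
        atTop (𝓝 (F (ψ N k p) * Real.exp (-(0 : ℝ) * ‖p.2‖ ^ 2))) :=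
      ((Real.continuous_exp.tendsto _).comp ((h.neg).mul_const _)).const_mul _
    simpa using h2

lemma red_nonpos {r : ℝ} (hr : 0 < r) (hs : ∀ x, r ≤ ‖x‖ → F x ≤ 0) (a : ℝ)
    (x : EuclideanSpace ℝ (Fin N)) (hx : r ≤ ‖x‖) : red F a x ≤ 0 := by
  refine integral_nonpos fun t => ?_
  refine mul_nonpos_of_nonpos_of_nonneg (hs _ ?_) (Real.exp_pos _).le
  have h := ψ_norm x t
  refine le_of_sq_le_sq ?_ (norm_nonneg _)
  rw [h]
  nlinarith [sq_nonneg ‖t‖, norm_nonneg x]

lemma red_zero_le {ν : Measure (EuclideanSpace ℝ (Fin (N + k)))} [IsFiniteMeasure ν]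
    (hF : ∀ x, F x = ∫ ξ, Real.cos (inner ℝ x ξ) ∂ν) {r : ℝ} (hr : 0 < r)
    (hs : ∀ x, r ≤ ‖x‖ → F x ≤ 0) {a : ℝ} (ha : 0 < a) :
    red F a 0 ≤ volume.real (Metric.ball (0 : EuclideanSpace ℝ (Fin k)) r) * F 0 := by
  have h0 := F_zero_nonneg hF
  have h1 : ∫ t : EuclideanSpace ℝ (Fin k), (Metric.ball 0 r).indicator (fun _ => F 0) t =
      volume.real (Metric.ball (0 : EuclideanSpace ℝ (Fin k)) r) * F 0 := by
    rw [integral_indicator Metric.isOpen_ball.measurableSet, setIntegral_const, smul_eq_mul]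
  rw [← h1]
  have hFc := F_cont hF
  have hg : Integrable fun t : EuclideanSpace ℝ (Fin k) => Real.exp (-a * ‖t‖ ^ 2) := by
    have := (GaussianFourier.integrable_cexp_neg_mul_sq_norm_add (b := (a : ℂ))
      (by simpa using ha) 0 (0 : EuclideanSpace ℝ (Fin k))).norm
    refine this.congr (Eventually.of_forall fun t => ?_)
    simp only
    rw [Complex.norm_exp]
    congr 1
    have : -(a : ℂ) * (‖t‖ : ℂ) ^ 2 + 0 * ((inner ℝ (0 : EuclideanSpace ℝ (Fin k)) t : ℝ) : ℂ) =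
        ((-a * ‖t‖ ^ 2 : ℝ) : ℂ) := by
      push_cast; ring
    rw [this, Complex.ofReal_re]
  refine integral_mono ?_ ?_ fun t => ?_
  · refine Integrable.bdd_mul (c := F 0) hg ?_ (Eventually.of_forall fun t => ?_)
    · exact (hFc.comp (ψ_cont.comp (by fun_prop))).aestronglyMeasurable
    · rw [Real.norm_eq_abs]
      exact F_abs_le hF _
  · refine (integrable_indicator_iff Metric.isOpen_ball.measurableSet).2 ?_
    exact integrableOn_const (by exact measure_ball_lt_top.ne)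
  · have he1 : Real.exp (-a * ‖t‖ ^ 2) ≤ 1 := exp_le ha.le t
    have he0 := Real.exp_pos (-a * ‖t‖ ^ 2)
    by_cases ht : t ∈ Metric.ball (0 : EuclideanSpace ℝ (Fin k)) r
    · simp only [Set.indicator_of_mem ht]
      have := (abs_le.1 (F_abs_le hF (ψ N k (0, t)))).2
      nlinarith
    · simp only [Set.indicator_of_notMem ht]
      refine mul_nonpos_of_nonpos_of_nonneg (hs _ ?_) he0.le
      have h := ψ_norm (0 : EuclideanSpace ℝ (Fin N)) t
      refine le_of_sq_le_sq ?_ (norm_nonneg _)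
      rw [h]
      rw [mem_ball_zero_iff, not_lt] at ht
      have : r ^ 2 ≤ ‖t‖ ^ 2 := by gcongr
      simpa using this

/-- The density of the new measure. -/
def dens (a : ℝ) (ξ : EuclideanSpace ℝ (Fin (N + k))) : ℝ :=
  (π / a) ^ ((k : ℝ) / 2) * Real.exp (-‖tr N k ξ‖ ^ 2 / (4 * a))

lemma dens_cont (a : ℝ) : Continuous (dens (N := N) (k := k) a) := by
  have := tr_cont (N := N) (k := k)
  unfold dens
  fun_prop

lemma dens_nonneg {a : ℝ} (ha : 0 < a) (ξ : EuclideanSpace ℝ (Fin (N + k))) : 0 ≤ dens a ξ := by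
  unfold dens
  positivity

lemma dens_le {a : ℝ} (ha : 0 < a) (ξ : EuclideanSpace ℝ (Fin (N + k))) :
    dens a ξ ≤ (π / a) ^ ((k : ℝ) / 2) := by
  unfold dens
  refine mul_le_of_le_one_right (by positivity) (Real.exp_le_one_iff.2 ?_)
  exact div_nonpos_of_nonpos_of_nonneg (by nlinarith [sq_nonneg ‖tr N k ξ‖]) (by positivity)

/-- The new measure. -/
def nm (ν : Measure (EuclideanSpace ℝ (Fin (N + k)))) (a : ℝ) : Measure (EuclideanSpace ℝ (Fin N)) :=
  (ν.withDensity fun ξ => ENNReal.ofReal (dens a ξ)).map (tl N k)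

lemma nm_finite (ν : Measure (EuclideanSpace ℝ (Fin (N + k)))) [IsFiniteMeasure ν] {a : ℝ}
    (ha : 0 < a) : IsFiniteMeasure (nm ν a) := by
  have h : IsFiniteMeasure (ν.withDensity fun ξ => ENNReal.ofReal (dens a ξ)) := by
    refine isFiniteMeasure_withDensity_ofReal ?_
    refine (Integrable.of_bound (C := (π / a) ^ ((k : ℝ) / 2)) (dens_cont a).aestronglyMeasurable
      (Eventually.of_forall fun ξ => ?_)).2
    rw [Real.norm_eq_abs, abs_of_nonneg (dens_nonneg ha ξ)]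
    exact dens_le ha ξ
  unfold nm
  infer_instance

lemma nm_integral (ν : Measure (EuclideanSpace ℝ (Fin (N + k)))) [IsFiniteMeasure ν] {a : ℝ}
    (ha : 0 < a) (x : EuclideanSpace ℝ (Fin N)) :
    ∫ η, Real.cos (inner ℝ x η) ∂(nm ν a) = ∫ ξ, Real.cos (inner ℝ x (tl N k ξ)) * dens a ξ ∂ν := by
  unfold nm
  rw [integral_map tl_cont.aemeasurable (by fun_prop),
    integral_withDensity_eq_integral_toReal_smul (by
      exact (dens_cont a).measurable.ennreal_ofReal) (Eventually.of_forall fun ξ => by simp)]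
  refine integral_congr_ae (Eventually.of_forall fun ξ => ?_)
  simp only [smul_eq_mul]
  rw [ENNReal.toReal_ofReal (dens_nonneg ha ξ), mul_comm]

lemma red_pos {ν : Measure (EuclideanSpace ℝ (Fin (N + k)))} [IsFiniteMeasure ν]
    (hF : ∀ x, F x = ∫ ξ, Real.cos (inner ℝ x ξ) ∂ν) {a : ℝ} (ha : 0 < a)
    (x : EuclideanSpace ℝ (Fin N)) : red F a x = ∫ η, Real.cos (inner ℝ x η) ∂(nm ν a) := by
  rw [nm_integral ν ha]
  unfold red
  have h1 : ∀ t : EuclideanSpace ℝ (Fin k), F (ψ N k (x, t)) * Real.exp (-a * ‖t‖ ^ 2) =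
      ∫ ξ, Real.cos (inner ℝ x (tl N k ξ) + inner ℝ t (tr N k ξ)) * Real.exp (-a * ‖t‖ ^ 2) ∂ν := by
    intro t
    rw [hF, ← integral_mul_const]
    simp only [inner_ψ]
  simp_rw [h1]
  rw [integral_integral_swap]
  · refine integral_congr_ae (Eventually.of_forall fun ξ => ?_)
    simp only
    rw [gauss_cos ha]
    rfl
  · have hg : Integrable fun t : EuclideanSpace ℝ (Fin k) => Real.exp (-a * ‖t‖ ^ 2) := by
      have := (GaussianFourier.integrable_cexp_neg_mul_sq_norm_add (b := (a : ℂ))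
        (by simpa using ha) 0 (0 : EuclideanSpace ℝ (Fin k))).norm
      refine this.congr (Eventually.of_forall fun t => ?_)
      simp only
      rw [Complex.norm_exp]
      congr 1
      have : -(a : ℂ) * (‖t‖ : ℂ) ^ 2 + 0 * ((inner ℝ (0 : EuclideanSpace ℝ (Fin k)) t : ℝ) : ℂ) =
          ((-a * ‖t‖ ^ 2 : ℝ) : ℂ) := by
        push_cast; ring
      rw [this, Complex.ofReal_re]
    have h2 : Integrable (fun p : EuclideanSpace ℝ (Fin k) × EuclideanSpace ℝ (Fin (N + k)) =>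
        Real.exp (-a * ‖p.1‖ ^ 2) * (1 : ℝ)) (volume.prod ν) :=
      hg.mul_prod (integrable_const 1)
    refine h2.mono' ?_ (Eventually.of_forall fun p => ?_)
    · have : Continuous (Function.uncurry fun (t : EuclideanSpace ℝ (Fin k))
          (ξ : EuclideanSpace ℝ (Fin (N + k))) =>
          Real.cos (inner ℝ x (tl N k ξ) + inner ℝ t (tr N k ξ)) * Real.exp (-a * ‖t‖ ^ 2)) := by
        have := tl_cont (N := N) (k := k)
        have := tr_cont (N := N) (k := k)
        unfold Function.uncurry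
        fun_prop
      exact this.aestronglyMeasurable
    · simp only [Function.uncurry, norm_mul, mul_one]
      rw [Real.norm_eq_abs, Real.norm_eq_abs, Real.abs_exp]
      exact mul_le_of_le_one_left (Real.exp_pos _).le (Real.abs_cos_le_one _)

end

end RedK

open Red RedK in
/-- Passage from dimension `N + k` to dimension `N`. -/
theorem lpx7 (N k : ℕ) (F : EuclideanSpace ℝ (Fin (N + k)) → ℝ) (r : ℝ) (h : Adm (N + k) F r)
    (eta : ℝ) (he : 0 < eta) :
    ∃ F' : EuclideanSpace ℝ (Fin N) → ℝ, Adm N F' r ∧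
      F' 0 / (∫ x, F' x) ≤ (1 + eta) *
        volume.real (Metric.ball (0 : EuclideanSpace ℝ (Fin k)) r) * (F 0 / ∫ x, F x) := by
  obtain ⟨hr, hi, ⟨ν, hν, hF⟩, hs, hI⟩ := h
  have h0 := F_zero_nonneg hF
  have hlt : (∫ x, F x) / (1 + eta) < ∫ x, F x := by
    rw [div_lt_iff₀ (by linarith)]
    nlinarith
  obtain ⟨n, hk⟩ := ((RedK.red_tendsto hi).eventually_const_lt hlt).exists
  have ha : (0 : ℝ) < 1 / ((n : ℝ) + 1) := by positivity
  have hpos : 0 < (∫ x, F x) / (1 + eta) := by positivity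
  refine ⟨RedK.red F (1 / ((n : ℝ) + 1)), ⟨hr, RedK.red_integrable hi ha.le,
    ⟨RedK.nm ν _, RedK.nm_finite ν ha, RedK.red_pos hF ha⟩, RedK.red_nonpos hr hs _,
    hpos.trans hk⟩, ?_⟩
  have h1 := RedK.red_zero_le hF hr hs ha
  set v := volume.real (Metric.ball (0 : EuclideanSpace ℝ (Fin k)) r) with hv
  have hv0 : 0 ≤ v := measureReal_nonneg
  calc RedK.red F (1 / ((n : ℝ) + 1)) 0 / ∫ x, RedK.red F (1 / ((n : ℝ) + 1)) x
      ≤ v * F 0 / ∫ x, RedK.red F (1 / ((n : ℝ) + 1)) x := by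
        gcongr
        exact (hpos.trans hk).le
    _ ≤ v * F 0 / ((∫ x, F x) / (1 + eta)) := by
        gcongr
    _ = (1 + eta) * v * (F 0 / ∫ x, F x) := by
        field_simp

end Pool.Agent.LPX
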